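import Pool.Agent.Lib.MP_a325a5_ag.UM.Defs
import Pool.Agent.Lib.MP_a325a5_ag.UL.Pts

/-! Points with coordinates in extension fields, basic lemmas. -/

set_option autoImplicit false

namespace Pool.Agent.Lib.MP_a325a5_ag.UM

open MvPolynomial

/-! ### The ideal and the transcendence degree of a vector -/

/-- The ideal over `K` of a vector `q` with coordinates in the extension field `L`. -/
noncomputable def aloc (K : Type) [Field K] {L : Type} [Field L] [Algebra K L] {ι : Type}
    (q : ι → L) : Ideal (MvPolynomial ι K) :=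
  RingHom.ker (aeval q : MvPolynomial ι K →ₐ[K] L)

open Classical in
/-- The transcendence degree over `K` of the coordinates of `q`. -/
noncomputable def atd (K : Type) [Field K] {L : Type} [Field L] [Algebra K L] {ι : Type}
    [Fintype ι] (q : ι → L) : ℕ :=
  (Finset.univ.filter fun J : Finset ι =>
    AlgebraicIndependent K fun j : J => q j).sup Finset.card

theorem mem_aloc {K : Type} [Field K] {L : Type} [Field L] [Algebra K L] {ι : Type}
    {q : ι → L} {f : MvPolynomial ι K} : f ∈ aloc K q ↔ aeval q f = 0 :=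
  RingHom.mem_ker

instance aloc_isPrime (K : Type) [Field K] {L : Type} [Field L] [Algebra K L] {ι : Type}
    (q : ι → L) : (aloc K q).IsPrime :=
  RingHom.ker_isPrime _

theorem ul_locus {K : Type} [Field K] {L : Type} [Field L] [Algebra K L] {ι : Type}
    (p : ι → Lˣ) : UL.locus K p = aloc K (fun i => (p i : L)) := rfl

theorem ul_td {K : Type} [Field K] {L : Type} [Field L] [Algebra K L] {ι : Type} [Fintype ι]
    (p : ι → Lˣ) : UL.td K p = atd K (fun i => (p i : L)) := rfl

theorem mem_aloc_self {K : Type} [Field K] {ι : Type} {x : ι → K} {f : MvPolynomial ι K} :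
    f ∈ aloc K x ↔ eval x f = 0 := by
  rw [mem_aloc, ← MvPolynomial.coe_aeval_eq_eval]
  rfl

/-! ### Affine space -/

theorem mem_avan {K : Type} [Field K] {α : Type} {T : Set (α → K)} {f : MvPolynomial α K} :
    f ∈ avan T ↔ ∀ x ∈ T, eval x f = 0 := Iff.rfl

theorem avan_anti {K : Type} [Field K] {α : Type} {T T' : Set (α → K)} (h : T ⊆ T') :
    avan T' ≤ avan T := fun _ hf x hx => hf x (h hx)

theorem avan_singleton {K : Type} [Field K] {α : Type} (x : α → K) : avan {x} = aloc K x := by
  ext f
  rw [mem_avan, mem_aloc_self]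
  simp

theorem amem_iff_le_aloc {K : Type} [Field K] {α : Type} {T : Set (α → K)} (hT : AIrr T)
    (x : α → K) : x ∈ T ↔ avan T ≤ aloc K x := by
  constructor
  · intro hx f hf
    exact mem_aloc_self.mpr (hf x hx)
  · intro h
    exact hT.2 x fun f hf => mem_aloc_self.mp (h hf)

theorem asubset_iff {K : Type} [Field K] {α : Type} {Z T : Set (α → K)} (hT : AIrr T) :
    Z ⊆ T ↔ avan T ≤ avan Z := by
  constructor
  · exact avan_anti
  · intro h z hz
    exact hT.2 z fun f hf => h hf z hz

theorem AIrr.ext {K : Type} [Field K] {α : Type} {T T' : Set (α → K)} (hT : AIrr T)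
    (hT' : AIrr T') (h : avan T = avan T') : T = T' :=
  Set.Subset.antisymm ((asubset_iff hT').mpr h.ge) ((asubset_iff hT).mpr h.le)

theorem mem_bc {k K : Type} [Field k] [Field K] [Algebra k K] {α : Type} {T : Set (α → k)}
    {x : α → K} : x ∈ bc K T ↔ avan T ≤ aloc k x :=
  ⟨fun h f hf => mem_aloc.mpr (h f hf), fun h _ hf => mem_aloc.mp (h hf)⟩

theorem bc_self {k : Type} [Field k] {α : Type} {T : Set (α → k)} (hT : AIrr T) :
    bc k T = T := by
  ext x
  rw [mem_bc, amem_iff_le_aloc hT]

/-! ### Products of affine space and tori -/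

section
variable {K : Type} [Field K] {α β : Type}

@[simp] theorem co_inl (p : Pt K α β) (i : α) : co p (Sum.inl i) = p.1 i := rfl

@[simp] theorem co_inr (p : Pt K α β) (j : β) : co p (Sum.inr j) = (p.2 j : K) := rfl

theorem co_injective : Function.Injective (co : Pt K α β → α ⊕ β → K) := by
  intro p q h
  apply Prod.ext
  · funext i
    exact congrFun h (Sum.inl i)
  · funext j
    apply Units.ext
    exact congrFun h (Sum.inr j)

theorem mem_vanIdeal {Z : Set (Pt K α β)} {f : MvPolynomial (α ⊕ β) K} :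
    f ∈ vanIdeal Z ↔ ∀ z ∈ Z, eval (co z) f = 0 := Iff.rfl

theorem vanIdeal_eq_avan (Z : Set (Pt K α β)) : vanIdeal Z = avan (co '' Z) := by
  ext f
  rw [mem_vanIdeal, mem_avan]
  constructor
  · rintro h _ ⟨z, hz, rfl⟩
    exact h z hz
  · intro h z hz
    exact h _ ⟨z, hz, rfl⟩

theorem vanIdeal_anti {Z W : Set (Pt K α β)} (h : Z ⊆ W) : vanIdeal W ≤ vanIdeal Z :=
  fun _ hf z hz => hf z (h hz)

theorem mem_iff_le_aloc {Z : Set (Pt K α β)} (hZ : IrrClosed Z) (x : Pt K α β) :
    x ∈ Z ↔ vanIdeal Z ≤ aloc K (co x) := by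
  constructor
  · intro hx f hf
    exact mem_aloc_self.mpr (hf x hx)
  · intro h
    exact hZ.2 x fun f hf => mem_aloc_self.mp (h hf)

theorem subset_iff {Z W : Set (Pt K α β)} (hW : IrrClosed W) :
    Z ⊆ W ↔ vanIdeal W ≤ vanIdeal Z := by
  constructor
  · exact vanIdeal_anti
  · intro h z hz
    exact hW.2 z fun f hf => h hf z hz

theorem IrrClosed.ext {Z W : Set (Pt K α β)} (hZ : IrrClosed Z) (hW : IrrClosed W)
    (h : vanIdeal Z = vanIdeal W) : Z = W :=
  Set.Subset.antisymm ((subset_iff hW).mpr h.ge) ((subset_iff hZ).mpr h.le)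

/-- The ideal of the first part of a point. -/
theorem aloc_fst_le {L L' : Type} [Field L] [Algebra K L] [Field L'] [Algebra K L']
    (p : Pt L α β) (p' : Pt L' α β) (h : aloc K (co p') ≤ aloc K (co p)) :
    aloc K p'.1 ≤ aloc K p.1 := by
  intro f hf
  have h1 : rename Sum.inl f ∈ aloc K (co p') := by
    rw [mem_aloc, aeval_rename]
    exact mem_aloc.mp hf
  have h2 := mem_aloc.mp (h h1)
  rw [aeval_rename] at h2
  exact mem_aloc.mpr h2

/-- The ideal of the second part of a point. -/
theorem locus_snd_le {L L' : Type} [Field L] [Algebra K L] [Field L'] [Algebra K L']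
    (p : Pt L α β) (p' : Pt L' α β) (h : aloc K (co p') ≤ aloc K (co p)) :
    UL.locus K p'.2 ≤ UL.locus K p.2 := by
  intro f hf
  have h1 : rename Sum.inr f ∈ aloc K (co p') := by
    rw [mem_aloc, aeval_rename]
    exact UL.mem_locus.mp hf
  have h2 := mem_aloc.mp (h h1)
  rw [aeval_rename] at h2
  exact UL.mem_locus.mpr h2

end

/-- A point of `K` as a point of the extension `L`. -/
noncomputable def cstP (K L : Type) [Field K] [Field L] [Algebra K L] {α β : Type}
    (p : Pt K α β) : Pt L α β :=
  (fun i => algebraMap K L (p.1 i), fun j => UL.cst K L (p.2 j))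

theorem co_cstP {K L : Type} [Field K] [Field L] [Algebra K L] {α β : Type} (p : Pt K α β) :
    co (cstP K L p) = fun i => algebraMap K L (co p i) := by
  funext i
  rcases i with i | i
  · rfl
  · rfl

theorem aloc_algebraMap {K L : Type} [Field K] [Field L] [Algebra K L] {ι : Type} (x : ι → K) :
    aloc K (fun i => algebraMap K L (x i)) = aloc K x := by
  ext f
  rw [mem_aloc, mem_aloc]
  have h1 : aeval (fun i => algebraMap K L (x i)) f = algebraMap K L (aeval x f) := by
    have h2 := MvPolynomial.comp_aeval_apply x (Algebra.ofId K L) f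
    exact h2.symm
  rw [h1, map_eq_zero_iff _ (algebraMap K L).injective]

/-- Comparison of ideals over a smaller field. -/
theorem aloc_restrict_le (k : Type) {K L L' : Type} [Field k] [Field K] [Algebra k K] [Field L]
    [Algebra K L] [Algebra k L] [IsScalarTower k K L] [Field L'] [Algebra K L'] [Algebra k L']
    [IsScalarTower k K L'] {ι : Type} (q : ι → L) (q' : ι → L') (h : aloc K q' ≤ aloc K q) :
    aloc k q' ≤ aloc k q := by
  have key : ∀ (M : Type) [Field M] [Algebra K M] [Algebra k M] [IsScalarTower k K M]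
      (r : ι → M) (f : MvPolynomial ι k), aeval r (map (algebraMap k K) f) = aeval r f := by
    intro M _ _ _ _ r f
    rw [aeval_map_algebraMap]
  intro f hf
  have h1 : map (algebraMap k K) f ∈ aloc K q' := by
    rw [mem_aloc, key L']
    exact mem_aloc.mp hf
  have h2 := mem_aloc.mp (h h1)
  rw [key L] at h2
  exact mem_aloc.mpr h2

/-! ### The smallest special subset containing a point -/

/-- The dimension of a nonempty closed subset of affine space. -/
noncomputable def dm {k : Type} [Field k] {α : Type} (T : Set (α → k)) : ℕ :=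
  ((ringKrullDim (MvPolynomial α k ⧸ avan T)).unbotD 0).toNat

/-- `T` is the smallest member of `𝒮` containing the point `q`. -/
def Least {k : Type} [Field k] {α : Type} (𝒮 : Set (Set (α → k))) {L : Type} [Field L]
    [Algebra k L] (T : Set (α → k)) (q : α → L) : Prop :=
  T ∈ 𝒮 ∧ avan T ≤ aloc k q ∧ ∀ T' ∈ 𝒮, avan T' ≤ aloc k q → T ⊆ T'

/-- The smallest special subset shrinks under specialisation. -/
theorem Least.subset {k : Type} [Field k] {α : Type} {𝒮 : Set (Set (α → k))} {L L' : Type}
    [Field L] [Algebra k L] [Field L'] [Algebra k L'] {T T' : Set (α → k)} {q : α → L}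
    {q' : α → L'} (hT : Least 𝒮 T q) (hT' : Least 𝒮 T' q') (h : aloc k q' ≤ aloc k q) :
    T ⊆ T' :=
  hT.2.2 T' hT'.1 (hT'.2.1.trans h)

theorem Least.unique {k : Type} [Field k] {α : Type} {𝒮 : Set (Set (α → k))} {L : Type}
    [Field L] [Algebra k L] {T T' : Set (α → k)} {q : α → L} (hT : Least 𝒮 T q)
    (hT' : Least 𝒮 T' q) : T = T' :=
  Set.Subset.antisymm (hT.subset hT' le_rfl) (hT'.subset hT le_rfl)

end Pool.Agent.Lib.MP_a325a5_ag.UM
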