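import Pool.Agent.Lib.MP_a325a5_ag.UM.Pts

/-! Decomposition of the union of a family of irreducible closed sets.

Paper proof.  Let `𝔞` be the ideal of the union of the family, a radical ideal of a noetherian ring,
`P_1..P_m` its minimal primes, `W_l = {x | P_l vanishes at x}`.  A member `Z` of the family has a
prime ideal containing `𝔞`, so it is contained in some `W_l`.  If `f` vanishes on the members of
the family contained in `W_l`, choose `g ∈ ⋂_{j ≠ l} P_j`, `g ∉ P_l`; then `f g` vanishes on all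
members, `f g ∈ 𝔞 ≤ P_l`, `f ∈ P_l`. -/

set_option autoImplicit false

namespace Pool.Agent.Lib.MP_a325a5_ag.UM

open MvPolynomial

private def decV {K : Type} [Field K] {α β : Type} (P : Ideal (MvPolynomial (α ⊕ β) K)) :
    Set (Pt K α β) :=
  {x | P ≤ aloc K (co x)}

theorem exists_decomposition {K : Type} [Field K] {α β : Type} [Fintype α] [Fintype β]
    (𝒵 : Set (Set (Pt K α β))) (h𝒵 : ∀ Z ∈ 𝒵, IrrClosed Z) :
    ∃ 𝒲 : Set (Set (Pt K α β)), 𝒲.Finite ∧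
      (∀ W ∈ 𝒲, IrrClosed W ∧ vanIdeal (⋃₀ {Z | Z ∈ 𝒵 ∧ Z ⊆ W}) = vanIdeal W) ∧
      ∀ Z ∈ 𝒵, ∃ W ∈ 𝒲, Z ⊆ W := by
  classical
  set 𝔞 := vanIdeal (⋃₀ 𝒵) with h𝔞
  have hfin : 𝔞.minimalPrimes.Finite :=
    Ideal.finite_minimalPrimes_of_isNoetherianRing _ _
  have hleV : ∀ P : Ideal (MvPolynomial (α ⊕ β) K), P ≤ vanIdeal (decV P) := by
    intro P f hf
    rw [mem_vanIdeal]
    intro x hx
    exact mem_aloc_self.1 (hx hf)
  -- every member is contained in some `W`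
  have hmem : ∀ Z ∈ 𝒵, ∃ Q ∈ 𝔞.minimalPrimes, Z ⊆ decV Q := by
    intro Z hZ
    have h1 : 𝔞 ≤ vanIdeal Z := vanIdeal_anti (Set.subset_sUnion_of_mem hZ)
    have := (h𝒵 Z hZ).1
    obtain ⟨Q, hQ, hQZ⟩ := Ideal.exists_minimalPrimes_le h1
    refine ⟨Q, hQ, fun x hx f hf => ?_⟩
    exact mem_aloc_self.2 (hQZ hf x hx)
  have key : ∀ P ∈ 𝔞.minimalPrimes, vanIdeal (⋃₀ {Z | Z ∈ 𝒵 ∧ Z ⊆ decV P}) = P := by
    intro P hP
    have hPp : P.IsPrime := hP.1.1
    apply le_antisymm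
    · intro f hf
      have h1 : ∀ Q : Ideal (MvPolynomial (α ⊕ β) K), ∃ g, (Q ∈ 𝔞.minimalPrimes → Q ≠ P →
          g ∈ Q) ∧ g ∉ P := by
        intro Q
        by_cases hQ : Q ∈ 𝔞.minimalPrimes ∧ Q ≠ P
        · have h2 : ¬ Q ≤ P := by
            intro hle
            exact hQ.2 (le_antisymm hle (hP.2 hQ.1.1 hle))
          obtain ⟨g, hg1, hg2⟩ := Set.not_subset.1 h2
          exact ⟨g, fun _ _ => hg1, hg2⟩
        · refine ⟨1, fun h2 h3 => absurd ⟨h2, h3⟩ hQ, ?_⟩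
          exact fun h => hPp.ne_top ((Ideal.eq_top_iff_one P).2 h)
      choose g hg1 hg2 using h1
      set G := ∏ Q ∈ hfin.toFinset.erase P, g Q with hG
      have hGP : G ∉ P := by
        intro h
        obtain ⟨Q, -, hQ⟩ := (hPp.prod_mem_iff).1 h
        exact hg2 Q hQ
      have h3 : f * G ∈ 𝔞 := by
        rw [h𝔞, mem_vanIdeal]
        rintro b ⟨Z, hZ, hb⟩
        obtain ⟨Q, hQ, hZQ⟩ := hmem Z hZ
        rw [map_mul, mul_eq_zero]
        by_cases hQP : Q = P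
        · left
          subst hQP
          exact (mem_vanIdeal.1 hf) b ⟨Z, ⟨hZ, hZQ⟩, hb⟩
        · right
          rw [hG, map_prod]
          refine Finset.prod_eq_zero (Finset.mem_erase.2 ⟨hQP, hfin.mem_toFinset.2 hQ⟩) ?_
          exact mem_aloc_self.1 (hZQ hb (hg1 Q hQ hQP))
      exact (hPp.mem_or_mem (hP.1.2 h3)).resolve_right hGP
    · refine (hleV P).trans (vanIdeal_anti ?_)
      exact Set.sUnion_subset fun Z hZ => hZ.2
  have hV : ∀ P ∈ 𝔞.minimalPrimes, vanIdeal (decV P) = P := by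
    intro P hP
    refine le_antisymm ?_ (hleV P)
    calc vanIdeal (decV P) ≤ vanIdeal (⋃₀ {Z | Z ∈ 𝒵 ∧ Z ⊆ decV P}) :=
          vanIdeal_anti (Set.sUnion_subset fun Z hZ => hZ.2)
      _ = P := key P hP
  refine ⟨decV '' 𝔞.minimalPrimes, hfin.image _, ?_, ?_⟩
  · rintro _ ⟨P, hP, rfl⟩
    refine ⟨⟨?_, ?_⟩, ?_⟩
    · rw [hV P hP]
      exact hP.1.1
    · intro x hx f hf
      refine mem_aloc_self.2 (hx f ?_)
      rw [hV P hP]
      exact hf
    · rw [key P hP, hV P hP]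
  · intro Z hZ
    obtain ⟨Q, hQ, hZQ⟩ := hmem Z hZ
    exact ⟨decV Q, ⟨Q, hQ, rfl⟩, hZQ⟩

end Pool.Agent.Lib.MP_a325a5_ag.UM
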