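import Pool.Agent.Lib.MP_a325a5_ag.UM.Pts

/-! Irreducible closed sets and their generic points.

`exists_irrClosed`: `Z = {x | aloc K (co p) ≤ aloc K (co x)}`; its ideal is `aloc K (co p)` by the
Nullstellensatz, applied to `f` times the product of the torus coordinates. `exists_generic`: `L` is
the fraction field of the coordinate ring. -/

set_option autoImplicit false

namespace Pool.Agent.Lib.MP_a325a5_ag.UM

open MvPolynomial

/-- The Nullstellensatz for a point. -/
private theorem ls_point {K L : Type} [Field K] [IsAlgClosed K] [Field L] [Algebra K L]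
    {ι : Type} [Finite ι] (q : ι → L) (f : MvPolynomial ι K) (hf : f ∉ aloc K q) :
    ∃ x : ι → K, aloc K q ≤ aloc K x ∧ f ∉ aloc K x := by
  by_contra hcon
  push Not at hcon
  apply hf
  have h1 : f ∈ vanishingIdeal K (zeroLocus K (aloc K q)) := by
    rw [mem_vanishingIdeal_iff]
    intro x hx
    rw [mem_zeroLocus_iff] at hx
    have h2 : aloc K q ≤ aloc K x := fun g hg => mem_aloc.mpr (hx g hg)
    exact mem_aloc.mp (hcon x h2)
  rw [IsPrime.vanishingIdeal_zeroLocus] at h1
  exact h1

theorem exists_irrClosed {K L : Type} [Field K] [IsAlgClosed K] [Field L] [Algebra K L]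
    {α β : Type} [Fintype α] [Fintype β] (p : Pt L α β) :
    ∃ Z : Set (Pt K α β), IrrClosed Z ∧ vanIdeal Z = aloc K (co p) := by
  have h1 : vanIdeal {x : Pt K α β | aloc K (co p) ≤ aloc K (co x)} = aloc K (co p) := by
    apply le_antisymm
    · intro f hf
      by_contra hne
      have hg : f * ∏ j : β, X (Sum.inr j) ∉ aloc K (co p) := by
        intro h
        rcases (aloc_isPrime K (co p)).mem_or_mem h with h | h
        · exact hne h
        · rw [Ideal.IsPrime.prod_mem_iff] at h
          obtain ⟨j, -, hj⟩ := h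
          rw [mem_aloc, aeval_X] at hj
          exact (p.2 j).ne_zero hj
      obtain ⟨x, hx1, hx2⟩ := ls_point (co p) _ hg
      have hx3 : ∀ j : β, x (Sum.inr j) ≠ 0 := by
        intro j hj
        apply hx2
        rw [mem_aloc, map_mul, map_prod, Finset.prod_eq_zero (Finset.mem_univ j), mul_zero]
        rw [aeval_X]
        exact hj
      let y : Pt K α β := (fun i => x (Sum.inl i), fun j => Units.mk0 _ (hx3 j))
      have hy : co y = x := by
        funext i
        rcases i with i | i
        · rfl
        · rfl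
      have hfy := hf y (by rw [Set.mem_setOf_eq, hy]; exact hx1)
      apply hx2
      rw [hy, ← mem_aloc_self] at hfy
      exact Ideal.mul_mem_right _ _ hfy
    · intro f hf x hx
      exact mem_aloc_self.mp (hx hf)
  refine ⟨_, ⟨?_, ?_⟩, h1⟩
  · rw [h1]
    exact aloc_isPrime K _
  · intro x hx f hf
    rw [← h1] at hf
    exact mem_aloc_self.mpr (hx f hf)

theorem exists_airr {K L : Type} [Field K] [IsAlgClosed K] [Field L] [Algebra K L]
    {α : Type} [Fintype α] (q : α → L) : ∃ T : Set (α → K), AIrr T ∧ avan T = aloc K q := by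
  have h1 : avan {x : α → K | aloc K q ≤ aloc K x} = aloc K q := by
    apply le_antisymm
    · intro f hf
      by_contra hne
      obtain ⟨x, hx1, hx2⟩ := ls_point q _ hne
      exact hx2 (mem_aloc_self.mpr (hf x hx1))
    · intro f hf x hx
      exact mem_aloc_self.mp (hx hf)
  refine ⟨_, ⟨?_, ?_⟩, h1⟩
  · rw [h1]
    exact aloc_isPrime K _
  · intro x hx f hf
    rw [← h1] at hf
    exact mem_aloc_self.mpr (hx f hf)

/-- The generic point of a prime ideal. -/
private theorem ls_generic {K : Type} [Field K] {ι : Type} (P : Ideal (MvPolynomial ι K))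
    (hP : P.IsPrime) :
    ∃ (L : Type) (_ : Field L) (_ : Algebra K L) (q : ι → L), aloc K q = P := by
  refine ⟨FractionRing (MvPolynomial ι K ⧸ P), inferInstance, inferInstance,
    fun i => algebraMap (MvPolynomial ι K ⧸ P) _ (Ideal.Quotient.mk P (X i)), ?_⟩
  have hval : ∀ f : MvPolynomial ι K,
      aeval (fun i => algebraMap (MvPolynomial ι K ⧸ P) (FractionRing (MvPolynomial ι K ⧸ P))
        (Ideal.Quotient.mk P (X i))) f =
      algebraMap (MvPolynomial ι K ⧸ P) (FractionRing (MvPolynomial ι K ⧸ P))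
        (Ideal.Quotient.mk P f) := by
    intro f
    have hh : (aeval (fun i => algebraMap (MvPolynomial ι K ⧸ P)
        (FractionRing (MvPolynomial ι K ⧸ P)) (Ideal.Quotient.mk P (X i))) :
        MvPolynomial ι K →ₐ[K] _) =
        (IsScalarTower.toAlgHom K (MvPolynomial ι K ⧸ P)
          (FractionRing (MvPolynomial ι K ⧸ P))).comp (Ideal.Quotient.mkₐ K P) := by
      apply MvPolynomial.algHom_ext
      intro i
      rw [aeval_X]
      rfl
    rw [hh]
    rfl
  ext f
  rw [mem_aloc, hval, ← Ideal.Quotient.eq_zero_iff_mem]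
  constructor
  · intro h0
    apply IsFractionRing.injective (MvPolynomial ι K ⧸ P) (FractionRing (MvPolynomial ι K ⧸ P))
    rw [h0, map_zero]
  · intro h0
    rw [h0, map_zero]

theorem IrrClosed.nonempty {K : Type} [Field K] {α β : Type} {Z : Set (Pt K α β)}
    (hZ : IrrClosed Z) : Z.Nonempty := by
  by_contra hem
  rw [Set.not_nonempty_iff_eq_empty] at hem
  apply hZ.1.ne_top
  rw [Ideal.eq_top_iff_one, mem_vanIdeal]
  intro z hz
  rw [hem] at hz
  exact absurd hz (Set.notMem_empty z)

theorem AIrr.nonempty {K : Type} [Field K] {α : Type} {T : Set (α → K)}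
    (hT : AIrr T) : T.Nonempty := by
  by_contra hem
  rw [Set.not_nonempty_iff_eq_empty] at hem
  apply hT.1.ne_top
  rw [Ideal.eq_top_iff_one, mem_avan]
  intro z hz
  rw [hem] at hz
  exact absurd hz (Set.notMem_empty z)

theorem exists_generic {K : Type} [Field K] {α β : Type} (Z : Set (Pt K α β))
    (hZ : IrrClosed Z) :
    ∃ (L : Type) (_ : Field L) (_ : Algebra K L) (γ : Pt L α β), aloc K (co γ) = vanIdeal Z := by
  obtain ⟨L, iL, iA, q, hq⟩ := ls_generic (vanIdeal Z) hZ.1
  have hne : ∀ j : β, q (Sum.inr j) ≠ 0 := by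
    intro j hj
    have h1 : (X (Sum.inr j) : MvPolynomial (α ⊕ β) K) ∈ vanIdeal Z := by
      rw [← hq, mem_aloc, aeval_X]
      exact hj
    obtain ⟨z, hz⟩ := hZ.nonempty
    have h2 := h1 z hz
    rw [eval_X] at h2
    exact (z.2 j).ne_zero h2
  refine ⟨L, iL, iA, (fun i => q (Sum.inl i), fun j => Units.mk0 _ (hne j)), ?_⟩
  rw [← hq]
  congr 1
  funext i
  rcases i with i | i
  · rfl
  · rfl

theorem exists_ageneric {K : Type} [Field K] {α : Type} (T : Set (α → K)) (hT : AIrr T) :
    ∃ (L : Type) (_ : Field L) (_ : Algebra K L) (q : α → L), aloc K q = avan T :=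
  ls_generic (avan T) hT.1

end Pool.Agent.Lib.MP_a325a5_ag.UM
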