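import Pool.Agent.Lib.MP_a325a5_ag.UM.Pts
import Pool.Agent.Lib.MP_a325a5_ag.UL.Lin

/-! The masks: the point `y = (u, v, u + v + φ(s), y₀)` over `L(v)(u)`, where `u`, `v` are two
families of `a` new variables. -/

set_option autoImplicit false

namespace Pool.Agent.Lib.MP_a325a5_ag.UM

open MvPolynomial UL

/-- The rational function field `L(v)(u)` in two families of `a` variables. -/
abbrev MF (a : ℕ) (L : Type) [Field L] : Type := RatFun (Fin a) (RatFun (Fin a) L)

/-- The constants of `L(v)(u)`. -/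
noncomputable def mcst (a : ℕ) {L : Type} [Field L] (c : L) : MF a L :=
  rcst (Fin a) (rcst (Fin a) c)

/-- The variables `v`. -/
noncomputable def mv {a : ℕ} (L : Type) [Field L] (i : Fin a) : MF a L :=
  rcst (Fin a) (rvar L i)

/-- The variables `u`. -/
noncomputable def mu {a : ℕ} (L : Type) [Field L] (i : Fin a) : MF a L :=
  rvar (RatFun (Fin a) L) i

variable {k L : Type} [Field k] [Field L] [Algebra k L] {α I : Type} {a : ℕ}

theorem exists_msk (φ : Fin a → MvPolynomial α k) (s : α → L) (y : I → Lˣ) :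
    ∃ z : (Fin 3 × Fin a) ⊕ I → (MF a L)ˣ,
      (∀ i, (z (Sum.inl (0, i)) : MF a L) = mu L i) ∧
      (∀ i, (z (Sum.inl (1, i)) : MF a L) = mv L i) ∧
      (∀ i, (z (Sum.inl (2, i)) : MF a L) = mu L i + mv L i + mcst a (aeval s (φ i))) ∧
      ∀ j, (z (Sum.inr j) : MF a L) = mcst a (y j : L) := by
  have hadd : ∀ {E : Type} [Field E] (x y : E), rcst (Fin a) (x + y) = rcst (Fin a) x +
      rcst (Fin a) y := by
    intro E _ x y
    unfold rcst
    rw [map_add, map_add]
  have h0 : ∀ {E : Type} [Field E], rcst (Fin a) (0 : E) = 0 := by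
    intro E _
    unfold rcst
    rw [map_zero, map_zero]
  have hinj : ∀ {E : Type} [Field E] (x : E), x ≠ 0 → rcst (Fin a) x ≠ 0 := by
    intro E _ x hx h
    unfold rcst at h
    rw [map_eq_zero_iff _ (IsFractionRing.injective (MvPolynomial (Fin a) E)
      (RatFun (Fin a) E)), map_eq_zero_iff _ (C_injective _ _)] at h
    exact hx h
  have h1 : ∀ i : Fin a, mu L i ≠ 0 := by
    intro i
    have := rvar_add_rcst_ne_zero (E := RatFun (Fin a) L) i 0
    rwa [h0, add_zero] at this
  have h2 : ∀ i : Fin a, mv L i ≠ 0 := by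
    intro i
    apply hinj
    have := rvar_add_rcst_ne_zero (E := L) i 0
    rwa [h0, add_zero] at this
  have h3 : ∀ i : Fin a, mu L i + mv L i + mcst a (aeval s (φ i)) ≠ 0 := by
    intro i
    have := rvar_add_rcst_ne_zero (E := RatFun (Fin a) L) i
      (rvar L i + rcst (Fin a) (aeval s (φ i)))
    rw [hadd, ← add_assoc] at this
    exact this
  refine ⟨Sum.elim (fun ji => ![fun i => Units.mk0 (mu L i) (h1 i),
    fun i => Units.mk0 (mv L i) (h2 i),
    fun i => Units.mk0 (mu L i + mv L i + mcst a (aeval s (φ i))) (h3 i)] ji.1 ji.2)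
    (fun j => Units.mk0 (mcst a (y j : L)) (hinj _ (hinj _ (y j).ne_zero))), ?_, ?_, ?_, ?_⟩
  · intro i
    rfl
  · intro i
    rfl
  · intro i
    rfl
  · intro j
    rfl

/-- The point `(u, v, u + v + φ(s), y)` over `L(v)(u)`. -/
noncomputable def msk (φ : Fin a → MvPolynomial α k) (s : α → L) (y : I → Lˣ) :
    (Fin 3 × Fin a) ⊕ I → (MF a L)ˣ := (exists_msk φ s y).choose

theorem msk_u (φ : Fin a → MvPolynomial α k) (s : α → L) (y : I → Lˣ) (i : Fin a) :
    (msk φ s y (Sum.inl (0, i)) : MF a L) = mu L i := (exists_msk φ s y).choose_spec.1 i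

theorem msk_v (φ : Fin a → MvPolynomial α k) (s : α → L) (y : I → Lˣ) (i : Fin a) :
    (msk φ s y (Sum.inl (1, i)) : MF a L) = mv L i := (exists_msk φ s y).choose_spec.2.1 i

theorem msk_w (φ : Fin a → MvPolynomial α k) (s : α → L) (y : I → Lˣ) (i : Fin a) :
    (msk φ s y (Sum.inl (2, i)) : MF a L) = mu L i + mv L i + mcst a (aeval s (φ i)) :=
  (exists_msk φ s y).choose_spec.2.2.1 i

theorem msk_y (φ : Fin a → MvPolynomial α k) (s : α → L) (y : I → Lˣ) (j : I) :
    (msk φ s y (Sum.inr j) : MF a L) = mcst a (y j : L) :=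
  (exists_msk φ s y).choose_spec.2.2.2 j

/-- The constants of `L(v)(u)` are the image of the algebra map. -/
theorem mcst_eq (c : L) : mcst a c = algebraMap L (MF a L) c := rfl

end Pool.Agent.Lib.MP_a325a5_ag.UM
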