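import Pool.Agent.Lib.MP_a325a5_ag.UM.TDloc
import Pool.Agent.Lib.MP_a325a5_ag.UM.Msk

/-! Adjoining variables raises the transcendence degree by their number. -/

set_option autoImplicit false

namespace Pool.Agent.Lib.MP_a325a5_ag.UM

open MvPolynomial UL

private theorem ratTd_rvar_indep (L : Type) [Field L] (U : Type) :
    AlgebraicIndependent L (fun u : U => rvar L u) := by
  have h : (aeval (fun u : U => rvar L u) : MvPolynomial U L →ₐ[L] RatFun U L) =
      IsScalarTower.toAlgHom L (MvPolynomial U L) (RatFun U L) := by
    apply MvPolynomial.algHom_ext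
    intro i
    rw [aeval_X]
    rfl
  rw [algebraicIndependent_iff_injective_aeval, h]
  exact IsFractionRing.injective (MvPolynomial U L) (RatFun U L)

/-- Adjoining the variables `U`. -/
theorem atd_ratFun {k L : Type} [Field k] [Field L] [Algebra k L] {μ U : Type} [Fintype μ]
    [Fintype U] (x : μ → L) :
    atd k (Sum.elim (fun j => rcst U (x j)) (fun u : U => rvar L u)) =
      atd k x + Fintype.card U := by
  classical
  obtain ⟨J, hJ, hJc, hJa⟩ := atd_spec (K := k) x
  have hind : AlgebraicIndependent k
      (Sum.elim (fun u : U => rvar L u) (fun j : J => rcst U (x j))) :=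
    AlgebraicIndependent.sumElim_comp (S := L) (A := RatFun U L) hJ (ratTd_rvar_indep L U)
  have hcard : Fintype.card (U ⊕ J) = atd k x + Fintype.card U := by
    rw [Fintype.card_sum, Fintype.card_coe, hJc, add_comm]
  apply le_antisymm
  · rw [← hcard]
    apply atd_le_card_of_algebraic (K := k) _
      (Sum.elim (fun u : U => rvar L u) (fun j : J => rcst U (x j)))
    rintro (i | u)
    · rw [Sum.elim_inl]
      have h1 := hJa i
      have h2 : IsAlgebraic (Algebra.adjoin k ((fun j => rcst U (x j)) '' (J : Set μ)))
          (rcst U (x i)) := by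
        let f : L →ₐ[k] RatFun U L := IsScalarTower.toAlgHom k L (RatFun U L)
        have h3 : IsAlgebraic ((Algebra.adjoin k ((fun j => x j) '' (J : Set μ))).map f) (f (x i)) := by
          obtain ⟨p, hp0, hp⟩ := h1
          let g : Algebra.adjoin k ((fun j => x j) '' (J : Set μ)) →+*
              ((Algebra.adjoin k ((fun j => x j) '' (J : Set μ))).map f) :=
            { toFun := fun y => ⟨f y.1, ⟨y.1, y.2, rfl⟩⟩
              map_one' := Subtype.ext (map_one f)
              map_mul' := fun y z => Subtype.ext (map_mul f y.1 z.1)
              map_zero' := Subtype.ext (map_zero f)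
              map_add' := fun y z => Subtype.ext (map_add f y.1 z.1) }
          have hg : Function.Injective g := by
            intro y z h
            apply Subtype.ext
            exact f.toRingHom.injective (congrArg Subtype.val h)
          refine ⟨p.map g, (Polynomial.map_ne_zero_iff hg).2 hp0, ?_⟩
          rw [Polynomial.aeval_def, Polynomial.eval₂_map]
          have h4 : (algebraMap ((Algebra.adjoin k ((fun j => x j) '' (J : Set μ))).map f)
              (RatFun U L)).comp g =
              (f : L →+* RatFun U L).comp
                (algebraMap (Algebra.adjoin k ((fun j => x j) '' (J : Set μ))) L) := by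
            ext y
            rfl
          rw [h4]
          have h6 := Polynomial.hom_eval₂ p
            (algebraMap (Algebra.adjoin k ((fun j => x j) '' (J : Set μ))) L)
            (f : L →+* RatFun U L) (x i)
          rw [← Polynomial.aeval_def, hp, map_zero] at h6
          exact h6.symm
        have h5 : (Algebra.adjoin k ((fun j => x j) '' (J : Set μ))).map f =
            Algebra.adjoin k ((fun j => rcst U (x j)) '' (J : Set μ)) := by
          rw [AlgHom.map_adjoin, ← Set.image_comp]
          rfl
        rw [h5] at h3
        exact h3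
      refine isAlgebraic_adjoin_trans ?_ h2
      rintro _ ⟨j, hj, rfl⟩
      exact isAlgebraic_algebraMap (⟨rcst U (x j), Algebra.subset_adjoin
        ⟨Sum.inr ⟨j, hj⟩, rfl⟩⟩ : Algebra.adjoin k (Set.range
          (Sum.elim (fun u : U => rvar L u) (fun j : J => rcst U (x j)))))
    · refine isAlgebraic_algebraMap (⟨rvar L u, Algebra.subset_adjoin ⟨Sum.inl u, rfl⟩⟩ :
        Algebra.adjoin k (Set.range
          (Sum.elim (fun u : U => rvar L u) (fun j : J => rcst U (x j)))))
  · rw [← hcard]
    refine le_atd (K := k) _ (Sum.elim (fun u : U => rvar L u) (fun j : J => rcst U (x j)))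
      hind ?_
    rintro (u | j)
    · exact isAlgebraic_algebraMap (⟨rvar L u, Algebra.subset_adjoin ⟨Sum.inr u, rfl⟩⟩ :
        Algebra.adjoin k (Set.range (fun i => Sum.elim (fun j => rcst U (x j))
          (fun u : U => rvar L u) i)))
    · exact isAlgebraic_algebraMap (⟨rcst U (x j), Algebra.subset_adjoin ⟨Sum.inl j, rfl⟩⟩ :
        Algebra.adjoin k (Set.range (fun i => Sum.elim (fun j => rcst U (x j))
          (fun u : U => rvar L u) i)))

end Pool.Agent.Lib.MP_a325a5_ag.UM
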