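import Pool.Agent.Lib.MP_a325a5_ag.UM.KD
import Pool.Agent.Lib.MP_a325a5_ag.UM.LocSet

/-! The smallest special subset containing a point. -/

set_option autoImplicit false

namespace Pool.Agent.Lib.MP_a325a5_ag.UM

open MvPolynomial

section least
variable {k : Type} [Field k] {α : Type}

theorem dm_eq [Fintype α] {L : Type} [Field L] [Algebra k L] (T : Set (α → k)) (q : α → L)
    (h : aloc k q = avan T) : dm T = atd k q := by
  have h1 := krullDim_aloc (K := k) q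
  rw [h] at h1
  unfold dm
  rw [h1]
  rfl

theorem dm_mono [Fintype α] {T T' : Set (α → k)} (hT : AIrr T) (hT' : AIrr T') (h : T ⊆ T') :
    dm T ≤ dm T' ∧ (dm T' ≤ dm T → T = T') := by
  obtain ⟨L, iL, iA, q, hq⟩ := exists_ageneric T hT
  obtain ⟨L', iL', iA', q', hq'⟩ := exists_ageneric T' hT'
  have hle : aloc k q' ≤ aloc k q := by
    rw [hq, hq']
    exact avan_anti h
  rw [dm_eq T q hq, dm_eq T' q' hq']
  refine ⟨atd_mono q q' hle, fun h1 => AIrr.ext hT hT' ?_⟩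
  rw [← hq, ← hq']
  exact (aloc_eq_of_atd_le q q' hle h1).symm

theorem exists_least [IsAlgClosed k] [Fintype α] {S : Set (α → k)} {𝒮 : Set (Set (α → k))}
    (hF : Family S 𝒮) {L : Type} [Field L] [Algebra k L] (q : α → L) (hq : avan S ≤ aloc k q) :
    ∃ T, Least 𝒮 T q := by
  obtain ⟨Z, hZ, hZq⟩ := exists_airr (K := k) q
  obtain ⟨T, ⟨hT, hTq⟩, hmin⟩ := (measure (fun T : Set (α → k) => dm T)).wf.has_min
    {T | T ∈ 𝒮 ∧ avan T ≤ aloc k q} ⟨S, hF.top, hq⟩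
  refine ⟨T, hT, hTq, fun T' hT' hT'q => ?_⟩
  have h1 : Z ⊆ T := (asubset_iff (hF.irr T hT)).mpr (by rw [hZq]; exact hTq)
  have h2 : Z ⊆ T' := (asubset_iff (hF.irr T' hT')).mpr (by rw [hZq]; exact hT'q)
  obtain ⟨T₃, hT₃, hZT₃, hT₃T⟩ := hF.inter T hT T' hT' Z hZ (Set.subset_inter h1 h2)
  have h3 : avan T₃ ≤ aloc k q := by
    rw [← hZq]
    exact avan_anti hZT₃
  have h4 : dm T ≤ dm T₃ := not_lt.mp (hmin T₃ ⟨hT₃, h3⟩)
  have h5 : T₃ = T := (dm_mono (hF.irr T₃ hT₃) (hF.irr T hT)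
    (hT₃T.trans Set.inter_subset_left)).2 h4
  rw [← h5]
  exact hT₃T.trans Set.inter_subset_right

end least

end Pool.Agent.Lib.MP_a325a5_ag.UM
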