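import Pool.Agent.Lib.MP_a325a5_ag.UM.TD

/-! Transcendence degree and specialisation.

Proof hints.  A finite set `J` of coordinates of `τ` is algebraically independent iff no nonzero
polynomial in the variables `J` lies in `aloc K τ`; hence the first two statements.
Third: let `J` be a transcendence basis among the coordinates of `τ` (`atd_spec`).  The coordinates
`J` of `τ'` are independent too, hence (as `atd K τ' ≤ atd K τ = J.card`) a transcendence basis for
`τ'`.  If `f` vanishes at `τ` but not at `τ'` then `f(τ') ≠ 0` is algebraic over `K(τ'_J)`, so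
there is a relation `c_0 + c_1 f + ... + c_r f^r = 0` at `τ'` with `c_l` polynomials in the
variables `J` and `c_0 ≠ 0` (minimal polynomial, cancel powers of `f`).  This relation holds at
`τ` as well, where `f = 0`: so `c_0(τ_J) = 0`, a contradiction. -/

namespace Pool.Agent.Lib.MP_a325a5_ag.UM

open MvPolynomial

variable {K : Type} [Field K] {L L' : Type} [Field L] [Algebra K L] [Field L'] [Algebra K L']
  {ι : Type} [Fintype ι]

omit [Fintype ι] in
private theorem TDloc_rename (τ : ι → L) (J : Finset ι) (p : MvPolynomial J K) :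
    aeval (fun i => (τ i : L)) (rename (Subtype.val : J → ι) p) =
      aeval (fun j : J => ((τ j : L) : L)) p := by
  rw [aeval_rename]
  rfl

theorem algebraicIndependent_of_aloc_le (τ : ι → L) (τ' : ι → L')
    (h : aloc K τ' ≤ aloc K τ) (J : Finset ι)
    (hJ : AlgebraicIndependent K (fun j : J => ((τ j : L) : L))) :
    AlgebraicIndependent K (fun j : J => ((τ' j : L') : L')) := by
  rw [algebraicIndependent_iff] at hJ ⊢
  intro p hp
  apply hJ p
  rw [← TDloc_rename] at hp ⊢
  exact mem_aloc.1 (h (mem_aloc.2 hp))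

theorem atd_mono (τ : ι → L) (τ' : ι → L') (h : aloc K τ' ≤ aloc K τ) :
    atd K τ ≤ atd K τ' := by
  classical
  unfold atd
  refine Finset.sup_le fun J hJ => ?_
  rw [Finset.mem_filter] at hJ
  refine Finset.le_sup (f := Finset.card) ?_
  rw [Finset.mem_filter]
  exact ⟨hJ.1, algebraicIndependent_of_aloc_le τ τ' h J hJ.2⟩

theorem atd_congr (τ : ι → L) (τ' : ι → L') (h : aloc K τ' = aloc K τ) :
    atd K τ' = atd K τ :=
  le_antisymm (atd_mono τ' τ h.ge) (atd_mono τ τ' h.le)

/-- a relation with nonzero constant coefficient -/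
private theorem TDloc_rel {κ : Type} (q : κ → L) (hq : AlgebraicIndependent K q) (a : L)
    (ha0 : a ≠ 0) (ha : IsAlgebraic (Algebra.adjoin K (Set.range q)) a) :
    ∃ P : Polynomial (MvPolynomial κ K), P.coeff 0 ≠ 0 ∧
      P.eval₂ ((aeval q : MvPolynomial κ K →ₐ[K] L) : MvPolynomial κ K →+* L) a = 0 := by
  obtain ⟨p, hp0, hp⟩ := ha
  obtain ⟨Q, hQ, hQd⟩ := Polynomial.exists_eq_pow_rootMultiplicity_mul_and_not_dvd p hp0 0
  have hQa : Polynomial.aeval a Q = 0 := by
    rw [hQ, map_mul, map_pow] at hp
    have h1 : Polynomial.aeval a (Polynomial.X - Polynomial.C (0 : Algebra.adjoin K (Set.range q))) ≠ 0 := by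
      rw [map_zero, sub_zero, Polynomial.aeval_X]
      exact ha0
    exact (mul_eq_zero.1 hp).resolve_left (pow_ne_zero _ h1)
  have hQ0 : Q.coeff 0 ≠ 0 := by
    intro h1
    apply hQd
    rw [map_zero, sub_zero]
    exact Polynomial.X_dvd_iff.2 h1
  let e := hq.aevalEquiv
  refine ⟨Q.map (e.symm : Algebra.adjoin K (Set.range q) →+* MvPolynomial κ K), ?_, ?_⟩
  · rw [Polynomial.coeff_map]
    intro h1
    apply hQ0
    have h2 : e.symm (Q.coeff 0) = 0 := h1
    exact (map_eq_zero_iff _ e.symm.injective).1 h2
  · rw [Polynomial.eval₂_map]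
    rw [Polynomial.aeval_def] at hQa
    have h2 : ((aeval q : MvPolynomial κ K →ₐ[K] L) : MvPolynomial κ K →+* L).comp
        (e.symm : Algebra.adjoin K (Set.range q) →+* MvPolynomial κ K) =
          algebraMap (Algebra.adjoin K (Set.range q)) L := by
      ext x
      rw [RingHom.comp_apply]
      have h3 := hq.algebraMap_aevalEquiv (e.symm x)
      rw [show hq.aevalEquiv (e.symm x) = x from e.apply_symm_apply x] at h3
      exact h3.symm
    rw [h2]
    exact hQa

theorem aloc_eq_of_atd_le (τ : ι → L) (τ' : ι → L') (h : aloc K τ' ≤ aloc K τ)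
    (ht : atd K τ' ≤ atd K τ) : aloc K τ' = aloc K τ := by
  classical
  refine le_antisymm h fun f hf => ?_
  by_contra hf'
  rw [mem_aloc] at hf hf'
  obtain ⟨J, hJ, hJc, -⟩ := atd_spec (K := K) τ
  have hJ' := algebraicIndependent_of_aloc_le τ τ' h J hJ
  have halg : IsAlgebraic (Algebra.adjoin K (Set.range fun j : J => ((τ' j : L') : L')))
      (aeval (fun i => (τ' i : L')) f) := by
    by_contra htr
    have h1 := (hJ'.option_iff_transcendental (aeval (fun i => (τ' i : L')) f)).2 htr
    have h2 := le_atd τ' _ h1 (fun o => by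
      rcases o with _ | j
      · refine isAlgebraic_algebraMap (⟨aeval (fun i => (τ' i : L')) f, ?_⟩ :
          Algebra.adjoin K (Set.range fun i => (τ' i : L')))
        rw [Algebra.adjoin_range_eq_range_aeval]
        exact ⟨f, rfl⟩
      · exact isAlgebraic_algebraMap (⟨((τ' j : L') : L'), Algebra.subset_adjoin ⟨j, rfl⟩⟩ :
          Algebra.adjoin K (Set.range fun i => (τ' i : L'))))
    rw [Fintype.card_option, Fintype.card_coe] at h2
    omega
  obtain ⟨P, hP0, hP⟩ := TDloc_rel _ hJ' _ hf' halg
  let F : MvPolynomial ι K := P.eval₂ (rename (Subtype.val : J → ι) :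
    MvPolynomial J K →ₐ[K] MvPolynomial ι K).toRingHom f
  have hF : ∀ (M : Type) [Field M] [Algebra K M] (t : ι → M), aeval (fun i => (t i : M)) F =
      P.eval₂ ((aeval (fun j : J => ((t j : M) : M)) : MvPolynomial J K →ₐ[K] M) :
        MvPolynomial J K →+* M) (aeval (fun i => (t i : M)) f) := by
    intro M _ _ t
    have h1 := Polynomial.hom_eval₂ P (rename (Subtype.val : J → ι) :
      MvPolynomial J K →ₐ[K] MvPolynomial ι K).toRingHom
      ((aeval (fun i => (t i : M)) : MvPolynomial ι K →ₐ[K] M) : MvPolynomial ι K →+* M) f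
    have h2 : ((aeval (fun i => (t i : M)) : MvPolynomial ι K →ₐ[K] M) :
        MvPolynomial ι K →+* M).comp (rename (Subtype.val : J → ι) :
          MvPolynomial J K →ₐ[K] MvPolynomial ι K).toRingHom =
        ((aeval (fun j : J => ((t j : M) : M)) : MvPolynomial J K →ₐ[K] M) :
          MvPolynomial J K →+* M) := by
      apply RingHom.ext
      intro p
      exact TDloc_rename t J p
    rw [h2] at h1
    exact h1
  have h3 : F ∈ aloc K τ' := by
    rw [mem_aloc, hF]
    exact hP
  have h4 := h h3
  rw [mem_aloc, hF, hf, Polynomial.eval₂_at_zero] at h4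
  exact hP0 ((algebraicIndependent_iff.1 hJ) _ h4)

/-- Points with coordinates in `K`. -/
theorem atd_self (x : ι → K) : atd K x = 0 := by
  have h1 := atd_le_card_of_algebraic (K := K) x (fun j : Empty => j.elim) (fun i =>
    isAlgebraic_algebraMap (⟨(x i : K), Subalgebra.algebraMap_mem _ (x i : K)⟩ :
      Algebra.adjoin K (Set.range (fun j : Empty => (j.elim : K)))))
  simpa using h1

end Pool.Agent.Lib.MP_a325a5_ag.UM
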