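import Pool.Agent.Lib.MP_a325a5_ag.UM.LocSet
import Pool.Agent.Lib.MP_a325a5_ag.UM.KD

/-! Products of irreducible closed sets.

`prod_irr`: two polynomials which do not vanish on `T × C` are nonzero at `(s₁, c₁)` and `(s₂, c₂)`;
as `C` is irreducible there is `c ∈ C` with `f (s₁, c) ≠ 0` and `g (s₂, c) ≠ 0`, and as `T` is
irreducible there is `s ∈ T` with `f (s, c) ≠ 0` and `g (s, c) ≠ 0`.
`prod_zdim`: transcendence bases of the two parts of a generic point of the product form together a
transcendence basis; the independence is seen on the points of `T × C`. -/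

set_option autoImplicit false

namespace Pool.Agent.Lib.MP_a325a5_ag.UM

open MvPolynomial

section prod
variable {K : Type} [Field K] {α β : Type}

/-- the polynomial `f (·, c)` -/
private noncomputable def sliceL {I J : Type} (c : J → K) (f : MvPolynomial (I ⊕ J) K) :
    MvPolynomial I K :=
  aeval (Sum.elim X fun j => C (c j)) f

/-- the polynomial `f (s, ·)` -/
private noncomputable def sliceR {I J : Type} (s : I → K) (f : MvPolynomial (I ⊕ J) K) :
    MvPolynomial J K :=
  aeval (Sum.elim (fun i => C (s i)) X) f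

private theorem pr_comp {I J : Type} (g : I → MvPolynomial J K) (s : J → K)
    (f : MvPolynomial I K) : eval s (aeval g f) = eval (fun i => eval s (g i)) f := by
  have h : (eval s).comp (aeval g : MvPolynomial I K →ₐ[K] MvPolynomial J K).toRingHom =
      eval (fun i => eval s (g i)) := by
    apply MvPolynomial.ringHom_ext
    · intro r
      simp [MvPolynomial.algebraMap_eq]
    · intro i
      simp
  exact RingHom.congr_fun h f

private theorem eval_sliceL {I J : Type} (s : I → K) (c : J → K) (f : MvPolynomial (I ⊕ J) K) :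
    eval s (sliceL c f) = eval (Sum.elim s c) f := by
  unfold sliceL
  rw [pr_comp]
  congr 2
  funext i
  rcases i with i | i
  · simp
  · simp

private theorem eval_sliceR {I J : Type} (s : I → K) (c : J → K) (f : MvPolynomial (I ⊕ J) K) :
    eval c (sliceR s f) = eval (Sum.elim s c) f := by
  unfold sliceR
  rw [pr_comp]
  congr 2
  funext i
  rcases i with i | i
  · simp
  · simp

private theorem pr_ul_nonempty {C : Set (β → Kˣ)} (hC : UL.IrrClosed C) : C.Nonempty := by
  by_contra hem
  rw [Set.not_nonempty_iff_eq_empty] at hem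
  apply hC.1.ne_top
  rw [Ideal.eq_top_iff_one, UL.mem_vanIdeal]
  intro z hz
  rw [hem] at hz
  exact absurd hz (Set.notMem_empty z)

private theorem co_mk (s : α → K) (c : β → Kˣ) :
    co ((s, c) : Pt K α β) = Sum.elim s fun j => (c j : K) := rfl

private theorem rename_inl_mem {T : Set (α → K)} {C : Set (β → Kˣ)} {f : MvPolynomial α K}
    (hf : f ∈ avan T) : rename Sum.inl f ∈ vanIdeal {p : Pt K α β | p.1 ∈ T ∧ p.2 ∈ C} := by
  intro z hz
  rw [eval_rename]
  exact hf z.1 hz.1

private theorem rename_inr_mem {T : Set (α → K)} {C : Set (β → Kˣ)} {f : MvPolynomial β K}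
    (hf : f ∈ UL.vanIdeal C) :
    rename Sum.inr f ∈ vanIdeal {p : Pt K α β | p.1 ∈ T ∧ p.2 ∈ C} := by
  intro z hz
  rw [eval_rename]
  exact hf z.2 hz.2

theorem prod_irr {T : Set (α → K)} (hT : AIrr T) {C : Set (β → Kˣ)} (hC : UL.IrrClosed C) :
    IrrClosed {p : Pt K α β | p.1 ∈ T ∧ p.2 ∈ C} := by
  obtain ⟨s0, hs0⟩ := hT.nonempty
  obtain ⟨c0, hc0⟩ := pr_ul_nonempty hC
  refine ⟨⟨?_, ?_⟩, ?_⟩
  · intro htop
    rw [Ideal.eq_top_iff_one] at htop
    have h1 := htop (s0, c0) ⟨hs0, hc0⟩
    rw [map_one] at h1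
    exact one_ne_zero h1
  · intro f g hfg
    by_contra hcon
    push Not at hcon
    obtain ⟨hf, hg⟩ := hcon
    rw [mem_vanIdeal] at hf hg
    push Not at hf hg
    obtain ⟨⟨s1, c1⟩, ⟨hs1, hc1⟩, h1⟩ := hf
    obtain ⟨⟨s2, c2⟩, ⟨hs2, hc2⟩, h2⟩ := hg
    rw [co_mk, ← eval_sliceR] at h1 h2
    have k1 : sliceR s1 f ∉ UL.vanIdeal C := fun h => h1 (h c1 hc1)
    have k2 : sliceR s2 g ∉ UL.vanIdeal C := fun h => h2 (h c2 hc2)
    have k3 : sliceR s1 f * sliceR s2 g ∉ UL.vanIdeal C := by
      intro h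
      rcases hC.1.mem_or_mem h with h | h
      · exact k1 h
      · exact k2 h
    rw [UL.mem_vanIdeal] at k3
    push Not at k3
    obtain ⟨c, hc, h3⟩ := k3
    rw [map_mul, eval_sliceR, eval_sliceR] at h3
    have h4 := left_ne_zero_of_mul h3
    have h5 := right_ne_zero_of_mul h3
    rw [← eval_sliceL] at h4 h5
    have l1 : sliceL (fun j => (c j : K)) f ∉ avan T := fun h => h4 (h s1 hs1)
    have l2 : sliceL (fun j => (c j : K)) g ∉ avan T := fun h => h5 (h s2 hs2)
    have l3 : sliceL (fun j => (c j : K)) f * sliceL (fun j => (c j : K)) g ∉ avan T := by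
      intro h
      rcases hT.1.mem_or_mem h with h | h
      · exact l1 h
      · exact l2 h
    apply l3
    intro s hs
    rw [map_mul, eval_sliceL, eval_sliceL, ← map_mul]
    exact hfg (s, c) ⟨hs, hc⟩
  · intro x hx
    constructor
    · apply hT.2
      intro f hf
      have h := hx _ (rename_inl_mem (C := C) hf)
      rw [eval_rename] at h
      exact h
    · apply hC.2
      intro f hf
      have h := hx _ (rename_inr_mem (T := T) hf)
      rw [eval_rename] at h
      exact h

private theorem pr_coeff {I J : Type} (c : J → K) (p : MvPolynomial (I ⊕ J) K) :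
    map (eval c) (sumAlgEquiv K I J p) = sliceL c p := by
  have h : ((map (eval c) : MvPolynomial I (MvPolynomial J K) →+* MvPolynomial I K).comp
      (sumAlgEquiv K I J : MvPolynomial (I ⊕ J) K →ₐ[K] MvPolynomial I (MvPolynomial J K)).toRingHom)
      = (aeval (Sum.elim X fun j => C (c j)) :
        MvPolynomial (I ⊕ J) K →ₐ[K] MvPolynomial I K).toRingHom := by
    apply MvPolynomial.ringHom_ext
    · intro r
      simp [MvPolynomial.algebraMap_eq]
    · intro i
      rcases i with i | i
      · simp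
      · simp
  exact RingHom.congr_fun h p

/-- the two parts of a generic point of the product -/
private theorem pr_generic {T : Set (α → K)} (hT : AIrr T) {C : Set (β → Kˣ)}
    (hC : UL.IrrClosed C) {L : Type} [Field L] [Algebra K L] (γ : Pt L α β)
    (hγ : aloc K (co γ) = vanIdeal {p : Pt K α β | p.1 ∈ T ∧ p.2 ∈ C}) :
    aloc K γ.1 = avan T ∧ UL.locus K γ.2 = UL.vanIdeal C := by
  obtain ⟨s0, hs0⟩ := hT.nonempty
  obtain ⟨c0, hc0⟩ := pr_ul_nonempty hC
  constructor
  · ext f
    have h1 : f ∈ aloc K γ.1 ↔ rename Sum.inl f ∈ aloc K (co γ) := by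
      rw [mem_aloc, mem_aloc, aeval_rename]
      rfl
    rw [h1, hγ]
    constructor
    · intro h s hs
      have h2 := h (s, c0) ⟨hs, hc0⟩
      rw [eval_rename] at h2
      exact h2
    · exact rename_inl_mem
  · ext f
    have h1 : f ∈ UL.locus K γ.2 ↔ rename Sum.inr f ∈ aloc K (co γ) := by
      rw [UL.mem_locus, mem_aloc, aeval_rename]
      rfl
    rw [h1, hγ]
    constructor
    · intro h c hc
      have h2 := h (s0, c) ⟨hs0, hc⟩
      rw [eval_rename] at h2
      exact h2
    · exact rename_inr_mem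

/-- independence of the two parts -/
private theorem pr_indep {T : Set (α → K)} (hT : AIrr T) {C : Set (β → Kˣ)}
    (hC : UL.IrrClosed C) {L : Type} [Field L] [Algebra K L] (γ : Pt L α β)
    (hγ : aloc K (co γ) = vanIdeal {p : Pt K α β | p.1 ∈ T ∧ p.2 ∈ C})
    (I : Finset α) (J : Finset β) (hI : AlgebraicIndependent K fun i : I => γ.1 i)
    (hJ : AlgebraicIndependent K fun j : J => (γ.2 j : L)) :
    AlgebraicIndependent K
      (Sum.elim (fun i : I => γ.1 i) (fun j : J => (γ.2 j : L)) : I ⊕ J → L) := by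
  obtain ⟨g1, g2⟩ := pr_generic hT hC γ hγ
  rw [algebraicIndependent_iff] at hI hJ ⊢
  intro p hp
  -- the polynomial vanishes on the product
  have h1 : rename (Sum.map Subtype.val Subtype.val : I ⊕ J → α ⊕ β) p ∈
      vanIdeal {p : Pt K α β | p.1 ∈ T ∧ p.2 ∈ C} := by
    rw [← hγ, mem_aloc, aeval_rename]
    have e : (co γ ∘ (Sum.map Subtype.val Subtype.val : I ⊕ J → α ⊕ β)) =
        Sum.elim (fun i : I => γ.1 i) (fun j : J => (γ.2 j : L)) := by
      funext i
      rcases i with i | i
      · rfl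
      · rfl
    rw [e]
    exact hp
  have h2 : ∀ s ∈ T, ∀ c ∈ C,
      eval (Sum.elim (fun i : I => s i) (fun j : J => (c j : K))) p = 0 := by
    intro s hs c hc
    have h3 := h1 (s, c) ⟨hs, hc⟩
    rw [eval_rename] at h3
    have e : (co ((s, c) : Pt K α β) ∘ (Sum.map Subtype.val Subtype.val : I ⊕ J → α ⊕ β)) =
        Sum.elim (fun i : I => s i) (fun j : J => (c j : K)) := by
      funext i
      rcases i with i | i
      · rfl
      · rfl
    rw [e] at h3
    exact h3
  -- the slices are zero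
  have h3 : ∀ c ∈ C, sliceL (fun j : J => (c j : K)) p = 0 := by
    intro c hc
    apply hI
    have h4 : rename (Subtype.val : I → α) (sliceL (fun j : J => (c j : K)) p) ∈ avan T := by
      intro s hs
      rw [eval_rename]
      have := eval_sliceL (fun i : I => s i) (fun j : J => (c j : K)) p
      rw [h2 s hs c hc] at this
      exact this
    rw [← g1, mem_aloc, aeval_rename] at h4
    exact h4
  -- the coefficients are zero
  have h5 : sumAlgEquiv K I J p = 0 := by
    ext1 m
    rw [coeff_zero]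
    apply hJ
    have h6 : rename (Subtype.val : J → β) (coeff m (sumAlgEquiv K I J p)) ∈ UL.vanIdeal C := by
      intro c hc
      rw [eval_rename]
      have h7 := congrArg (coeff m) (pr_coeff (fun j : J => (c j : K)) p)
      rw [h3 c hc, coeff_map, coeff_zero] at h7
      exact h7
    rw [← g2, UL.mem_locus, aeval_rename] at h6
    exact h6
  exact (map_eq_zero_iff _ (sumAlgEquiv K I J).injective).mp h5

theorem prod_zdim [Fintype α] [Fintype β] {T : Set (α → K)} (hT : AIrr T) {C : Set (β → Kˣ)}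
    (hC : UL.IrrClosed C) {L : Type} [Field L] [Algebra K L] (q : α → L) (hq : aloc K q = avan T)
    {L' : Type} [Field L'] [Algebra K L'] (c : β → L'ˣ) (hc : UL.locus K c = UL.vanIdeal C) :
    zdim {p : Pt K α β | p.1 ∈ T ∧ p.2 ∈ C} = ((atd K q + UL.td K c : ℕ) : WithBot ℕ∞) := by
  obtain ⟨M, _, _, γ, hγ⟩ := exists_generic _ (prod_irr hT hC)
  obtain ⟨g1, g2⟩ := pr_generic hT hC γ hγ
  rw [zdim_eq _ γ hγ]
  congr 1
  have e1 : atd K q = atd K γ.1 := atd_congr γ.1 q (by rw [hq, g1])
  have e2 : UL.td K c = atd K (fun j => (γ.2 j : M)) := by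
    rw [ul_td]
    exact atd_congr (fun j => (γ.2 j : M)) (fun j => (c j : L')) (by
      rw [← ul_locus, ← ul_locus, hc, g2])
  rw [e1, e2]
  obtain ⟨I, hI, hIc, hIa⟩ := atd_spec (K := K) γ.1
  obtain ⟨J, hJ, hJc, hJa⟩ := atd_spec (K := K) (fun j => (γ.2 j : M))
  have hcard : Fintype.card (I ⊕ J) = atd K γ.1 + atd K (fun j => (γ.2 j : M)) := by
    rw [Fintype.card_sum, Fintype.card_coe, Fintype.card_coe, hIc, hJc]
  rw [← hcard]
  apply le_antisymm
  · refine atd_le_card_of_algebraic (co γ)
      (Sum.elim (fun i : I => γ.1 i) (fun j : J => (γ.2 j : M)) : I ⊕ J → M) ?_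
    intro i
    rcases i with i | i
    · refine isAlgebraic_adjoin_trans ?_ (hIa i)
      rintro _ ⟨a, ha, rfl⟩
      exact isAlgebraic_algebraMap (⟨γ.1 a, Algebra.subset_adjoin ⟨Sum.inl ⟨a, ha⟩, rfl⟩⟩ :
        Algebra.adjoin K (Set.range
          (Sum.elim (fun i : I => γ.1 i) (fun j : J => (γ.2 j : M)) : I ⊕ J → M)))
    · refine isAlgebraic_adjoin_trans ?_ (hJa i)
      rintro _ ⟨a, ha, rfl⟩
      exact isAlgebraic_algebraMap (⟨(γ.2 a : M), Algebra.subset_adjoin ⟨Sum.inr ⟨a, ha⟩, rfl⟩⟩ :
        Algebra.adjoin K (Set.range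
          (Sum.elim (fun i : I => γ.1 i) (fun j : J => (γ.2 j : M)) : I ⊕ J → M)))
  · refine le_atd (co γ)
      (Sum.elim (fun i : I => γ.1 i) (fun j : J => (γ.2 j : M)) : I ⊕ J → M)
      (pr_indep hT hC γ hγ I J hI hJ) ?_
    intro j
    rcases j with j | j
    · exact isAlgebraic_algebraMap (⟨γ.1 j, Algebra.subset_adjoin ⟨Sum.inl j, rfl⟩⟩ :
        Algebra.adjoin K (Set.range fun i => co γ i))
    · exact isAlgebraic_algebraMap (⟨(γ.2 j : M), Algebra.subset_adjoin ⟨Sum.inr j, rfl⟩⟩ :
        Algebra.adjoin K (Set.range fun i => co γ i))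

end prod

end Pool.Agent.Lib.MP_a325a5_ag.UM
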