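import Pool.Agent.Lib.MP_a325a5_ag.UM.KD
import Pool.Agent.Lib.MP_a325a5_ag.UM.LocSet

/-! Noether normalisations: the affine coordinates of a point of `T` are algebraic over the values
of the normalisation, and the dimension of `T` is the number of its elements. -/

set_option autoImplicit false

namespace Pool.Agent.Lib.MP_a325a5_ag.UM

open MvPolynomial

/-- Evaluation at a point of `T` as a map on the coordinate ring. -/
private noncomputable def noeEv {k L : Type} [Field k] [Field L] [Algebra k L] {α : Type}
    (T : Set (α → k)) (s : α → L) (hs : avan T ≤ aloc k s) :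
    (MvPolynomial α k ⧸ avan T) →ₐ[k] L :=
  Ideal.Quotient.liftₐ (avan T) (aeval s) fun _ hf => mem_aloc.mp (hs hf)

private theorem noeEv_mk {k L : Type} [Field k] [Field L] [Algebra k L] {α : Type}
    (T : Set (α → k)) (s : α → L) (hs : avan T ≤ aloc k s) (f : MvPolynomial α k) :
    noeEv T s hs (Ideal.Quotient.mk (avan T) f) = aeval s f := rfl

/-- The affine coordinates are integral over the values of the Noether normalisation. -/
theorem NoetherNorm.isIntegral {k L : Type} [Field k] [Field L] [Algebra k L] {α : Type} {a : ℕ}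
    {T : Set (α → k)} {φ : Fin a → MvPolynomial α k} (hφ : NoetherNorm T φ) (s : α → L)
    (hs : avan T ≤ aloc k s) (j : α) :
    IsIntegral (Algebra.adjoin k (Set.range fun i => aeval s (φ i))) (s j) := by
  have h1 := hφ.2 (Ideal.Quotient.mk (avan T) (X j))
  set A := Algebra.adjoin k (Set.range fun i => Ideal.Quotient.mk (avan T) (φ i)) with hA
  have hmem : ∀ x : A, noeEv T s hs (x : MvPolynomial α k ⧸ avan T) ∈
      Algebra.adjoin k (Set.range fun i => aeval s (φ i)) := by
    rintro ⟨x, hx⟩
    have h2 : A.map (noeEv T s hs) = Algebra.adjoin k (Set.range fun i => aeval s (φ i)) := by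
      rw [hA, AlgHom.map_adjoin, ← Set.range_comp]
      congr 2
    rw [← h2]
    exact ⟨x, hx, rfl⟩
  let g : A →ₐ[k] Algebra.adjoin k (Set.range fun i => aeval s (φ i)) :=
    ((noeEv T s hs).comp A.val).codRestrict _ hmem
  have h3 := h1.map_of_comp_eq g.toRingHom (noeEv T s hs).toRingHom (by
    ext x
    rfl)
  have h4 : (noeEv T s hs).toRingHom (Ideal.Quotient.mk (avan T) (X j)) = s j := by
    change noeEv T s hs (Ideal.Quotient.mk (avan T) (X j)) = s j
    rw [noeEv_mk, aeval_X]
  rw [h4] at h3
  exact h3

/-- The affine coordinates are algebraic over the values of the Noether normalisation. -/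
theorem NoetherNorm.isAlgebraic {k L : Type} [Field k] [Field L] [Algebra k L] {α : Type} {a : ℕ}
    {T : Set (α → k)} {φ : Fin a → MvPolynomial α k} (hφ : NoetherNorm T φ) (s : α → L)
    (hs : avan T ≤ aloc k s) (j : α) :
    IsAlgebraic (Algebra.adjoin k (Set.range fun i => aeval s (φ i))) (s j) :=
  (hφ.isIntegral s hs j).isAlgebraic

/-- The values of the Noether normalisation at a generic point are algebraically independent. -/
theorem NoetherNorm.algebraicIndependent {k L : Type} [Field k] [Field L] [Algebra k L]
    {α : Type} {a : ℕ} {T : Set (α → k)} {φ : Fin a → MvPolynomial α k} (hφ : NoetherNorm T φ)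
    (s : α → L) (hs : aloc k s = avan T) :
    AlgebraicIndependent k fun i => aeval s (φ i) := by
  have hinj : Function.Injective (noeEv T s hs.ge) := by
    rw [injective_iff_map_eq_zero]
    intro x hx
    obtain ⟨f, rfl⟩ := Ideal.Quotient.mk_surjective x
    rw [noeEv_mk] at hx
    rw [Ideal.Quotient.eq_zero_iff_mem, ← hs]
    exact mem_aloc.mpr hx
  have h1 := hφ.1.map' hinj
  have h2 : (⇑(noeEv T s hs.ge) ∘ fun i => Ideal.Quotient.mk (avan T) (φ i)) =
      fun i => aeval s (φ i) := funext fun i => noeEv_mk T s hs.ge (φ i)
  rw [h2] at h1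
  exact h1

/-- The transcendence degree of a generic point is the number of elements of a Noether
normalisation. -/
theorem NoetherNorm.atd_eq {k L : Type} [Field k] [Field L] [Algebra k L] {α : Type} [Fintype α]
    {a : ℕ} {T : Set (α → k)} {φ : Fin a → MvPolynomial α k} (hφ : NoetherNorm T φ)
    (s : α → L) (hs : aloc k s = avan T) : atd k s = a := by
  apply le_antisymm
  · have h := atd_le_card_of_algebraic s (fun i => aeval s (φ i))
      (fun j => hφ.isAlgebraic s hs.ge j)
    simpa using h
  · have h := le_atd s (fun i => aeval s (φ i)) (hφ.algebraicIndependent s hs) (fun i => by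
      have hmem : aeval s (φ i) ∈ Algebra.adjoin k (Set.range fun j => s j) := by
        rw [Algebra.adjoin_range_eq_range_aeval]
        exact ⟨φ i, rfl⟩
      exact isAlgebraic_algebraMap
        (⟨aeval s (φ i), hmem⟩ : Algebra.adjoin k (Set.range fun j => s j)))
    simpa using h

/-- The dimension of `T` is the number of elements of a Noether normalisation. -/
theorem dm_of_noetherNorm {k : Type} [Field k] {α : Type} [Fintype α] {T : Set (α → k)}
    (hT : AIrr T) {a : ℕ} {φ : Fin a → MvPolynomial α k} (hφ : NoetherNorm T φ) : dm T = a := by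
  obtain ⟨L, _, _, q, hq⟩ := exists_ageneric T hT
  rw [dm, ← hq, krullDim_aloc, hφ.atd_eq q hq]
  rfl

end Pool.Agent.Lib.MP_a325a5_ag.UM
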