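import Pool.Agent.Lib.MP_a325a5_ag.UM.MskMr
import Pool.Agent.Lib.MP_a325a5_ag.UM.RatTd
import Pool.Agent.Lib.MP_a325a5_ag.UM.Noe
import Pool.Agent.Lib.MP_a325a5_ag.UM.LocSet
import Pool.Agent.Lib.MP_a325a5_ag.UM.TDloc
import Pool.Agent.Lib.MP_a325a5_ag.UL.Line

/-! The variety `V_T × ℓ^D`.

The generic point: `q` a generic point of `T` over `M`, then the variables `x_e` (`e ∈ D`), `v_i`,
`u_i` are adjoined one family after the other. Adjoining variables gives the most generic point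
(`vg_ratFun`), so the ideal of the generic point is contained in the ideal of every point which
satisfies the equations. -/

set_option autoImplicit false

namespace Pool.Agent.Lib.MP_a325a5_ag.UM

open MvPolynomial UL

/-! ### Ideals of points -/

section

variable {k L E : Type} [Field k] [Field L] [Algebra k L] [Field E] [Algebra k E]

/-- images under polynomial maps -/
private theorem vg_comp {μ ν : Type} (P : ν → MvPolynomial μ k) (x : μ → L) (y : μ → E)
    (h : aloc k x ≤ aloc k y) :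
    aloc k (fun i => aeval x (P i)) ≤ aloc k (fun i => aeval y (P i)) := by
  intro f hf
  have key : ∀ {M : Type} [Field M] [Algebra k M] (z : μ → M),
      aeval (fun i => aeval z (P i)) f = aeval z (bind₁ P f) := by
    intro M _ _ z
    exact (aeval_bind₁ z P f).symm
  rw [mem_aloc, key] at hf ⊢
  exact mem_aloc.mp (h (mem_aloc.mpr hf))

/-- the polynomials in two families of variables as polynomials over polynomials -/
private noncomputable def vgF (k : Type) [Field k] (μ U : Type) :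
    MvPolynomial (μ ⊕ U) k →ₐ[k] MvPolynomial U (MvPolynomial μ k) :=
  aeval (Sum.elim (fun j => C (X j)) (fun u => X u))

private theorem vgF_eval {μ U : Type} (x : μ → L) (t : U → L) (f : MvPolynomial (μ ⊕ U) k) :
    aeval (Sum.elim x t) f =
      eval t (map ((aeval x : MvPolynomial μ k →ₐ[k] L) : MvPolynomial μ k →+* L)
        (vgF k μ U f)) := by
  induction f using MvPolynomial.induction_on with
  | C c =>
    rw [← MvPolynomial.algebraMap_eq, AlgHom.commutes, AlgHom.commutes]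
    have h1 : (algebraMap k (MvPolynomial U (MvPolynomial μ k)) c) = C (C c) := rfl
    rw [h1, map_C, eval_C]
    exact (algHom_C (aeval x) c).symm
  | add p q hp hq => rw [map_add, map_add, map_add, map_add, hp, hq]
  | mul_X p i hp =>
    rw [map_mul, map_mul, map_mul, map_mul, hp, aeval_X]
    congr 1
    unfold vgF
    rw [aeval_X]
    rcases i with i | i
    · rw [Sum.elim_inl, Sum.elim_inl, map_C, eval_C]
      exact (aeval_X x i).symm
    · rw [Sum.elim_inr, Sum.elim_inr, map_X, eval_X]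

/-- Adjoining independent variables gives the most generic point. -/
private theorem vg_ratFun {μ U : Type} (x : μ → L) (x' : μ → E) (t : U → E)
    (h : aloc k x ≤ aloc k x') :
    aloc k (Sum.elim (fun j => rcst U (x j)) (fun u : U => rvar L u)) ≤
      aloc k (Sum.elim x' t) := by
  intro f hf
  rw [mem_aloc] at hf ⊢
  have h1 : map ((aeval x : MvPolynomial μ k →ₐ[k] L) : MvPolynomial μ k →+* L)
      (vgF k μ U f) = 0 := by
    have h2 : aeval (Sum.elim (fun j => rcst U (x j)) (fun u : U => rvar L u)) f =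
        algebraMap (MvPolynomial U L) (RatFun U L)
          (map ((aeval x : MvPolynomial μ k →ₐ[k] L) : MvPolynomial μ k →+* L)
            (vgF k μ U f)) := by
      clear hf
      induction f using MvPolynomial.induction_on with
      | C c =>
        rw [← MvPolynomial.algebraMap_eq, AlgHom.commutes, AlgHom.commutes]
        have h1 : (algebraMap k (MvPolynomial U (MvPolynomial μ k)) c) = C (C c) := rfl
        rw [h1, map_C]
        have h3 : ((aeval x : MvPolynomial μ k →ₐ[k] L) : MvPolynomial μ k →+* L) (C c) =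
            algebraMap k L c := algHom_C (aeval x) c
        rw [h3]
        rfl
      | add p q hp hq => rw [map_add, map_add, map_add, map_add, hp, hq]
      | mul_X p i hp =>
        rw [map_mul, map_mul, map_mul, map_mul, hp, aeval_X]
        congr 1
        unfold vgF
        rw [aeval_X]
        rcases i with i | i
        · rw [Sum.elim_inl, Sum.elim_inl, map_C]
          have h3 : ((aeval x : MvPolynomial μ k →ₐ[k] L) : MvPolynomial μ k →+* L) (X i) =
              x i := aeval_X x i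
          rw [h3]
          rfl
        · rw [Sum.elim_inr, Sum.elim_inr, map_X]
          rfl
    rw [h2, map_eq_zero_iff _ (IsFractionRing.injective (MvPolynomial U L) (RatFun U L))] at hf
    exact hf
  have h2 : map ((aeval x' : MvPolynomial μ k →ₐ[k] E) : MvPolynomial μ k →+* E)
      (vgF k μ U f) = 0 := by
    ext m
    rw [coeff_map, coeff_zero]
    have h3 := congrArg (coeff m) h1
    rw [coeff_map, coeff_zero] at h3
    exact mem_aloc.mp (h (mem_aloc.mpr h3))
  rw [vgF_eval, h2, map_zero]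

/-- constants -/
private theorem vg_cst {μ : Type} (U : Type) (x : μ → L) :
    aloc k (fun j => rcst U (x j)) = aloc k x := by
  ext f
  rw [mem_aloc, mem_aloc]
  have h1 : aeval (fun j => rcst U (x j)) f = algebraMap L (RatFun U L) (aeval x f) := by
    have h2 := MvPolynomial.comp_aeval_apply x (IsScalarTower.toAlgHom k L (RatFun U L)) f
    exact h2.symm
  rw [h1, map_eq_zero_iff _ (algebraMap L (RatFun U L)).injective]

end

/-! ### The generic point -/

section

variable {k : Type} [Field k] {α : Type}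

/-- The polynomial map `(s, x, v, u) ↦ (s; u, v, u + v + φ(s); x, 1 - x)`. -/
private noncomputable def vgP {a : ℕ} (φ : Fin a → MvPolynomial α k) (D : Type) :
    α ⊕ ((Fin 3 × Fin a) ⊕ (D ⊕ D)) → MvPolynomial (((α ⊕ D) ⊕ Fin a) ⊕ Fin a) k :=
  Sum.elim (fun i => X (Sum.inl (Sum.inl (Sum.inl i))))
    (Sum.elim (fun ji => ![fun i => X (Sum.inr i), fun i => X (Sum.inl (Sum.inr i)),
        fun i => X (Sum.inr i) + X (Sum.inl (Sum.inr i)) +
          rename (fun j => Sum.inl (Sum.inl (Sum.inl j))) (φ i)] ji.1 ji.2)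
      (Sum.elim (fun e => X (Sum.inl (Sum.inl (Sum.inr e))))
        (fun e => 1 - X (Sum.inl (Sum.inl (Sum.inr e))))))

private theorem vgP_co {E : Type} [Field E] [Algebra k E] {a : ℕ} (φ : Fin a → MvPolynomial α k)
    {D : Type} (p : Pt E α ((Fin 3 × Fin a) ⊕ (D ⊕ D)))
    (hw : ∀ i, (p.2 (Sum.inl (2, i)) : E) =
      p.2 (Sum.inl (0, i)) + p.2 (Sum.inl (1, i)) + aeval p.1 (φ i))
    (hx : ∀ e, (p.2 (Sum.inr (Sum.inl e)) : E) + p.2 (Sum.inr (Sum.inr e)) = 1) :
    co p = fun j => aeval (Sum.elim (Sum.elim (Sum.elim p.1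
      (fun e => (p.2 (Sum.inr (Sum.inl e)) : E))) (fun i => (p.2 (Sum.inl (1, i)) : E)))
        (fun i => (p.2 (Sum.inl (0, i)) : E))) (vgP φ D j) := by
  funext j
  rcases j with j | ⟨r, i⟩ | e | e
  · simp [vgP]
  · fin_cases r
    · simp [vgP]
    · simp [vgP]
    · have h1 := hw i
      change (p.2 (Sum.inl (2, i)) : E) = aeval _ (X (Sum.inr i) + X (Sum.inl (Sum.inr i)) +
          rename (fun j => Sum.inl (Sum.inl (Sum.inl j))) (φ i))
      rw [h1, map_add, map_add, aeval_X, aeval_X, aeval_rename]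
      rfl
  · simp [vgP]
  · have h1 := hx e
    change (p.2 (Sum.inr (Sum.inr e)) : E) = aeval _ (1 - X (Sum.inl (Sum.inl (Sum.inr e))))
    rw [map_sub, map_one, aeval_X]
    exact eq_sub_of_add_eq' h1

/-- The generic point of the product of lines. -/
private theorem vg_line (M : Type) [Field M] [Infinite M] (D : Type) [Fintype D] :
    ∃ ℓ : D ⊕ D → (RatFun D M)ˣ, (∀ e, (ℓ (Sum.inl e) : RatFun D M) = rvar M e) ∧
      (∀ e, (ℓ (Sum.inr e) : RatFun D M) = 1 - rvar M e) ∧ mr ℓ = 2 * Fintype.card D := by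
  have h1 : ∀ e : D, rvar M e ≠ 0 := by
    intro e
    have h := rvar_add_rcst_ne_zero (E := M) e 0
    rwa [rcst, map_zero, map_zero, add_zero] at h
  have h2 : ∀ e : D, 1 - rvar M e ≠ 0 := by
    intro e
    have h := rvar_add_rcst_ne_zero (E := M) e (-1)
    intro h0
    apply h
    rw [rcst, map_neg, map_neg, map_one, map_one, ← sub_eq_add_neg, sub_eq_zero]
    exact (sub_eq_zero.mp h0).symm
  let ℓ : D ⊕ D → (RatFun D M)ˣ :=
    Sum.elim (fun e => Units.mk0 (rvar M e) (h1 e)) (fun e => Units.mk0 (1 - rvar M e) (h2 e))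
  refine ⟨ℓ, fun e => rfl, fun e => rfl, ?_⟩
  obtain ⟨γ, hγ1, hγ2, hγ3⟩ := line_generic M D
  have hle : locus M γ ≤ locus M ℓ := by
    rw [hγ1, line_le_locus]
    intro e
    change rvar M e + (1 - rvar M e) = 1
    ring
  have hind : AlgebraicIndependent M (fun e : D => rvar M e) := by
    have h3 : (aeval (fun i : D => rvar M i) : MvPolynomial D M →ₐ[M] RatFun D M) =
        IsScalarTower.toAlgHom M (MvPolynomial D M) (RatFun D M) := by
      apply MvPolynomial.algHom_ext
      intro i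
      rw [aeval_X]
      rfl
    rw [algebraicIndependent_iff_injective_aeval, h3]
    exact IsFractionRing.injective (MvPolynomial D M) (RatFun D M)
  have htd : td M γ ≤ td M ℓ := by
    rw [hγ2]
    apply le_td ℓ (fun e : D => rvar M e) hind
    intro e
    have hmem : rvar M e ∈ Algebra.adjoin M (Set.range fun i => (ℓ i : RatFun D M)) :=
      Algebra.subset_adjoin ⟨Sum.inl e, rfl⟩
    exact isAlgebraic_algebraMap
      (⟨_, hmem⟩ : Algebra.adjoin M (Set.range fun i => (ℓ i : RatFun D M)))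
  have h3 := mr_eq_of_locus_eq ℓ γ (locus_eq_of_td_le ℓ γ hle htd)
  rw [← hγ3, h3]

/-- The transcendence degree of a generic point of `T`. -/
private theorem vg_atd [Fintype α] {M : Type} [Field M] [Algebra k M] {T : Set (α → k)} {a : ℕ}
    {φ : Fin a → MvPolynomial α k} (hφ : NoetherNorm T φ) (q : α → M)
    (hq : aloc k q = avan T) : atd k q = a := by
  apply le_antisymm
  · have h := atd_le_card_of_algebraic (K := k) q (fun i => aeval q (φ i))
      (fun j => hφ.isAlgebraic q hq.ge j)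
    rwa [Fintype.card_fin] at h
  · have hind : AlgebraicIndependent k (fun i => aeval q (φ i)) := by
      let ψ : MvPolynomial α k ⧸ avan T →ₐ[k] M :=
        Ideal.Quotient.liftₐ (avan T) (aeval q) (fun f hf => mem_aloc.mp (hq.ge hf))
      have hψ : ∀ f : MvPolynomial α k, ψ (Ideal.Quotient.mk (avan T) f) = aeval q f :=
        fun f => rfl
      have hinj : Function.Injective ψ := by
        rw [injective_iff_map_eq_zero]
        intro r hr
        obtain ⟨f, rfl⟩ := Ideal.Quotient.mk_surjective r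
        rw [hψ] at hr
        exact Ideal.Quotient.eq_zero_iff_mem.mpr (hq.le (mem_aloc.mpr hr))
      have h1 := hφ.1.map' hinj
      have h2 : (ψ ∘ fun i => Ideal.Quotient.mk (avan T) (φ i)) = fun i => aeval q (φ i) := by
        funext i
        exact hψ (φ i)
      rw [h2] at h1
      exact h1
    have h := le_atd (K := k) q (fun i => aeval q (φ i)) hind (fun j => by
      have hmem : aeval q (φ j) ∈ Algebra.adjoin k (Set.range fun i => q i) := by
        rw [Algebra.adjoin_range_eq_range_aeval]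
        exact ⟨φ j, rfl⟩
      exact isAlgebraic_algebraMap (⟨_, hmem⟩ : Algebra.adjoin k (Set.range fun i => q i)))
    rwa [Fintype.card_fin] at h

/-- the generic point `(s; u, v, u + v + φ(s); x, 1 - x)` -/
private theorem vg_core [Fintype α] {T : Set (α → k)}
    {a : ℕ} (φ : Fin a → MvPolynomial α k) (hφ : NoetherNorm T φ) (D : Type) [Fintype D]
    {M : Type} [Field M] [Algebra k M] (q : α → M) (hq : aloc k q = avan T)
    (ℓ : D ⊕ D → (RatFun D M)ˣ) (hℓ1 : ∀ e, (ℓ (Sum.inl e) : RatFun D M) = rvar M e)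
    (hℓ2 : ∀ e, (ℓ (Sum.inr e) : RatFun D M) = 1 - rvar M e)
    (γ : Pt (MF a (RatFun D M)) α ((Fin 3 × Fin a) ⊕ (D ⊕ D)))
    (hγ : γ = (fun j => mcst a (rcst D (q j)), msk φ (fun j => rcst D (q j)) ℓ)) :
    aloc k γ.1 = avan T ∧ atd k (co γ) = 3 * a + Fintype.card D ∧
      (∀ i, (γ.2 (Sum.inl (2, i)) : MF a (RatFun D M)) =
        γ.2 (Sum.inl (0, i)) + γ.2 (Sum.inl (1, i)) + aeval γ.1 (φ i)) ∧
      (∀ e, (γ.2 (Sum.inr (Sum.inl e)) : MF a (RatFun D M)) + γ.2 (Sum.inr (Sum.inr e)) = 1) ∧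
      ∀ (E : Type) [Field E] [Algebra k E] (p : Pt E α ((Fin 3 × Fin a) ⊕ (D ⊕ D))),
        avan T ≤ aloc k p.1 →
        (∀ i, (p.2 (Sum.inl (2, i)) : E) =
          p.2 (Sum.inl (0, i)) + p.2 (Sum.inl (1, i)) + aeval p.1 (φ i)) →
        (∀ e, (p.2 (Sum.inr (Sum.inl e)) : E) + p.2 (Sum.inr (Sum.inr e)) = 1) →
        aloc k (co γ) ≤ aloc k (co p) := by
  let s : α → RatFun D M := fun j => rcst D (q j)
  have h1' : γ.1 = fun j => mcst a (s j) := congrArg Prod.fst hγ
  have h2' : γ.2 = msk φ s ℓ := congrArg Prod.snd hγ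
  clear hγ
  have hs : aloc k γ.1 = avan T := by
    rw [← hq, h1']
    change aloc k (fun j => rcst (Fin a) (rcst (Fin a) (rcst D (q j)))) = _
    rw [vg_cst (Fin a) (fun j => rcst (Fin a) (rcst D (q j))),
      vg_cst (Fin a) (fun j => rcst D (q j)), vg_cst D q]
  have haev : ∀ f : MvPolynomial α k, aeval γ.1 f = mcst a (aeval s f) := by
    intro f
    rw [h1']
    have h2 := MvPolynomial.comp_aeval_apply s
      (IsScalarTower.toAlgHom k (RatFun D M) (MF a (RatFun D M))) f
    exact h2.symm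
  have hw : ∀ i, (γ.2 (Sum.inl (2, i)) : MF a (RatFun D M)) =
        γ.2 (Sum.inl (0, i)) + γ.2 (Sum.inl (1, i)) + aeval γ.1 (φ i) := by
    intro i
    rw [haev, h2', msk_w, msk_u, msk_v]
  have hx : ∀ e, (γ.2 (Sum.inr (Sum.inl e)) : MF a (RatFun D M)) +
      γ.2 (Sum.inr (Sum.inr e)) = 1 := by
    intro e
    rw [h2', msk_y, msk_y, hℓ1, hℓ2, mcst_eq, mcst_eq, ← map_add, add_sub_cancel, map_one]
  let Y : ((α ⊕ D) ⊕ Fin a) ⊕ Fin a → MF a (RatFun D M) :=
    Sum.elim (fun j => rcst (Fin a) (Sum.elim (fun j => rcst (Fin a)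
      (Sum.elim (fun j => rcst D (q j)) (fun e => rvar M e) j))
        (fun i => rvar (RatFun D M) i) j)) (fun i => rvar (RatFun (Fin a) (RatFun D M)) i)
  have hY : Sum.elim (Sum.elim (Sum.elim γ.1
      (fun e => (γ.2 (Sum.inr (Sum.inl e)) : MF a (RatFun D M))))
        (fun i => (γ.2 (Sum.inl (1, i)) : MF a (RatFun D M))))
        (fun i => (γ.2 (Sum.inl (0, i)) : MF a (RatFun D M))) = Y := by
    rw [h1', h2']
    funext j
    rcases j with ((j | j) | j) | j
    · rfl
    · change (msk φ s ℓ (Sum.inr (Sum.inl j)) : MF a (RatFun D M)) = _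
      rw [msk_y, hℓ1]
      rfl
    · change (msk φ s ℓ (Sum.inl (1, j)) : MF a (RatFun D M)) = _
      rw [msk_v]
      rfl
    · change (msk φ s ℓ (Sum.inl (0, j)) : MF a (RatFun D M)) = _
      rw [msk_u]
      rfl
  have hco : co γ = fun j => aeval Y (vgP φ D j) := by
    rw [← hY]
    exact vgP_co φ γ hw hx
  refine ⟨hs, ?_, hw, hx, ?_⟩
  · have h1 : atd k Y = 3 * a + Fintype.card D := by
      change atd k (Sum.elim (fun j => rcst (Fin a) (Sum.elim (fun j => rcst (Fin a)
        (Sum.elim (fun j => rcst D (q j)) (fun e => rvar M e) j))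
          (fun i => rvar (RatFun D M) i) j)) (fun i => rvar (RatFun (Fin a) (RatFun D M)) i)) = _
      rw [atd_ratFun, atd_ratFun, atd_ratFun, vg_atd hφ q hq, Fintype.card_fin]
      ring
    rw [← h1]
    apply le_antisymm
    · apply atd_le_of_algebraic
      intro j
      rw [hco]
      have hmem : aeval Y (vgP φ D j) ∈ Algebra.adjoin k (Set.range fun i => Y i) := by
        rw [Algebra.adjoin_range_eq_range_aeval]
        exact ⟨vgP φ D j, rfl⟩
      exact isAlgebraic_algebraMap (⟨_, hmem⟩ : Algebra.adjoin k (Set.range fun i => Y i))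
    · apply atd_le_of_algebraic
      intro j
      have hmem : Y j ∈ Algebra.adjoin k (Set.range fun i => co γ i) := by
        rw [← hY]
        rcases j with ((j | j) | j) | j
        · exact Algebra.subset_adjoin ⟨Sum.inl j, rfl⟩
        · exact Algebra.subset_adjoin ⟨Sum.inr (Sum.inr (Sum.inl j)), rfl⟩
        · exact Algebra.subset_adjoin ⟨Sum.inr (Sum.inl (1, j)), rfl⟩
        · exact Algebra.subset_adjoin ⟨Sum.inr (Sum.inl (0, j)), rfl⟩
      exact isAlgebraic_algebraMap (⟨_, hmem⟩ : Algebra.adjoin k (Set.range fun i => co γ i))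
  · intro E _ _ p hp hpw hpx
    rw [hco, vgP_co φ p hpw hpx]
    apply vg_comp
    apply vg_ratFun
    apply vg_ratFun
    apply vg_ratFun
    rw [hq]
    exact hp

private theorem vg_main [IsAlgClosed k] [Fintype α] {T : Set (α → k)} (hT : AIrr T)
    {a : ℕ} (φ : Fin a → MvPolynomial α k) (hφ : NoetherNorm T φ) (D : Type) [Fintype D] :
    ∃ (L : Type) (_ : Field L) (_ : Algebra k L) (γ : Pt L α ((Fin 3 × Fin a) ⊕ (D ⊕ D))),
      aloc k γ.1 = avan T ∧ atd k (co γ) = 3 * a + Fintype.card D ∧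
      mr γ.2 = 3 * a + 2 * Fintype.card D ∧
      (∀ i, (γ.2 (Sum.inl (2, i)) : L) =
        γ.2 (Sum.inl (0, i)) + γ.2 (Sum.inl (1, i)) + aeval γ.1 (φ i)) ∧
      (∀ e, (γ.2 (Sum.inr (Sum.inl e)) : L) + γ.2 (Sum.inr (Sum.inr e)) = 1) ∧
      ∀ (E : Type) [Field E] [Algebra k E] (p : Pt E α ((Fin 3 × Fin a) ⊕ (D ⊕ D))),
        avan T ≤ aloc k p.1 →
        (∀ i, (p.2 (Sum.inl (2, i)) : E) =
          p.2 (Sum.inl (0, i)) + p.2 (Sum.inl (1, i)) + aeval p.1 (φ i)) →
        (∀ e, (p.2 (Sum.inr (Sum.inl e)) : E) + p.2 (Sum.inr (Sum.inr e)) = 1) →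
        aloc k (co γ) ≤ aloc k (co p) := by
  obtain ⟨M, i1, i2, q, hq⟩ := exists_ageneric T hT
  let := i1
  let := i2
  have hM : Infinite M := Infinite.of_injective _ (algebraMap k M).injective
  obtain ⟨ℓ, hℓ1, hℓ2, hℓ3⟩ := vg_line M D
  obtain ⟨e1, e2, e3, e4, e5⟩ := vg_core φ hφ D q hq ℓ hℓ1 hℓ2 _ rfl
  refine ⟨MF a (RatFun D M), inferInstance, inferInstance, _, e1, e2, ?_, e3, e4, e5⟩
  change mr (msk φ (fun j => rcst D (q j)) ℓ) = _
  rw [mr_msk, hℓ3]

end

/-! ### The variety -/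

section

variable {k : Type} [Field k] [IsAlgClosed k] {α : Type} [Fintype α] {T : Set (α → k)} {a : ℕ}

omit [IsAlgClosed k] [Fintype α] in
/-- the equations of the variety hold at the specialisations of points satisfying them -/
private theorem vg_eqs (φ : Fin a → MvPolynomial α k) {D : Type} [Fintype D] {L E : Type}
    [Field L] [Algebra k L] [Field E] [Algebra k E]
    (γ : Pt L α ((Fin 3 × Fin a) ⊕ (D ⊕ D))) (p : Pt E α ((Fin 3 × Fin a) ⊕ (D ⊕ D)))
    (h : aloc k (co γ) ≤ aloc k (co p)) (hs : avan T ≤ aloc k γ.1)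
    (hw : ∀ i, (γ.2 (Sum.inl (2, i)) : L) =
        γ.2 (Sum.inl (0, i)) + γ.2 (Sum.inl (1, i)) + aeval γ.1 (φ i))
    (hx : ∀ e, (γ.2 (Sum.inr (Sum.inl e)) : L) + γ.2 (Sum.inr (Sum.inr e)) = 1) :
    avan T ≤ aloc k p.1 ∧
      (∀ i, (p.2 (Sum.inl (2, i)) : E) =
        p.2 (Sum.inl (0, i)) + p.2 (Sum.inl (1, i)) + aeval p.1 (φ i)) ∧
      ∀ e, (p.2 (Sum.inr (Sum.inl e)) : E) + p.2 (Sum.inr (Sum.inr e)) = 1 := by
  refine ⟨hs.trans (aloc_fst_le p γ h), fun i => ?_, fun e => ?_⟩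
  · have key : ∀ {F : Type} [Field F] [Algebra k F] (z : Pt F α ((Fin 3 × Fin a) ⊕ (D ⊕ D))),
        aeval (co z) (X (Sum.inr (Sum.inl (2, i))) - (X (Sum.inr (Sum.inl (0, i))) +
          X (Sum.inr (Sum.inl (1, i))) + rename Sum.inl (φ i)) :
            MvPolynomial (α ⊕ ((Fin 3 × Fin a) ⊕ (D ⊕ D))) k) =
          (z.2 (Sum.inl (2, i)) : F) - (z.2 (Sum.inl (0, i)) + z.2 (Sum.inl (1, i)) +
            aeval z.1 (φ i)) := by
      intro F _ _ z
      rw [map_sub, map_add, map_add, aeval_X, aeval_X, aeval_X, aeval_rename]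
      rfl
    have h1 := mem_aloc.mp (h (mem_aloc.mpr ((key γ).trans (sub_eq_zero.mpr (hw i)))))
    rw [key] at h1
    exact sub_eq_zero.mp h1
  · have key : ∀ {F : Type} [Field F] [Algebra k F] (z : Pt F α ((Fin 3 × Fin a) ⊕ (D ⊕ D))),
        aeval (co z) (X (Sum.inr (Sum.inr (Sum.inl e))) + X (Sum.inr (Sum.inr (Sum.inr e))) - 1 :
            MvPolynomial (α ⊕ ((Fin 3 × Fin a) ⊕ (D ⊕ D))) k) =
          (z.2 (Sum.inr (Sum.inl e)) : F) + z.2 (Sum.inr (Sum.inr e)) - 1 := by
      intro F _ _ z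
      rw [map_sub, map_add, map_one, aeval_X, aeval_X]
      rfl
    have h1 := mem_aloc.mp (h (mem_aloc.mpr ((key γ).trans (sub_eq_zero.mpr (hx e)))))
    rw [key] at h1
    exact sub_eq_zero.mp h1

/-- the variety is the set of the specialisations of the generic point -/
private theorem vg_VT (hT : AIrr T) (φ : Fin a → MvPolynomial α k) {D : Type} [Fintype D]
    {L : Type} [Field L] [Algebra k L] (γ : Pt L α ((Fin 3 × Fin a) ⊕ (D ⊕ D)))
    (hs : aloc k γ.1 = avan T)
    (hw : ∀ i, (γ.2 (Sum.inl (2, i)) : L) =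
        γ.2 (Sum.inl (0, i)) + γ.2 (Sum.inl (1, i)) + aeval γ.1 (φ i))
    (hx : ∀ e, (γ.2 (Sum.inr (Sum.inl e)) : L) + γ.2 (Sum.inr (Sum.inr e)) = 1)
    (hg : ∀ (E : Type) [Field E] [Algebra k E] (p : Pt E α ((Fin 3 × Fin a) ⊕ (D ⊕ D))),
        avan T ≤ aloc k p.1 →
        (∀ i, (p.2 (Sum.inl (2, i)) : E) =
          p.2 (Sum.inl (0, i)) + p.2 (Sum.inl (1, i)) + aeval p.1 (φ i)) →
        (∀ e, (p.2 (Sum.inr (Sum.inl e)) : E) + p.2 (Sum.inr (Sum.inr e)) = 1) →
        aloc k (co γ) ≤ aloc k (co p)) :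
    IrrClosed (VT T φ D) ∧ vanIdeal (VT T φ D) = aloc k (co γ) := by
  obtain ⟨Z, hZ, hZγ⟩ := exists_irrClosed (K := k) γ
  have hev : ∀ (p : α → k) (f : MvPolynomial α k), aeval p f = eval p f := by
    intro p f
    rw [← MvPolynomial.coe_aeval_eq_eval]
    rfl
  have h1 : Z = VT T φ D := by
    ext p
    rw [mem_iff_le_aloc hZ, hZγ]
    constructor
    · intro h
      obtain ⟨e1, e2, e3⟩ := vg_eqs (T := T) φ γ p h hs.ge hw hx
      refine ⟨(amem_iff_le_aloc hT _).mpr e1, fun i => ?_, e3⟩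
      rw [← hev]
      exact e2 i
    · rintro ⟨e1, e2, e3⟩
      refine hg k p ((amem_iff_le_aloc hT _).mp e1) (fun i => ?_) e3
      rw [hev]
      exact e2 i
  rw [← h1]
  exact ⟨hZ, hZγ⟩

theorem VT_generic [CharZero k] (hT : AIrr T) (φ : Fin a → MvPolynomial α k)
    (hφ : NoetherNorm T φ) (D : Type) [Fintype D] :
    ∃ (L : Type) (_ : Field L) (_ : Algebra k L) (γ : Pt L α ((Fin 3 × Fin a) ⊕ (D ⊕ D))),
      aloc k (co γ) = vanIdeal (VT T φ D) ∧ aloc k γ.1 = avan T ∧
      atd k (co γ) = 3 * a + Fintype.card D ∧ mr γ.2 = 3 * a + 2 * Fintype.card D := by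
  obtain ⟨L, i1, i2, γ, h1, h2, h3, h4, h5, h6⟩ := vg_main hT φ hφ D
  exact ⟨L, i1, i2, γ, (vg_VT hT φ γ h1 h4 h5 h6).2.symm, h1, h2, h3⟩

theorem VT_irrClosed [CharZero k] (hT : AIrr T) (φ : Fin a → MvPolynomial α k)
    (hφ : NoetherNorm T φ) (D : Type) [Fintype D] : IrrClosed (VT T φ D) := by
  obtain ⟨L, i1, i2, γ, h1, h2, h3, h4, h5, h6⟩ := vg_main hT φ hφ D
  exact (vg_VT hT φ γ h1 h4 h5 h6).1

/-- The explicit generic point of `V_T × ℓ^D`. -/
theorem VT_point (hT : AIrr T) (φ : Fin a → MvPolynomial α k)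
    (hφ : NoetherNorm T φ) (D : Type) [Fintype D] {M : Type} [Field M] [Algebra k M] (q : α → M)
    (hq : aloc k q = avan T) (ℓ : D ⊕ D → (RatFun D M)ˣ)
    (hℓ1 : ∀ e, (ℓ (Sum.inl e) : RatFun D M) = rvar M e)
    (hℓ2 : ∀ e, (ℓ (Sum.inr e) : RatFun D M) = 1 - rvar M e) :
    aloc k (co ((fun j => mcst a (rcst D (q j)), msk φ (fun j => rcst D (q j)) ℓ) :
      Pt (MF a (RatFun D M)) α ((Fin 3 × Fin a) ⊕ (D ⊕ D)))) = vanIdeal (VT T φ D) := by
  obtain ⟨e1, e2, e3, e4, e5⟩ := vg_core φ hφ D q hq ℓ hℓ1 hℓ2 _ rfl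
  exact (vg_VT hT φ _ e1 e3 e4 e5).2.symm

theorem VT_le_aloc [CharZero k] {L : Type} [Field L] [Algebra k L] (hT : AIrr T)
    (φ : Fin a → MvPolynomial α k) (hφ : NoetherNorm T φ) (D : Type) [Fintype D]
    (p : Pt L α ((Fin 3 × Fin a) ⊕ (D ⊕ D))) :
    vanIdeal (VT T φ D) ≤ aloc k (co p) ↔ avan T ≤ aloc k p.1 ∧
      (∀ i, (p.2 (Sum.inl (2, i)) : L) =
        p.2 (Sum.inl (0, i)) + p.2 (Sum.inl (1, i)) + aeval p.1 (φ i)) ∧
      ∀ e, (p.2 (Sum.inr (Sum.inl e)) : L) + p.2 (Sum.inr (Sum.inr e)) = 1 := by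
  obtain ⟨L', i1, i2, γ, h1, h2, h3, h4, h5, h6⟩ := vg_main hT φ hφ D
  rw [(vg_VT hT φ γ h1 h4 h5 h6).2]
  constructor
  · intro h
    exact vg_eqs (T := T) φ γ p h h1.ge h4 h5
  · rintro ⟨e1, e2, e3⟩
    exact h6 L p e1 e2 e3

end

end Pool.Agent.Lib.MP_a325a5_ag.UM
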