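import Pool.Agent.Lib.MP_a325a5_ag.UM.CfgPt
import Pool.Agent.Lib.MP_a325a5_ag.UM.TDloc
import Pool.Agent.Lib.MP_a325a5_ag.UM.Noe
import Pool.Agent.Lib.MP_a325a5_ag.UM.VGen
import Pool.Agent.Lib.MP_a325a5_ag.UL.Gen

/-! The point `cfgPt`: its rank and transcendence degree are those of the generic configuration, and
it lies on `V_T × ℓ^D`. -/

set_option autoImplicit false

namespace Pool.Agent.Lib.MP_a325a5_ag.UM

open MvPolynomial UL

/-! ### The constants -/

/-- The constants as an algebra homomorphism. -/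
private noncomputable def cl_rho (k E U : Type) [Field k] [Field E] [Algebra k E] :
    E →ₐ[k] RatFun U E :=
  { toRingHom := (algebraMap (MvPolynomial U E) (RatFun U E)).comp C
    commutes' := by
      intro r
      rw [IsScalarTower.algebraMap_apply k (MvPolynomial U E) (RatFun U E)]
      rfl }

private theorem cl_rho_apply (k E U : Type) [Field k] [Field E] [Algebra k E] (c : E) :
    cl_rho k E U c = rcst U c := rfl

private theorem cl_rcst_add {U E : Type} [Field E] (a b : E) :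
    rcst U (a + b) = rcst U a + rcst U b := map_add (cl_rho E E U) a b

private theorem cl_aeval {k E U α : Type} [Field k] [Field E] [Algebra k E] (s : α → E)
    (f : MvPolynomial α k) : aeval (fun i => rcst U (s i)) f = rcst U (aeval s f) := by
  rw [← cl_rho_apply k E U (aeval s f), ← AlgHom.comp_apply]
  congr 1
  ext i
  rw [aeval_X, AlgHom.comp_apply, aeval_X, cl_rho_apply]

private theorem cl_le_aloc {k E U α : Type} [Field k] [Field E] [Algebra k E] (s : α → E) :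
    aloc k s ≤ aloc k (fun i => rcst U (s i)) := by
  intro f hf
  rw [mem_aloc] at hf ⊢
  rw [cl_aeval, hf]
  exact map_zero (cl_rho E E U)

/-! ### The base point of a configuration is a function of the numerators -/

private theorem cl_y {J A : Type} [Fintype J] {S : Sys J} [CommRing A] (v : Config S A) (i : J) :
    v.y i = v.pt (Sum.inr (Sum.inl (Sum.inr i))) /
      (v.pt (Sum.inl (Sum.inl (Sum.inr i))) * v.pt (Sum.inr (Sum.inl (Sum.inl i)))) := by
  have e1 : v.pt (Sum.inr (Sum.inl (Sum.inr i))) = v.y i / v.a 2 i := rfl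
  have e2 : v.pt (Sum.inl (Sum.inl (Sum.inr i))) = v.a 1 i / v.a 2 i := rfl
  have e3 : v.pt (Sum.inr (Sum.inl (Sum.inl i))) = 1 / v.a 1 i := rfl
  rw [e1, e2, e3, div_mul_div_comm, mul_one, div_div_div_eq, mul_comm (v.a 2 i) (v.a 1 i),
    mul_div_cancel_right]

theorem mr_cfgPt {κ I α : Type} [Fintype κ] [Fintype I] (S : Sys (κ ⊕ I)) {E : Type} [Field E]
    (s : α → E) (y : κ ⊕ I → Eˣ) (hy : ∀ b, S.rel y b = 0) :
    mr (cfgPt S s y hy).2 = mr (genConfig S y hy).pt := by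
  set v := genConfig S y hy with hv
  have e : (cfgPt S s y hy).2 = Sum.elim (fun i => v.y (Sum.inl i)) v.pt := rfl
  rw [e]
  apply le_antisymm
  · apply mr_le_of_pow_mem
    rintro (i | j)
    · refine ⟨1, one_pos, ?_⟩
      rw [pow_one, Sum.elim_inl, cl_y v (Sum.inl i)]
      exact div_mem (Subgroup.subset_closure ⟨_, rfl⟩)
        (mul_mem (Subgroup.subset_closure ⟨_, rfl⟩) (Subgroup.subset_closure ⟨_, rfl⟩))
    · exact ⟨1, one_pos, by rw [pow_one]; exact Subgroup.subset_closure ⟨j, rfl⟩⟩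
  · apply mr_le_of_pow_mem
    intro j
    exact ⟨1, one_pos, by rw [pow_one]; exact Subgroup.subset_closure ⟨Sum.inr j, rfl⟩⟩

theorem atd_cfgPt {I α : Type} [Fintype I] [Fintype α] {a : ℕ} (S : Sys ((Fin 3 × Fin a) ⊕ I))
    {k E : Type} [Field k] [Field E] [Algebra k E] {T : Set (α → k)}
    {φ : Fin a → MvPolynomial α k} (hφ : NoetherNorm T φ) (s : α → E) (hs : avan T ≤ aloc k s)
    (y : (Fin 3 × Fin a) ⊕ I → Eˣ) (hy : ∀ b, S.rel y b = 0)
    (hw : ∀ i, (y (Sum.inl (2, i)) : E) =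
      y (Sum.inl (0, i)) + y (Sum.inl (1, i)) + aeval s (φ i)) :
    atd k (co (cfgPt S s y hy)) = td k (genConfig S y hy).pt := by
  set v := genConfig S y hy with hv
  have hvy : ∀ i, ((v.y i : (RatFun (((Fin 3 × Fin a) ⊕ I) ⊕ S.B) E)ˣ) :
      RatFun (((Fin 3 × Fin a) ⊕ I) ⊕ S.B) E) = rcst _ (y i : E) := fun i => genConfig_y S y hy i
  rw [ul_td]
  apply le_antisymm
  · apply atd_le_of_algebraic
    set A := Algebra.adjoin k (Set.range fun j => ((v.pt j :
      (RatFun (((Fin 3 × Fin a) ⊕ I) ⊕ S.B) E)ˣ) : RatFun (((Fin 3 × Fin a) ⊕ I) ⊕ S.B) E)) with hA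
    have hpt : ∀ j, IsAlgebraic A ((v.pt j : (RatFun (((Fin 3 × Fin a) ⊕ I) ⊕ S.B) E)ˣ) :
        RatFun (((Fin 3 × Fin a) ⊕ I) ⊕ S.B) E) := by
      intro j
      exact isAlgebraic_algebraMap (⟨_, Algebra.subset_adjoin ⟨j, rfl⟩⟩ : A)
    have hyy : ∀ i, IsAlgebraic A ((v.y i : (RatFun (((Fin 3 × Fin a) ⊕ I) ⊕ S.B) E)ˣ) :
        RatFun (((Fin 3 × Fin a) ⊕ I) ⊕ S.B) E) := by
      intro i
      rw [cl_y v i, div_eq_mul_inv, Units.val_mul, Units.val_inv_eq_inv_val, Units.val_mul]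
      exact (hpt _).mul ((hpt _).mul (hpt _)).inv
    rintro (j | i | j)
    · change IsAlgebraic A (rcst (((Fin 3 × Fin a) ⊕ I) ⊕ S.B) (s j))
      have h1 := hφ.isAlgebraic (fun i => rcst (((Fin 3 × Fin a) ⊕ I) ⊕ S.B) (s i))
        (hs.trans (cl_le_aloc s)) j
      refine isAlgebraic_adjoin_trans ?_ h1
      rintro _ ⟨i, rfl⟩
      change IsAlgebraic A (aeval (fun i => rcst (((Fin 3 × Fin a) ⊕ I) ⊕ S.B) (s i)) (φ i))
      have h2 : aeval (fun i => rcst (((Fin 3 × Fin a) ⊕ I) ⊕ S.B) (s i)) (φ i) =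
          ((v.y (Sum.inl (2, i)) : (RatFun (((Fin 3 × Fin a) ⊕ I) ⊕ S.B) E)ˣ) :
            RatFun (((Fin 3 × Fin a) ⊕ I) ⊕ S.B) E) - v.y (Sum.inl (0, i)) -
            v.y (Sum.inl (1, i)) := by
        rw [cl_aeval, hvy, hvy, hvy, hw i, cl_rcst_add, cl_rcst_add]
        ring
      rw [h2]
      exact ((hyy _).sub (hyy _)).sub (hyy _)
    · exact hyy (Sum.inl i)
    · exact hpt j
  · apply atd_le_of_algebraic
    intro j
    exact isAlgebraic_algebraMap (⟨_, Algebra.subset_adjoin ⟨Sum.inr (Sum.inr j), rfl⟩⟩ :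
      Algebra.adjoin k (Set.range fun j => co (cfgPt S s y hy) j))

theorem cfgPt_mem {I α : Type} [Fintype I] [Fintype α] {a : ℕ} (S : Sys ((Fin 3 × Fin a) ⊕ I))
    {k E : Type} [Field k] [IsAlgClosed k] [CharZero k] [Field E] [Algebra k E] {T : Set (α → k)}
    (hT : AIrr T) {φ : Fin a → MvPolynomial α k} (hφ : NoetherNorm T φ) (s : α → E)
    (hs : avan T ≤ aloc k s) (y : (Fin 3 × Fin a) ⊕ I → Eˣ) (hy : ∀ b, S.rel y b = 0)
    (hw : ∀ i, (y (Sum.inl (2, i)) : E) =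
      y (Sum.inl (0, i)) + y (Sum.inl (1, i)) + aeval s (φ i)) :
    vanIdeal (VT T φ S.D) ≤ aloc k (co (cfgPt S s y hy)) := by
  rw [VT_le_aloc hT φ hφ]
  refine ⟨hs.trans (cl_le_aloc s), ?_, fun e => (genConfig S y hy).pt_add e⟩
  intro i
  change (((genConfig S y hy).y (Sum.inl (2, i)) :
    (RatFun (((Fin 3 × Fin a) ⊕ I) ⊕ S.B) E)ˣ) : RatFun (((Fin 3 × Fin a) ⊕ I) ⊕ S.B) E) =
    (genConfig S y hy).y (Sum.inl (0, i)) + (genConfig S y hy).y (Sum.inl (1, i)) +
      aeval (fun i => rcst (((Fin 3 × Fin a) ⊕ I) ⊕ S.B) (s i)) (φ i)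
  rw [genConfig_y, genConfig_y, genConfig_y, cl_aeval, hw i, cl_rcst_add, cl_rcst_add]

end Pool.Agent.Lib.MP_a325a5_ag.UM
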