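import Pool.Agent.Lib.MP_a325a5_ag.UM.TDloc
import Pool.Agent.Lib.MP_a325a5_ag.UL.TypA
import Pool.Agent.Lib.MP_a325a5_ag.UL.DimThm

/-! The key inequality for points of `𝔸^α × 𝔾_m^β`: isolated points have small defect. The proof is
the one of `UL.typical`, with affine coordinates added: only the relations of the torus part are used. -/

namespace Pool.Agent.Lib.MP_a325a5_ag.UM

open MvPolynomial

section

variable {K : Type} [Field K] {ι : Type} [Fintype ι]

/-- the binomial of an exponent vector -/
private noncomputable def typBin (K : Type) [Field K] (α : Type) {ι : Type} [Fintype ι]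
    (h : ι → ℤ) : MvPolynomial (α ⊕ ι) K :=
  ∏ i, X (Sum.inr i) ^ (h i).toNat - ∏ i, X (Sum.inr i) ^ (-h i).toNat

private theorem typ_prod_split {M : Type} [CommGroup M] (p : ι → M) (h : ι → ℤ) :
    ∏ i, p i ^ h i = (∏ i, p i ^ (h i).toNat) / ∏ i, p i ^ (-h i).toNat := by
  rw [← Finset.prod_div_distrib]
  refine Finset.prod_congr rfl fun i _ => ?_
  rw [← zpow_natCast, ← zpow_natCast, div_eq_mul_inv, ← zpow_sub]
  congr 1
  omega

private theorem typ_bin_mem {L : Type} [Field L] [Algebra K L] {α : Type} (p : Pt L α ι)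
    (h : ι → ℤ) : typBin K α h ∈ aloc K (co p) ↔ ∏ i, p.2 i ^ h i = 1 := by
  rw [mem_aloc, typBin, typ_prod_split, div_eq_one, map_sub, map_prod, map_prod, sub_eq_zero]
  simp only [map_pow, aeval_X, co_inr]
  constructor
  · intro hh
    apply Units.ext
    push_cast
    exact hh
  · intro hh
    have := congrArg (fun u : Lˣ => (u : L)) hh
    push_cast at this
    exact this

omit [Fintype ι] in
private theorem typ_aeval_comp {R S : Type} [CommRing R] [CommRing S] [Algebra K R] [Algebra K S]
    (φ : R →ₐ[K] S) {n : ℕ} (z : Fin n → R) (f : MvPolynomial (Fin n) K) :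
    aeval (fun k => φ (z k)) f = φ (aeval z f) := by
  have h : (aeval (fun k => φ (z k)) : MvPolynomial (Fin n) K →ₐ[K] S) = φ.comp (aeval z) := by
    apply MvPolynomial.algHom_ext
    intro i
    rw [aeval_X, AlgHom.comp_apply, aeval_X]
  rw [h, AlgHom.comp_apply]

omit [Fintype ι] in
private theorem typ_indep_quot {R S : Type} [CommRing R] [CommRing S] [Algebra K R] [Algebra K S]
    (P : Ideal R) (ψ : R →ₐ[K] S) (hψ : ∀ r, ψ r = 0 → r ∈ P) {n : ℕ} (z : Fin n → R)
    (hz : AlgebraicIndependent K (fun i => Ideal.Quotient.mk P (z i))) :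
    AlgebraicIndependent K (fun k => ψ (z k)) := by
  rw [algebraicIndependent_iff] at hz ⊢
  intro f hf
  apply hz f
  rw [typ_aeval_comp] at hf
  have e2 := hψ _ hf
  have e3 : aeval (fun k => Ideal.Quotient.mk P (z k)) f = Ideal.Quotient.mk P (aeval z f) :=
    typ_aeval_comp (Ideal.Quotient.mkₐ K P) z f
  rw [e3, Ideal.Quotient.eq_zero_iff_mem]
  exact e2

omit [Fintype ι] in
/-- every prime containing no torus variable is the ideal of a point -/
private theorem typ_exists_point {α : Type} (Q : Ideal (MvPolynomial (α ⊕ ι) K)) [hQ : Q.IsPrime]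
    (hX : ∀ i : ι, (X (Sum.inr i) : MvPolynomial (α ⊕ ι) K) ∉ Q) :
    ∃ (L' : Type) (_ : Field L') (_ : Algebra K L') (τ' : Pt L' α ι), aloc K (co τ') = Q := by
  classical
  let B := MvPolynomial (α ⊕ ι) K ⧸ Q
  let L' := FractionRing B
  have hinj : Function.Injective (algebraMap B L') := IsFractionRing.injective B L'
  have hne : ∀ i : ι, algebraMap B L' (Ideal.Quotient.mk Q (X (Sum.inr i))) ≠ 0 := by
    intro i h0
    apply hX i
    rw [← Ideal.Quotient.eq_zero_iff_mem]
    apply hinj
    rw [h0, map_zero]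
  refine ⟨L', inferInstance, inferInstance,
    (fun i => algebraMap B L' (Ideal.Quotient.mk Q (X (Sum.inl i))),
      fun i => Units.mk0 _ (hne i)), ?_⟩
  ext f
  rw [mem_aloc]
  have key : aeval (co ((fun i => algebraMap B L' (Ideal.Quotient.mk Q (X (Sum.inl i))),
      fun i => Units.mk0 _ (hne i)) : Pt L' α ι)) f =
      algebraMap B L' (Ideal.Quotient.mk Q f) := by
    have h1 : (aeval (co ((fun i => algebraMap B L' (Ideal.Quotient.mk Q (X (Sum.inl i))),
        fun i => Units.mk0 _ (hne i)) : Pt L' α ι)) : MvPolynomial (α ⊕ ι) K →ₐ[K] L') =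
        (IsScalarTower.toAlgHom K B L').comp (Ideal.Quotient.mkₐ K Q) := by
      apply MvPolynomial.algHom_ext
      intro i
      rw [aeval_X]
      rcases i with i | i <;> rfl
    rw [h1]
    rfl
  rw [key, map_eq_zero_iff _ hinj, Ideal.Quotient.eq_zero_iff_mem]

end

theorem typical {K L L₁ : Type} [Field K] [IsAlgClosed K] [CharZero K] [Field L] [Algebra K L]
    [Field L₁] [Algebra K L₁] {α β : Type} [Fintype α] [Fintype β] (γ : Pt L₁ α β) (τ : Pt L α β)
    (hspec : aloc K (co γ) ≤ aloc K (co τ))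
    (hiso : ∀ (L' : Type) [Field L'] [Algebra K L'] (τ' : Pt L' α β),
      aloc K (co γ) ≤ aloc K (co τ') → aloc K (co τ') ≤ aloc K (co τ) →
      (∀ (a : β → ℤ) (ζ : Kˣ), IsOfFinOrder ζ → ∏ i, τ.2 i ^ a i = UL.cst K L ζ →
        ∏ i, τ'.2 i ^ a i = UL.cst K L' ζ) → atd K (co τ') ≤ atd K (co τ)) :
    UL.mr τ.2 + atd K (co γ) ≤ UL.mr γ.2 + atd K (co τ) := by
  classical
  obtain ⟨g, h, hg, h1, h2⟩ := UL.exists_kernel_basis γ.2 τ.2 (locus_snd_le τ γ hspec)
  set A := MvPolynomial (α ⊕ β) K
  set I : Ideal A := aloc K (co γ) with hI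
  set J : Ideal A := aloc K (co τ) with hJ
  haveI : I.IsPrime := aloc_isPrime K (co γ)
  haveI : J.IsPrime := aloc_isPrime K (co τ)
  let R := A ⧸ I
  let mkI : A →+* R := Ideal.Quotient.mk I
  have hsurj : Function.Surjective mkI := Ideal.Quotient.mk_surjective
  let P : Ideal R := J.map mkI
  have hker : RingHom.ker mkI = I := Ideal.mk_ker
  have hP : P.IsPrime := Ideal.map_isPrime_of_surjective hsurj (by rw [hker]; exact hspec)
  have hPcomap : P.comap mkI = J := by
    rw [Ideal.comap_map_of_surjective mkI hsurj]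
    rw [← RingHom.ker_eq_comap_bot, hker]
    exact sup_eq_left.mpr hspec
  let b : Fin g → A := fun j => typBin K α (h j)
  let a : Fin g → R := fun j => mkI (b j)
  have hbJ : ∀ j, b j ∈ J := fun j => (typ_bin_mem τ (h j)).mpr (h1 j)
  have hmin : P ∈ (Ideal.span (Set.range a)).minimalPrimes := by
    refine ⟨⟨hP, ?_⟩, ?_⟩
    · rw [Ideal.span_le]
      rintro _ ⟨j, rfl⟩
      exact Ideal.mem_map_of_mem mkI (hbJ j)
    · rintro P' ⟨hP', hsp⟩ hle
      haveI := hP'
      let Q : Ideal A := P'.comap mkI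
      haveI hQ : Q.IsPrime := Ideal.comap_isPrime mkI P'
      have hIQ : I ≤ Q := by
        rw [← hker]
        intro x hx
        rw [Ideal.mem_comap, (RingHom.mem_ker).mp hx]
        exact zero_mem _
      have hQJ : Q ≤ J := by
        rw [← hPcomap]
        exact Ideal.comap_mono hle
      have hXQ : ∀ i : β, (X (Sum.inr i) : A) ∉ Q := by
        intro i hi
        have h3 := hQJ hi
        rw [hJ, mem_aloc, aeval_X, co_inr] at h3
        exact (τ.2 i).ne_zero h3
      obtain ⟨L', i1, i2, τ', hτ'⟩ := typ_exists_point Q hXQ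
      letI := i1
      letI := i2
      have hb' : ∀ j, ∏ i, τ'.2 i ^ h j i = 1 := by
        intro j
        rw [← typ_bin_mem (K := K) (α := α), hτ']
        exact hsp (Ideal.subset_span ⟨j, rfl⟩)
      have hγτ' : aloc K (co γ) ≤ aloc K (co τ') := by rw [hτ']; exact hIQ
      have hτ'τ : aloc K (co τ') ≤ aloc K (co τ) := by rw [hτ']; exact hQJ
      have hγτ2 : UL.locus K γ.2 ≤ UL.locus K τ'.2 := locus_snd_le τ' γ hγτ'
      have hτ'τ2 : UL.locus K τ'.2 ≤ UL.locus K τ.2 := locus_snd_le τ τ' hτ'τ
      have htd : atd K (co τ') ≤ atd K (co τ) := by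
        refine hiso L' τ' hγτ' hτ'τ ?_
        intro c ζ hζ hc
        obtain ⟨M, hM0, hM⟩ := isOfFinOrder_iff_pow_eq_one.mp hζ
        have h3 : ∏ i, τ.2 i ^ ((M : ℤ) * c i) = 1 := by
          have : ∏ i, τ.2 i ^ ((M : ℤ) * c i) = (∏ i, τ.2 i ^ c i) ^ M := by
            rw [← Finset.prod_pow]
            refine Finset.prod_congr rfl fun i _ => ?_
            rw [mul_comm, zpow_mul, zpow_natCast]
          rw [this, hc, ← map_pow, hM, map_one]
        obtain ⟨n, hn⟩ := h2 (fun i => (M : ℤ) * c i) h3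
        have hexp : ∀ {G : Type} [CommGroup G] (p : β → G),
            ∏ i, p i ^ ((M : ℤ) * c i - ∑ j, n j * h j i) =
              (∏ i, p i ^ ((M : ℤ) * c i)) / ∏ j, (∏ i, p i ^ h j i) ^ n j := by
          intro G _ p
          have e1 : ∏ j, (∏ i, p i ^ h j i) ^ n j = ∏ i, p i ^ (∑ j, n j * h j i) := by
            have e2 : ∀ i, p i ^ (∑ j, n j * h j i) = ∏ j, p i ^ (n j * h j i) := by
              intro i
              induction (Finset.univ : Finset (Fin g)) using Finset.induction_on with
              | empty => simp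
              | insert x s hx ih => rw [Finset.sum_insert hx, Finset.prod_insert hx, zpow_add, ih]
            simp_rw [e2]
            rw [Finset.prod_comm]
            refine Finset.prod_congr rfl fun j _ => ?_
            rw [← Finset.prod_zpow]
            refine Finset.prod_congr rfl fun i _ => ?_
            rw [← zpow_mul, mul_comm]
          rw [e1, ← Finset.prod_div_distrib]
          refine Finset.prod_congr rfl fun i _ => ?_
          rw [zpow_sub, div_eq_mul_inv]
        have h4 : ∏ i, γ.2 i ^ ((M : ℤ) * c i - ∑ j, n j * h j i) = 1 := by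
          rw [hexp, hn, div_self']
        have h5 := UL.monomial_spec_one τ'.2 γ.2 hγτ2 _ h4
        rw [hexp] at h5
        have h6 : ∏ j, (∏ i, τ'.2 i ^ h j i) ^ n j = 1 := by
          apply Finset.prod_eq_one
          intro j _
          rw [hb' j, one_zpow]
        rw [h6, div_one] at h5
        have h7 : (∏ i, τ'.2 i ^ c i) ^ M = 1 := by
          rw [← h5, ← Finset.prod_pow]
          refine Finset.prod_congr rfl fun i _ => ?_
          rw [mul_comm, zpow_mul, zpow_natCast]
        obtain ⟨ζ', hζ', hζ'e⟩ := UL.exists_cst_of_isOfFinOrder (K := K) (∏ i, τ'.2 i ^ c i)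
          (isOfFinOrder_iff_pow_eq_one.mpr ⟨M, hM0, h7⟩)
        have h8 := UL.monomial_spec τ.2 τ'.2 hτ'τ2 c ζ' hζ'e.symm
        have h9 : ζ' = ζ := UL.cst_injective (K := K) (L := L) (h8.symm.trans hc)
        rw [← hζ'e, h9]
      have heq : aloc K (co τ') = aloc K (co τ) := aloc_eq_of_atd_le (co τ) (co τ') hτ'τ htd
      have hQJ' : Q = J := by rw [← hτ', heq]
      have h10 : P' = P := by
        have : P'.comap mkI = P.comap mkI := by
          rw [hPcomap]
          exact hQJ'
        exact Ideal.comap_injective_of_surjective mkI hsurj this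
      exact h10.ge
  by_cases hcase : atd K (co γ) ≤ g
  · omega
  · obtain ⟨s, hs⟩ : ∃ s, atd K (co γ) = s + g := ⟨atd K (co γ) - g, by omega⟩
    obtain ⟨J0, hJ0, hcard, -⟩ := atd_spec (K := K) (co γ)
    have hc : Fintype.card J0 = s + g := by
      rw [Fintype.card_coe, hcard, hs]
    let e : Fin (s + g) ≃ J0 := (Fintype.equivFinOfCardEq hc).symm
    let φ : R →ₐ[K] L₁ := Ideal.Quotient.liftₐ I (aeval (co γ)) (fun x hx => mem_aloc.mp hx)
    let y : Fin (s + g) → R := fun k => mkI (X (e k : α ⊕ β))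
    have hy : AlgebraicIndependent K y := by
      apply AlgebraicIndependent.of_comp φ
      have : (φ ∘ y) = (fun j : J0 => co γ j) ∘ e := by
        funext k
        change (aeval (co γ) : A →ₐ[K] L₁) (X (e k : α ⊕ β)) = _
        rw [aeval_X]
        rfl
      rw [this]
      exact hJ0.comp e e.injective
    haveI : Algebra.FiniteType K R := inferInstance
    obtain ⟨z, hz⟩ := UL.exists_indep_of_mem_minimalPrimes y hy a P hmin
    let ψ : R →ₐ[K] L := Ideal.Quotient.liftₐ I (aeval (co τ))
      (fun x hx => mem_aloc.mp (hspec hx))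
    have hψ : ∀ f : A, ψ (mkI f) = aeval (co τ) f := fun f => rfl
    have hψker : ∀ r : R, ψ r = 0 → r ∈ P := by
      intro r hr
      obtain ⟨f, rfl⟩ := hsurj r
      rw [hψ] at hr
      exact Ideal.mem_map_of_mem mkI (mem_aloc.mpr hr)
    have hq : AlgebraicIndependent K (fun k => ψ (z k)) := typ_indep_quot P ψ hψker z hz
    have hfin := le_atd (K := K) (co τ) (fun k => ψ (z k)) hq (by
      intro k
      obtain ⟨f, hf⟩ := hsurj (z k)
      rw [← hf, hψ]
      have hmem : aeval (co τ) f ∈ Algebra.adjoin K (Set.range fun i => co τ i) := by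
        rw [Algebra.adjoin_range_eq_range_aeval]
        exact ⟨f, rfl⟩
      exact isAlgebraic_algebraMap (⟨_, hmem⟩ : Algebra.adjoin K (Set.range fun i => co τ i)))
    rw [Fintype.card_fin] at hfin
    omega

end Pool.Agent.Lib.MP_a325a5_ag.UM
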