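import Pool.Agent.Lib.MP_a325a5_ag.UM.Msk
import Pool.Agent.Lib.MP_a325a5_ag.UL.GenA

/-! The generic configuration over the point `y`, together with the coordinates `y_j`, `j ∈ κ`, and
with the affine point `s`. -/

set_option autoImplicit false

namespace Pool.Agent.Lib.MP_a325a5_ag.UM

open MvPolynomial UL

/-- The point `(s; y_κ, pt)` where `pt` is the generic configuration over `y`. -/
noncomputable def cfgPt {κ I α : Type} [Fintype κ] [Fintype I] (S : Sys (κ ⊕ I)) {E : Type}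
    [Field E] (s : α → E) (y : κ ⊕ I → Eˣ) (hy : ∀ b, S.rel y b = 0) :
    Pt (RatFun ((κ ⊕ I) ⊕ S.B) E) α (κ ⊕ (S.D ⊕ S.D)) :=
  (fun i => rcst ((κ ⊕ I) ⊕ S.B) (s i),
    Sum.elim (fun i => (genConfig S y hy).y (Sum.inl i)) (genConfig S y hy).pt)

end Pool.Agent.Lib.MP_a325a5_ag.UM
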