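import Pool.Agent.Lib.MP_a325a5_ag.UM.Pts

/-! Transcendence degree of a point.

Proof hints.  `atd` is the largest cardinality of a set `J` of coordinates that are algebraically
independent over `K`.  Use `AlgebraicIndependent.matroid K L` or the lemmas of
`Mathlib.RingTheory.AlgebraicIndependent.TranscendenceBasis` (`exists_isTranscendenceBasis_subset`,
`IsTranscendenceBasis.cardinalMk_eq`, `Algebra.IsAlgebraic.trdeg_le_cardinalMk`, ...) applied to the
subalgebra `Algebra.adjoin K (Set.range fun i => (p i : L))` or to the intermediate field. -/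

namespace Pool.Agent.Lib.MP_a325a5_ag.UM

open MvPolynomial

variable {K : Type} [Field K] {L : Type} [Field L] [Algebra K L] {ι κ : Type} [Fintype ι]
  [Fintype κ]

/-- Transitivity of algebraic dependence. -/
theorem isAlgebraic_adjoin_trans {S T : Set L} {a : L}
    (h : ∀ x ∈ S, IsAlgebraic (Algebra.adjoin K T) x) (ha : IsAlgebraic (Algebra.adjoin K S) a) :
    IsAlgebraic (Algebra.adjoin K T) a := by
  have e : ∀ U : Set L, ∀ b : L, b ∈ (AlgebraicIndependent.matroid K L).closure U ↔
      IsAlgebraic (Algebra.adjoin K U) b := by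
    intro U b
    rw [AlgebraicIndependent.matroid_closure_eq]
    exact Iff.rfl
  rw [← e] at ha ⊢
  have hsub : S ⊆ (AlgebraicIndependent.matroid K L).closure T := fun x hx => (e T x).mpr (h x hx)
  exact (AlgebraicIndependent.matroid K L).closure_subset_closure_of_subset_closure hsub ha

/-- An independent family algebraic over a finite family is not larger. -/
theorem card_le_card_of_isAlgebraic {α β : Type} [Fintype α] [Fintype β] (x : α → L) (y : β → L)
    (hx : AlgebraicIndependent K x)
    (h : ∀ a, IsAlgebraic (Algebra.adjoin K (Set.range y)) (x a)) :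
    Fintype.card α ≤ Fintype.card β := by
  have hI : (AlgebraicIndependent.matroid K L).Indep (Set.range x) :=
    AlgebraicIndependent.matroid_indep_iff.mpr hx.to_subtype_range
  have hsub : Set.range x ⊆ (AlgebraicIndependent.matroid K L).closure (Set.range y) := by
    rintro _ ⟨a, rfl⟩
    rw [AlgebraicIndependent.matroid_closure_eq]
    exact h a
  have h1 : (Set.range x).encard ≤ (Set.range y).encard := by
    calc (Set.range x).encard = (AlgebraicIndependent.matroid K L).eRk (Set.range x) :=
          hI.eRk_eq_encard.symm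
      _ ≤ (AlgebraicIndependent.matroid K L).eRk
          ((AlgebraicIndependent.matroid K L).closure (Set.range y)) := Matroid.eRk_mono _ hsub
      _ = (AlgebraicIndependent.matroid K L).eRk (Set.range y) := Matroid.eRk_closure_eq _ _
      _ ≤ (Set.range y).encard := Matroid.eRk_le_encard _ _
  have h2 : (Set.range x).encard = Fintype.card α := by
    rw [← Set.image_univ, hx.injective.encard_image, Set.encard_univ]
    simp
  have h3 : (Set.range y).encard ≤ Fintype.card β := by
    rw [← Set.image_univ]
    refine (Set.encard_image_le _ _).trans ?_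
    rw [Set.encard_univ]
    simp
  rw [h2] at h1
  exact_mod_cast h1.trans h3

/-- A transcendence basis among the coordinates. -/
theorem atd_spec (p : ι → L) :
    ∃ J : Finset ι, AlgebraicIndependent K (fun j : J => ((p j : L) : L)) ∧ J.card = atd K p ∧
      ∀ i, IsAlgebraic (Algebra.adjoin K ((fun j => (p j : L)) '' (J : Set ι))) (p i : L) := by
  classical
  have hne : (Finset.univ.filter fun J : Finset ι =>
      AlgebraicIndependent K fun j : J => ((p j : L) : L)).Nonempty := by
    refine ⟨∅, ?_⟩
    rw [Finset.mem_filter]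
    refine ⟨Finset.mem_univ _, ?_⟩
    rw [algebraicIndependent_empty_type_iff]
    exact (algebraMap K L).injective
  obtain ⟨J, hJ, hJc⟩ := Finset.exists_mem_eq_sup _ hne Finset.card
  rw [Finset.mem_filter] at hJ
  have htd : atd K p = J.card := by
    rw [← hJc]
    rfl
  refine ⟨J, hJ.2, htd.symm, fun i => ?_⟩
  by_contra hi
  have hiJ : i ∉ J := by
    intro h
    exact hi (isAlgebraic_algebraMap
      (⟨(p i : L), Algebra.subset_adjoin ⟨i, h, rfl⟩⟩ :
        Algebra.adjoin K ((fun j => (p j : L)) '' (J : Set ι))))
  have h1 : AlgebraicIndepOn K (fun j => ((p j : L) : L)) (J : Set ι) := hJ.2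
  have h2 : AlgebraicIndepOn K (fun j => ((p j : L) : L)) (insert i (J : Set ι)) :=
    AlgebraicIndepOn.insert h1 hi
  rw [← Finset.coe_insert] at h2
  have h3 : (insert i J) ∈ (Finset.univ.filter fun J : Finset ι =>
      AlgebraicIndependent K fun j : J => ((p j : L) : L)) := by
    rw [Finset.mem_filter]
    exact ⟨Finset.mem_univ _, h2⟩
  have h4 := Finset.le_sup (f := Finset.card) h3
  rw [hJc, Finset.card_insert_of_notMem hiJ] at h4
  omega

/-- Algebraically independent elements, algebraic over the coordinates of `p`, are at most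
`atd K p` many. -/
theorem le_atd (p : ι → L) (q : κ → L) (hq : AlgebraicIndependent K q)
    (hqa : ∀ j, IsAlgebraic (Algebra.adjoin K (Set.range fun i => (p i : L))) (q j)) :
    Fintype.card κ ≤ atd K p := by
  obtain ⟨J, hJ, hJc, hJa⟩ := atd_spec (K := K) p
  rw [← hJc, ← Fintype.card_coe J]
  refine card_le_card_of_isAlgebraic (K := K) q (fun j : J => ((p j : L) : L)) hq (fun a => ?_)
  refine isAlgebraic_adjoin_trans ?_ (hqa a)
  rintro _ ⟨i, rfl⟩
  have h := hJa i
  rw [Set.image_eq_range] at h
  exact h

/-- Few elements `q` over which all coordinates of `p` are algebraic bound `atd K p`. -/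
theorem atd_le_card_of_algebraic (p : ι → L) (q : κ → L)
    (h : ∀ i, IsAlgebraic (Algebra.adjoin K (Set.range q)) (p i : L)) :
    atd K p ≤ Fintype.card κ := by
  obtain ⟨J, hJ, hJc, hJa⟩ := atd_spec (K := K) p
  rw [← hJc, ← Fintype.card_coe J]
  exact card_le_card_of_isAlgebraic (K := K) (fun j : J => ((p j : L) : L)) q hJ (fun a => h a)

/-- Monotonicity. -/
theorem atd_le_of_algebraic (p : ι → L) (q : κ → L)
    (h : ∀ i, IsAlgebraic (Algebra.adjoin K (Set.range fun j => (q j : L))) (p i : L)) :
    atd K p ≤ atd K q := by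
  obtain ⟨J, hJ, hJc, hJa⟩ := atd_spec (K := K) p
  rw [← hJc, ← Fintype.card_coe J]
  exact le_atd (K := K) q (fun j : J => ((p j : L) : L)) hJ (fun a => h a)

end Pool.Agent.Lib.MP_a325a5_ag.UM
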