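import Pool.Agent.Lib.MP_a325a5_ag.UM.CfgPt

/-! Dependence of the generic configuration `cfgPt` on the base point.

Paper proof.  Let `U = (κ ⊕ I) ⊕ S.B` and let `𝒰 = MvPolynomial U (MvPolynomial (α ⊕ (κ ⊕ I)) k)`.
Define the numerators and denominators of the coordinates of `cfgPt` in `𝒰` by the formulas of
`exists_genConfig` with `y_i` replaced by the variable `X_i`, `s_j` by the variable `X_j`: the
affine coordinates and the coordinates `y_κ` have denominator `1`.  The denominators are nodes; let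
`N` be their product.  The element `G(pt)` of the localization of `𝒰` at `N` is `H / N ^ r` with
`H ∈ 𝒰`.  For each `(E, s, y)` the evaluation `X ↦ (s, y)` maps `N` to a nonzero element of
`MvPolynomial U E`, and `G(pt)` to the value of `G` at the generic configuration; so this value is
nonzero iff the image of `H` is, iff some coefficient `h` of `H` has `h(s, y) ≠ 0`.  Take `𝒯` = the
set of coefficients of `H`. -/

set_option autoImplicit false

namespace Pool.Agent.Lib.MP_a325a5_ag.UM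

open MvPolynomial UL

/-- clearing denominators, uniformly -/
private theorem CoeffsM_clear {σ k A : Type} [Fintype σ] [Field k] [CommRing A] (c : k →+* A)
    (ν δ : σ → A) (G : MvPolynomial σ k) :
    ∃ (H : A) (r : ℕ), ∀ (F : Type) [Field F] [Algebra k F] (Ψ : A →+* F),
      (∀ a, Ψ (c a) = algebraMap k F a) → (∀ j, Ψ (δ j) ≠ 0) →
        aeval (fun j => Ψ (ν j) / Ψ (δ j)) G * (Ψ (∏ j, δ j)) ^ r = Ψ H := by
  classical
  induction G using MvPolynomial.induction_on with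
  | C a =>
    refine ⟨c a, 0, fun F _ _ Ψ h1 _ => ?_⟩
    rw [pow_zero, mul_one, h1, MvPolynomial.algHom_C]
  | add p q hp hq =>
    obtain ⟨H1, r1, h1⟩ := hp
    obtain ⟨H2, r2, h2⟩ := hq
    refine ⟨H1 * (∏ j, δ j) ^ r2 + H2 * (∏ j, δ j) ^ r1, r1 + r2, fun F _ _ Ψ h3 h4 => ?_⟩
    rw [map_add, map_add, map_mul, map_mul, map_pow, map_pow, ← h1 F Ψ h3 h4, ← h2 F Ψ h3 h4]
    ring
  | mul_X p j hp =>
    obtain ⟨H1, r1, h1⟩ := hp
    refine ⟨H1 * (ν j * ∏ l ∈ Finset.univ.erase j, δ l), r1 + 1, fun F _ _ Ψ h3 h4 => ?_⟩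
    have h5 : Ψ (∏ l, δ l) = Ψ (δ j) * Ψ (∏ l ∈ Finset.univ.erase j, δ l) := by
      rw [← map_mul, Finset.mul_prod_erase _ _ (Finset.mem_univ j)]
    have h6 : Ψ (ν j) / Ψ (δ j) * Ψ (∏ l, δ l) = Ψ (ν j) * Ψ (∏ l ∈ Finset.univ.erase j, δ l) := by
      rw [h5, ← mul_assoc, div_mul_cancel₀ _ (h4 j)]
    rw [map_mul, aeval_X, map_mul, map_mul, ← h1 F Ψ h3 h4, ← h6]
    ring

variable {J : Type} [Fintype J] (S : Sys J) (α k : Type) [Field k]

/-- the universal term -/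
private noncomputable def CoeffsM_term (b : S.B) (l : Fin (S.m b + 1)) :
    MvPolynomial (J ⊕ S.B) (MvPolynomial (α ⊕ J) k) :=
  ((S.ε b l : ℤ) : MvPolynomial (J ⊕ S.B) (MvPolynomial (α ⊕ J) k)) *
    ∏ i, C (X (Sum.inr i)) ^ S.α b l i

/-- the universal chain -/
private noncomputable def CoeffsM_s (b : S.B) (l : Fin (S.m b + 1)) :
    MvPolynomial (J ⊕ S.B) (MvPolynomial (α ⊕ J) k) :=
  X (Sum.inr b) + ∑ j ∈ Finset.univ.filter (fun j => j < l), CoeffsM_term S α k b j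

/-- the numerators -/
private noncomputable def CoeffsM_num :
    S.D ⊕ S.D → MvPolynomial (J ⊕ S.B) (MvPolynomial (α ⊕ J) k)
  | Sum.inl (Sum.inl (Sum.inl i)) => X (Sum.inl i)
  | Sum.inr (Sum.inl (Sum.inl _)) => 1
  | Sum.inl (Sum.inl (Sum.inr i)) => X (Sum.inl i) + 1
  | Sum.inr (Sum.inl (Sum.inr i)) => C (X (Sum.inr i))
  | Sum.inl (Sum.inr ⟨b, l⟩) => CoeffsM_s S α k b l
  | Sum.inr (Sum.inr ⟨b, l⟩) => CoeffsM_term S α k b l

/-- the denominators -/
private noncomputable def CoeffsM_den :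
    S.D ⊕ S.D → MvPolynomial (J ⊕ S.B) (MvPolynomial (α ⊕ J) k)
  | Sum.inl (Sum.inl (Sum.inl i)) => X (Sum.inl i) + 1
  | Sum.inr (Sum.inl (Sum.inl i)) => X (Sum.inl i) + 1
  | Sum.inl (Sum.inl (Sum.inr i)) => X (Sum.inl i) + 1 + C (X (Sum.inr i))
  | Sum.inr (Sum.inl (Sum.inr i)) => X (Sum.inl i) + 1 + C (X (Sum.inr i))
  | Sum.inl (Sum.inr ⟨b, l⟩) => CoeffsM_s S α k b (l + 1)
  | Sum.inr (Sum.inr ⟨b, l⟩) => CoeffsM_s S α k b (l + 1)

variable {α k} {E : Type} [Field E] [Algebra k E] (s : α → E) (y : J → Eˣ)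

/-- the evaluation -/
private noncomputable def CoeffsM_ev :
    MvPolynomial (J ⊕ S.B) (MvPolynomial (α ⊕ J) k) →+* RatFun (J ⊕ S.B) E :=
  (algebraMap (MvPolynomial (J ⊕ S.B) E) (RatFun (J ⊕ S.B) E)).comp
    (MvPolynomial.map ((aeval (Sum.elim s (fun i => (y i : E))) : MvPolynomial (α ⊕ J) k →ₐ[k] E) :
      MvPolynomial (α ⊕ J) k →+* E))

omit [Fintype J] in
private theorem CoeffsM_ev_X (u : J ⊕ S.B) : CoeffsM_ev (k := k) S s y (X u) = rvar E u := by
  unfold CoeffsM_ev rvar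
  rw [RingHom.comp_apply, MvPolynomial.map_X]

omit [Fintype J] in
private theorem CoeffsM_ev_CX (i : J) :
    CoeffsM_ev (k := k) S s y (C (X (Sum.inr i))) = rcst (J ⊕ S.B) (y i : E) := by
  unfold CoeffsM_ev rcst
  rw [RingHom.comp_apply, MvPolynomial.map_C]
  congr 2
  exact aeval_X _ _

omit [Fintype J] in
private theorem CoeffsM_ev_CS (i : α) :
    CoeffsM_ev (k := k) S s y (C (X (Sum.inl i))) = rcst (J ⊕ S.B) (s i) := by
  unfold CoeffsM_ev rcst
  rw [RingHom.comp_apply, MvPolynomial.map_C]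
  congr 2
  exact aeval_X _ _

omit [Fintype J] in
private theorem CoeffsM_ev_CC (a : k) :
    CoeffsM_ev (k := k) S s y (C (C a)) = algebraMap k (RatFun (J ⊕ S.B) E) a := by
  unfold CoeffsM_ev
  rw [RingHom.comp_apply, MvPolynomial.map_C,
    IsScalarTower.algebraMap_apply k (MvPolynomial (J ⊕ S.B) E) (RatFun (J ⊕ S.B) E)]
  congr 1
  rw [MvPolynomial.algebraMap_apply]
  congr 1
  show (aeval (Sum.elim s (fun i => (y i : E))) : MvPolynomial (α ⊕ J) k →ₐ[k] E) (C a) =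
    algebraMap k E a
  exact MvPolynomial.algHom_C _ _

private theorem CoeffsM_rcst_mul (U : Type) (a b : E) :
    rcst U (a * b) = rcst U a * rcst U b := by
  unfold rcst
  rw [map_mul, map_mul]

private theorem CoeffsM_ev_term (b : S.B) (l : Fin (S.m b + 1)) :
    CoeffsM_ev (k := k) S s y (CoeffsM_term S α k b l) =
      rcst (J ⊕ S.B) ((S.term y b l : Eˣ) : E) := by
  unfold CoeffsM_term
  rw [map_mul, map_prod, map_intCast]
  have h1 : ∀ i, CoeffsM_ev (k := k) S s y (C (X (Sum.inr i)) ^ S.α b l i) =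
      rcst (J ⊕ S.B) ((y i : E) ^ S.α b l i) := by
    intro i
    rw [map_pow, CoeffsM_ev_CX]
    unfold rcst
    rw [map_pow, map_pow]
  simp only [h1]
  unfold Sys.term sgnUnit
  rw [Units.val_mul, Units.coe_prod, CoeffsM_rcst_mul]
  congr 1
  · unfold rcst
    rw [Units.coe_map]
    simp
  · unfold rcst
    rw [map_prod, map_prod]
    refine Finset.prod_congr rfl fun i _ => ?_
    rw [Units.val_pow_eq_pow_val]

private theorem CoeffsM_ev_s (b : S.B) (l : Fin (S.m b + 1)) :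
    CoeffsM_ev (k := k) S s y (CoeffsM_s S α k b l) =
      rvar E (Sum.inr b) + rcst (J ⊕ S.B) (S.part y b l) := by
  unfold CoeffsM_s
  rw [map_add, CoeffsM_ev_X, map_sum]
  congr 1
  unfold Sys.part
  have h1 : rcst (J ⊕ S.B) (∑ j ∈ Finset.univ.filter (fun j => j < l), ((S.term y b j : Eˣ) : E)) =
      ∑ j ∈ Finset.univ.filter (fun j => j < l), rcst (J ⊕ S.B) ((S.term y b j : Eˣ) : E) := by
    unfold rcst
    rw [map_sum, map_sum]
  rw [h1]
  exact Finset.sum_congr rfl fun j _ => CoeffsM_ev_term S s y b j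

private theorem CoeffsM_nodes (hy : ∀ b, S.rel y b = 0) :
    (∀ i, ((genConfig S y hy).a 0 i : RatFun (J ⊕ S.B) E) =
      CoeffsM_ev (k := k) S s y (X (Sum.inl i))) ∧
    (∀ i, ((genConfig S y hy).a 1 i : RatFun (J ⊕ S.B) E) =
      CoeffsM_ev (k := k) S s y (X (Sum.inl i) + 1)) ∧
    (∀ i, ((genConfig S y hy).a 2 i : RatFun (J ⊕ S.B) E) =
      CoeffsM_ev (k := k) S s y (X (Sum.inl i) + 1 + C (X (Sum.inr i)))) ∧
    (∀ b l, ((genConfig S y hy).s b l : RatFun (J ⊕ S.B) E) =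
      CoeffsM_ev (k := k) S s y (CoeffsM_s S α k b l)) ∧
    (∀ i, ((genConfig S y hy).y i : RatFun (J ⊕ S.B) E) =
      CoeffsM_ev (k := k) S s y (C (X (Sum.inr i)))) := by
  have h0 : ∀ i, ((genConfig S y hy).a 0 i : RatFun (J ⊕ S.B) E) =
      CoeffsM_ev (k := k) S s y (X (Sum.inl i)) := by
    intro i
    rw [CoeffsM_ev_X, genConfig_a0]
  have h1 : ∀ i, ((genConfig S y hy).a 1 i : RatFun (J ⊕ S.B) E) =
      CoeffsM_ev (k := k) S s y (X (Sum.inl i) + 1) := by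
    intro i
    rw [(genConfig S y hy).ha1, h0, map_add, map_one]
  have h4 : ∀ i, ((genConfig S y hy).y i : RatFun (J ⊕ S.B) E) =
      CoeffsM_ev (k := k) S s y (C (X (Sum.inr i))) := by
    intro i
    rw [CoeffsM_ev_CX, genConfig_y]
  refine ⟨h0, h1, fun i => ?_, fun b l => ?_, h4⟩
  · rw [(genConfig S y hy).ha2, h1, h4, ← map_add]
  · rw [CoeffsM_ev_s, genConfig_s]

private theorem CoeffsM_term_eq (hy : ∀ b, S.rel y b = 0) (b : S.B) (l : Fin (S.m b + 1)) :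
    ((S.term (genConfig S y hy).y b l : (RatFun (J ⊕ S.B) E)ˣ) : RatFun (J ⊕ S.B) E) =
      CoeffsM_ev (k := k) S s y (CoeffsM_term S α k b l) := by
  unfold CoeffsM_term Sys.term sgnUnit
  rw [map_mul, map_prod, map_intCast, Units.val_mul, Units.coe_prod]
  congr 1
  refine Finset.prod_congr rfl fun i _ => ?_
  rw [Units.val_pow_eq_pow_val, map_pow, (CoeffsM_nodes (k := k) S s y hy).2.2.2.2]

private theorem CoeffsM_den_eq (hy : ∀ b, S.rel y b = 0) (j : S.D ⊕ S.D) :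
    CoeffsM_ev (k := k) S s y (CoeffsM_den S α k j) ≠ 0 ∧
      (((genConfig S y hy).pt j : (RatFun (J ⊕ S.B) E)ˣ) : RatFun (J ⊕ S.B) E) =
        CoeffsM_ev (k := k) S s y (CoeffsM_num S α k j) /
          CoeffsM_ev (k := k) S s y (CoeffsM_den S α k j) := by
  obtain ⟨h0, h1, h2, h3, h4⟩ := CoeffsM_nodes (k := k) S s y hy
  rcases j with ((i | i) | ⟨b, l⟩) | ((i | i) | ⟨b, l⟩)
  · refine ⟨?_, ?_⟩
    · show CoeffsM_ev (k := k) S s y (X (Sum.inl i) + 1) ≠ 0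
      rw [← h1]
      exact Units.ne_zero _
    · show (((genConfig S y hy).a 0 i / (genConfig S y hy).a 1 i : (RatFun (J ⊕ S.B) E)ˣ) :
        RatFun (J ⊕ S.B) E) = CoeffsM_ev (k := k) S s y (X (Sum.inl i)) /
          CoeffsM_ev (k := k) S s y (X (Sum.inl i) + 1)
      rw [Units.val_div_eq_div_val, h0, h1]
  · refine ⟨?_, ?_⟩
    · show CoeffsM_ev (k := k) S s y (X (Sum.inl i) + 1 + C (X (Sum.inr i))) ≠ 0
      rw [← h2]
      exact Units.ne_zero _
    · show (((genConfig S y hy).a 1 i / (genConfig S y hy).a 2 i : (RatFun (J ⊕ S.B) E)ˣ) :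
        RatFun (J ⊕ S.B) E) = CoeffsM_ev (k := k) S s y (X (Sum.inl i) + 1) /
          CoeffsM_ev (k := k) S s y (X (Sum.inl i) + 1 + C (X (Sum.inr i)))
      rw [Units.val_div_eq_div_val, h1, h2]
  · refine ⟨?_, ?_⟩
    · show CoeffsM_ev (k := k) S s y (CoeffsM_s S α k b (l + 1)) ≠ 0
      rw [← h3]
      exact Units.ne_zero _
    · show (((genConfig S y hy).s b l / (genConfig S y hy).s b (l + 1) :
        (RatFun (J ⊕ S.B) E)ˣ) : RatFun (J ⊕ S.B) E) =
          CoeffsM_ev (k := k) S s y (CoeffsM_s S α k b l) /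
            CoeffsM_ev (k := k) S s y (CoeffsM_s S α k b (l + 1))
      rw [Units.val_div_eq_div_val, h3, h3]
  · refine ⟨?_, ?_⟩
    · show CoeffsM_ev (k := k) S s y (X (Sum.inl i) + 1) ≠ 0
      rw [← h1]
      exact Units.ne_zero _
    · show (((1 : (RatFun (J ⊕ S.B) E)ˣ) / (genConfig S y hy).a 1 i : (RatFun (J ⊕ S.B) E)ˣ) :
        RatFun (J ⊕ S.B) E) = CoeffsM_ev (k := k) S s y 1 /
          CoeffsM_ev (k := k) S s y (X (Sum.inl i) + 1)
      rw [Units.val_div_eq_div_val, h1, map_one, Units.val_one]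
  · refine ⟨?_, ?_⟩
    · show CoeffsM_ev (k := k) S s y (X (Sum.inl i) + 1 + C (X (Sum.inr i))) ≠ 0
      rw [← h2]
      exact Units.ne_zero _
    · show (((genConfig S y hy).y i / (genConfig S y hy).a 2 i : (RatFun (J ⊕ S.B) E)ˣ) :
        RatFun (J ⊕ S.B) E) = CoeffsM_ev (k := k) S s y (C (X (Sum.inr i))) /
          CoeffsM_ev (k := k) S s y (X (Sum.inl i) + 1 + C (X (Sum.inr i)))
      rw [Units.val_div_eq_div_val, h4, h2]
  · refine ⟨?_, ?_⟩
    · show CoeffsM_ev (k := k) S s y (CoeffsM_s S α k b (l + 1)) ≠ 0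
      rw [← h3]
      exact Units.ne_zero _
    · show (((S.term (genConfig S y hy).y b l) / (genConfig S y hy).s b (l + 1) :
        (RatFun (J ⊕ S.B) E)ˣ) : RatFun (J ⊕ S.B) E) =
          CoeffsM_ev (k := k) S s y (CoeffsM_term S α k b l) /
            CoeffsM_ev (k := k) S s y (CoeffsM_s S α k b (l + 1))
      rw [Units.val_div_eq_div_val, CoeffsM_term_eq (k := k) S s, h3]

theorem exists_coeffs_cfgPt {κ I α : Type} [Fintype κ] [Fintype I] [Fintype α] (S : Sys (κ ⊕ I))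
    {k : Type} [Field k] (G : MvPolynomial (α ⊕ (κ ⊕ (S.D ⊕ S.D))) k) :
    ∃ 𝒯 : Set (MvPolynomial (α ⊕ (κ ⊕ I)) k), ∀ (E : Type) [Field E] [Algebra k E] (s : α → E)
      (y : κ ⊕ I → Eˣ) (hy : ∀ b, S.rel y b = 0),
      G ∉ aloc k (co (cfgPt S s y hy)) ↔
        ∃ h ∈ 𝒯, aeval (Sum.elim s (fun i => (y i : E))) h ≠ 0 := by
  classical
  let ν : α ⊕ (κ ⊕ (S.D ⊕ S.D)) → MvPolynomial ((κ ⊕ I) ⊕ S.B) (MvPolynomial (α ⊕ (κ ⊕ I)) k) :=
    Sum.elim (fun i => C (X (Sum.inl i)))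
      (Sum.elim (fun j => C (X (Sum.inr (Sum.inl j)))) (CoeffsM_num S α k))
  let δ : α ⊕ (κ ⊕ (S.D ⊕ S.D)) → MvPolynomial ((κ ⊕ I) ⊕ S.B) (MvPolynomial (α ⊕ (κ ⊕ I)) k) :=
    Sum.elim (fun _ => 1) (Sum.elim (fun _ => 1) (CoeffsM_den S α k))
  obtain ⟨H, r, hH⟩ := CoeffsM_clear
    ((C : MvPolynomial (α ⊕ (κ ⊕ I)) k →+*
      MvPolynomial ((κ ⊕ I) ⊕ S.B) (MvPolynomial (α ⊕ (κ ⊕ I)) k)).comp C) ν δ G
  refine ⟨Set.range fun m => coeff m H, fun E _ _ s y hy => ?_⟩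
  have h0 : ∀ j, CoeffsM_ev (k := k) S s y (δ j) ≠ 0 := by
    rintro (i | i | d)
    · show CoeffsM_ev (k := k) S s y 1 ≠ 0
      rw [map_one]
      exact one_ne_zero
    · show CoeffsM_ev (k := k) S s y 1 ≠ 0
      rw [map_one]
      exact one_ne_zero
    · exact (CoeffsM_den_eq (k := k) S s y hy d).1
  have h1 := hH (RatFun ((κ ⊕ I) ⊕ S.B) E) (CoeffsM_ev (k := k) S s y)
    (fun a => CoeffsM_ev_CC S s y a) h0
  have h2 : (fun j => CoeffsM_ev (k := k) S s y (ν j) / CoeffsM_ev (k := k) S s y (δ j)) =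
      co (cfgPt S s y hy) := by
    funext j
    rcases j with i | i | d
    · show CoeffsM_ev (k := k) S s y (C (X (Sum.inl i))) / CoeffsM_ev (k := k) S s y 1 =
        rcst ((κ ⊕ I) ⊕ S.B) (s i)
      rw [map_one, div_one, CoeffsM_ev_CS]
    · show CoeffsM_ev (k := k) S s y (C (X (Sum.inr (Sum.inl i)))) /
        CoeffsM_ev (k := k) S s y 1 = ((genConfig S y hy).y (Sum.inl i) : RatFun _ E)
      rw [map_one, div_one, CoeffsM_ev_CX, genConfig_y]
    · exact (CoeffsM_den_eq (k := k) S s y hy d).2.symm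
  rw [h2] at h1
  have h3 : CoeffsM_ev (k := k) S s y (∏ j, δ j) ≠ 0 := by
    rw [map_prod]
    exact Finset.prod_ne_zero_iff.2 fun j _ => h0 j
  have h4 : G ∉ aloc k (co (cfgPt S s y hy)) ↔ CoeffsM_ev (k := k) S s y H ≠ 0 := by
    rw [mem_aloc, ← h1, Ne, mul_eq_zero, not_or]
    exact ⟨fun h => ⟨h, pow_ne_zero _ h3⟩, fun h => h.1⟩
  rw [h4]
  unfold CoeffsM_ev
  rw [RingHom.comp_apply]
  have h5 : Function.Injective (algebraMap (MvPolynomial ((κ ⊕ I) ⊕ S.B) E)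
      (RatFun ((κ ⊕ I) ⊕ S.B) E)) :=
    IsFractionRing.injective _ _
  rw [Ne, map_eq_zero_iff _ h5, ← Ne, MvPolynomial.ne_zero_iff]
  constructor
  · rintro ⟨m, hm⟩
    refine ⟨coeff m H, ⟨m, rfl⟩, ?_⟩
    rw [MvPolynomial.coeff_map] at hm
    exact hm
  · rintro ⟨_, ⟨m, rfl⟩, hm⟩
    refine ⟨m, ?_⟩
    rw [MvPolynomial.coeff_map]
    exact hm

end Pool.Agent.Lib.MP_a325a5_ag.UM
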