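import Pool.Agent.Lib.MP_a325a5_ag.UM.Msk
import Pool.Agent.Lib.MP_a325a5_ag.UL.MR

/-! Multiplicative rank of the masked point: `lin_independent` twice, first over `L(v)` in the
variables `u` (the forms `u_i` and `u_i + (v_i + φ_i(s))`), then over `L` in the variables `v`. -/

set_option autoImplicit false

namespace Pool.Agent.Lib.MP_a325a5_ag.UM

open MvPolynomial UL

/-- the constants as a ring homomorphism -/
private noncomputable def MskMr_rh (U E : Type) [Field E] : E →+* RatFun U E :=
  (algebraMap (MvPolynomial U E) (RatFun U E)).comp C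

private theorem MskMr_rh_apply (U : Type) {E : Type} [Field E] (c : E) :
    MskMr_rh U E c = rcst U c := rfl

private theorem MskMr_rh_inj (U : Type) (E : Type) [Field E] :
    Function.Injective (MskMr_rh U E) := (MskMr_rh U E).injective

/-- the multiplicative relations of the masked point -/
private theorem MskMr_rel {k L : Type} [Field k] [Field L] [Algebra k L] {α I : Type} [Fintype I]
    {a : ℕ} (φ : Fin a → MvPolynomial α k) (s : α → L) (y : I → Lˣ)
    (c : (Fin 3 × Fin a) ⊕ I → ℤ) (hc : ∏ i, msk φ s y i ^ c i = 1) :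
    (∀ t, c (Sum.inl t) = 0) ∧ ∏ j, y j ^ c (Sum.inr j) = 1 := by
  have hv : ∀ i : Fin a, rvar L i ≠ 0 := by
    intro i
    have h := rvar_add_rcst_ne_zero (E := L) i 0
    rwa [← MskMr_rh_apply, map_zero, add_zero] at h
  have hy : ∀ j : I, rcst (Fin a) (y j : L) ≠ 0 := by
    intro j h
    rw [← MskMr_rh_apply] at h
    exact (y j).ne_zero ((map_eq_zero _).1 h)
  have h1 := congrArg (fun w : (MF a L)ˣ => (w : MF a L)) hc
  simp only [Fintype.prod_sum_type, Fintype.prod_prod_type, Fin.prod_univ_three, Units.val_mul,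
    Units.coe_prod, Units.val_zpow_eq_zpow_val, Units.val_one, msk_u, msk_v, msk_w, msk_y] at h1
  -- the constant of the first step
  set c₀ : (RatFun (Fin a) L)ˣ :=
    (∏ i, Units.mk0 (rvar L i) (hv i) ^ c (Sum.inl (1, i))) *
      ∏ j, Units.mk0 (rcst (Fin a) (y j : L)) (hy j) ^ c (Sum.inr j) with hc₀
  have hc₀v : (c₀ : RatFun (Fin a) L) = (∏ i, rvar L i ^ c (Sum.inl (1, i))) *
      ∏ j, rcst (Fin a) (y j : L) ^ c (Sum.inr j) := by
    rw [hc₀, Units.val_mul, Units.coe_prod, Units.coe_prod]
    simp only [Units.val_zpow_eq_zpow_val, Units.val_mk0]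
  have h2 := lin_independent (U := Fin a) (T := Fin a ⊕ Fin a) (E := RatFun (Fin a) L)
    (Sum.elim id id) (Sum.elim (fun _ => 0) (fun i => rvar L i + rcst (Fin a) (aeval s (φ i))))
    (by
      intro i j hij hs
      rcases i with i | i <;> rcases j with j | j
      · have : i = j := hij
        rw [this]
      · exact absurd hs.symm (rvar_add_rcst_ne_zero _ _)
      · exact absurd hs (rvar_add_rcst_ne_zero _ _)
      · have : i = j := hij
        rw [this])
    (Sum.elim (fun i => c (Sum.inl (0, i))) (fun i => c (Sum.inl (2, i)))) c₀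
    (by
      rw [← h1, hc₀v, ← MskMr_rh_apply, map_mul, map_prod, map_prod, Fintype.prod_sum_type]
      simp only [map_zpow₀, Sum.elim_inl, Sum.elim_inr, id_eq, ← MskMr_rh_apply, map_zero,
        add_zero, map_add]
      have e1 : ∀ i : Fin a, mu L i = rvar (RatFun (Fin a) L) i := fun _ => rfl
      have e2 : ∀ i : Fin a, mv L i = MskMr_rh (Fin a) (RatFun (Fin a) L) (rvar L i) :=
        fun _ => rfl
      have e3 : ∀ x : L, mcst a x = MskMr_rh (Fin a) (RatFun (Fin a) L) (MskMr_rh (Fin a) L x) :=
        fun _ => rfl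
      simp only [e1, e2, e3, add_assoc]
      ring)
  obtain ⟨h3, h4⟩ := h2
  have h5 := congrArg (fun w : (RatFun (Fin a) L)ˣ => (w : RatFun (Fin a) L)) h4
  simp only [Units.val_one] at h5
  rw [hc₀v] at h5
  obtain ⟨h6, h7⟩ := lin_independent (U := Fin a) (T := Fin a) (E := L) id (fun _ => 0)
    (fun i j hij _ => hij) (fun i => c (Sum.inl (1, i))) (∏ j, y j ^ c (Sum.inr j))
    (by
      rw [← h5, Units.coe_prod, ← MskMr_rh_apply, map_prod]
      simp only [Units.val_zpow_eq_zpow_val, map_zpow₀, ← MskMr_rh_apply, map_zero, add_zero, id_eq]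
      ring)
  refine ⟨?_, h7⟩
  rintro ⟨t, i⟩
  fin_cases t
  · exact congrFun h3 (Sum.inl i)
  · exact congrFun h6 i
  · exact congrFun h3 (Sum.inr i)

theorem mr_msk {k L : Type} [Field k] [Field L] [Algebra k L] {α I : Type} [Fintype I] {a : ℕ}
    (φ : Fin a → MvPolynomial α k) (s : α → L) (y : I → Lˣ) :
    mr (msk φ s y) = 3 * a + mr y := by
  classical
  have hcard : Fintype.card (Fin 3 × Fin a) = 3 * a := by
    rw [Fintype.card_prod, Fintype.card_fin, Fintype.card_fin]
  -- the constants have the same rank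
  have h0 : mr (fun j => msk φ s y (Sum.inr j)) = mr y := by
    apply mr_congr
    intro b
    have hval : ((∏ j, msk φ s y (Sum.inr j) ^ b j : (MF a L)ˣ) : MF a L) =
        MskMr_rh (Fin a) (RatFun (Fin a) L) (MskMr_rh (Fin a) L ((∏ j, y j ^ b j : Lˣ) : L)) := by
      rw [Units.coe_prod, Units.coe_prod, map_prod, map_prod]
      refine Finset.prod_congr rfl fun j _ => ?_
      rw [Units.val_zpow_eq_zpow_val, Units.val_zpow_eq_zpow_val, map_zpow₀, map_zpow₀, msk_y]
      rfl
    refine Iff.symm ⟨?_, ?_⟩
    · intro h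
      rw [h, Units.val_one] at hval
      have h1 : MskMr_rh (Fin a) (RatFun (Fin a) L) (MskMr_rh (Fin a) L 1) =
          MskMr_rh (Fin a) (RatFun (Fin a) L) (MskMr_rh (Fin a) L ((∏ j, y j ^ b j : Lˣ) : L)) := by
        rw [map_one, map_one]
        exact hval
      have h2 := MskMr_rh_inj _ _ (MskMr_rh_inj _ _ h1)
      exact Units.ext (by rw [Units.val_one]; exact h2.symm)
    · intro h
      rw [h, Units.val_one, map_one, map_one] at hval
      exact Units.ext (by rw [Units.val_one]; exact hval)
  apply le_antisymm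
  · have h1 := mr_sumElim_le (fun j => msk φ s y (Sum.inr j)) (fun t => msk φ s y (Sum.inl t))
    have h2 : mr (msk φ s y) ≤ mr (Sum.elim (fun j => msk φ s y (Sum.inr j))
        (fun t => msk φ s y (Sum.inl t))) := by
      apply mr_le_of_pow_mem
      intro i
      refine ⟨1, one_pos, ?_⟩
      rw [pow_one]
      apply Subgroup.subset_closure
      rcases i with t | j
      · exact ⟨Sum.inr t, rfl⟩
      · exact ⟨Sum.inl j, rfl⟩
    rw [h0, hcard] at h1
    omega
  · obtain ⟨J, hJ, hJ2, -⟩ := mr_spec y
    have hJ3 := (mr_eq_card_iff (fun i : J => y i)).1 (by rw [hJ2, Fintype.card_coe])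
    have h1 : mr (fun i : (Fin 3 × Fin a) ⊕ J => msk φ s y (Sum.map id (fun j : J => (j : I)) i)) =
        Fintype.card ((Fin 3 × Fin a) ⊕ J) := by
      rw [mr_eq_card_iff]
      intro b hb
      have h2 := MskMr_rel φ s y
        (Sum.elim (fun t => b (Sum.inl t)) (fun i => if hi : i ∈ J then b (Sum.inr ⟨i, hi⟩) else 0))
        (by
          rw [← hb, Fintype.prod_sum_type, Fintype.prod_sum_type]
          congr 1
          have e1 : ∏ i, msk φ s y (Sum.inr i) ^ (if hi : i ∈ J then b (Sum.inr ⟨i, hi⟩) else 0) =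
              ∏ i ∈ J, msk φ s y (Sum.inr i) ^ (if hi : i ∈ J then b (Sum.inr ⟨i, hi⟩) else 0) := by
            symm
            apply Finset.prod_subset (Finset.subset_univ J)
            intro i _ hi
            rw [dif_neg hi, zpow_zero]
          simp only [Sum.elim_inr, Sum.map_inr]
          rw [e1, ← Finset.prod_coe_sort]
          refine Finset.prod_congr rfl fun i _ => ?_
          rw [dif_pos i.2])
      obtain ⟨h3, h4⟩ := h2
      have h5 := hJ3 (fun j => b (Sum.inr j)) (by
        rw [← h4]
        have e1 : ∏ i, y i ^ (if hi : i ∈ J then b (Sum.inr ⟨i, hi⟩) else 0) =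
            ∏ i ∈ J, y i ^ (if hi : i ∈ J then b (Sum.inr ⟨i, hi⟩) else 0) := by
          symm
          apply Finset.prod_subset (Finset.subset_univ J)
          intro i _ hi
          rw [dif_neg hi, zpow_zero]
        simp only [Sum.elim_inr]
        rw [e1, ← Finset.prod_coe_sort J]
        refine Finset.prod_congr rfl fun i _ => ?_
        rw [dif_pos i.2])
      funext i
      rcases i with t | j
      · exact h3 t
      · exact congrFun h5 j
    have h2 : mr (fun i : (Fin 3 × Fin a) ⊕ J => msk φ s y (Sum.map id (fun j : J => (j : I)) i)) ≤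
        mr (msk φ s y) := by
      apply mr_le_of_pow_mem
      intro i
      refine ⟨1, one_pos, ?_⟩
      rw [pow_one]
      exact Subgroup.subset_closure ⟨_, rfl⟩
    rw [h1, Fintype.card_sum, hcard, Fintype.card_coe, hJ] at h2
    exact h2

end Pool.Agent.Lib.MP_a325a5_ag.UM
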