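import Pool.Agent.Lib.MP_a325a5_ag.UM.Msk
import Pool.Agent.Lib.MP_a325a5_ag.UM.TD
import Pool.Agent.Lib.MP_a325a5_ag.UM.RatTd
import Pool.Agent.Lib.MP_a325a5_ag.UM.Noe

/-! The transcendence degree of the masked point `(u, v, u + v + φ(s), y)`: the coordinates of `s`
are algebraic over `φ(s) = w - u - v`. -/

set_option autoImplicit false

namespace Pool.Agent.Lib.MP_a325a5_ag.UM

open MvPolynomial UL

/-- elements of the subalgebra are algebraic -/
private theorem MskTd_alg {k E : Type} [Field k] [Field E] [Algebra k E] {S : Set E} {x : E}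
    (hx : x ∈ Algebra.adjoin k S) : IsAlgebraic (Algebra.adjoin k S) x :=
  isAlgebraic_algebraMap (⟨x, hx⟩ : Algebra.adjoin k S)

/-- values of polynomials at elements of a subalgebra -/
private theorem MskTd_mem {k E : Type} [Field k] [Field E] [Algebra k E] {α : Type}
    (A : Subalgebra k E) (q : α → E) (hq : ∀ i, q i ∈ A) (f : MvPolynomial α k) :
    aeval q f ∈ A := by
  induction f using MvPolynomial.induction_on with
  | C c =>
    rw [aeval_C]
    exact A.algebraMap_mem c
  | add f g hf hg =>
    rw [map_add]
    exact add_mem hf hg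
  | mul_X f i hf =>
    rw [map_mul, aeval_X]
    exact mul_mem hf (hq i)

private theorem MskTd_aeval {k L : Type} [Field k] [Field L] [Algebra k L] {α : Type} {a : ℕ}
    (s : α → L) (f : MvPolynomial α k) :
    aeval (fun i => mcst a (s i)) f = mcst a (aeval s f) := by
  have h2 := MvPolynomial.comp_aeval_apply s (IsScalarTower.toAlgHom k L (MF a L)) f
  exact h2.symm

theorem td_msk {k L : Type} [Field k] [Field L] [Algebra k L] {α I : Type} [Fintype α] [Fintype I]
    {a : ℕ} (T : Set (α → k)) (φ : Fin a → MvPolynomial α k) (hφ : NoetherNorm T φ) (s : α → L)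
    (hs : avan T ≤ aloc k s) (y : I → Lˣ) :
    td k (msk φ s y) = 2 * a + atd k (Sum.elim s (fun j => (y j : L))) := by
  classical
  set x : α ⊕ I → L := Sum.elim s (fun j => (y j : L)) with hx
  set x1 : (α ⊕ I) ⊕ Fin a → RatFun (Fin a) L :=
    Sum.elim (fun j => rcst (Fin a) (x j)) (fun i : Fin a => rvar L i) with hx1
  set x2 : ((α ⊕ I) ⊕ Fin a) ⊕ Fin a → MF a L :=
    Sum.elim (fun j => rcst (Fin a) (x1 j)) (fun i : Fin a => rvar (RatFun (Fin a) L) i) with hx2
  have h1 : atd k x1 = atd k x + a := by
    rw [hx1, atd_ratFun, Fintype.card_fin]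
  have h2 : atd k x2 = atd k x1 + a := by
    rw [hx2, atd_ratFun, Fintype.card_fin]
  have h3 : td k (msk φ s y) = atd k x2 := by
    rw [ul_td]
    apply le_antisymm
    · apply atd_le_of_algebraic
      have hmem : ∀ j, x2 j ∈ Algebra.adjoin k (Set.range fun j => x2 j) :=
        fun j => Algebra.subset_adjoin ⟨j, rfl⟩
      have hs1 : ∀ i, mcst a (s i) ∈ Algebra.adjoin k (Set.range fun j => x2 j) :=
        fun i => hmem (Sum.inl (Sum.inl (Sum.inl i)))
      rintro (⟨c, i⟩ | j)
      · have hu : mu L i ∈ Algebra.adjoin k (Set.range fun j => x2 j) := hmem (Sum.inr i)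
        have hv : mv L i ∈ Algebra.adjoin k (Set.range fun j => x2 j) :=
          hmem (Sum.inl (Sum.inr i))
        fin_cases c
        · change IsAlgebraic _ (msk φ s y (Sum.inl (0, i)) : MF a L)
          rw [msk_u]
          exact MskTd_alg hu
        · change IsAlgebraic _ (msk φ s y (Sum.inl (1, i)) : MF a L)
          rw [msk_v]
          exact MskTd_alg hv
        · change IsAlgebraic _ (msk φ s y (Sum.inl (2, i)) : MF a L)
          rw [msk_w]
          refine MskTd_alg (add_mem (add_mem hu hv) ?_)
          rw [← MskTd_aeval]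
          exact MskTd_mem _ _ hs1 _
      · change IsAlgebraic _ (msk φ s y (Sum.inr j) : MF a L)
        rw [msk_y]
        exact MskTd_alg (hmem (Sum.inl (Sum.inl (Sum.inr j))))
    · apply atd_le_of_algebraic
      have hmem : ∀ j, (msk φ s y j : MF a L) ∈
          Algebra.adjoin k (Set.range fun j => (msk φ s y j : MF a L)) :=
        fun j => Algebra.subset_adjoin ⟨j, rfl⟩
      have hu : ∀ i, mu L i ∈ Algebra.adjoin k (Set.range fun j => (msk φ s y j : MF a L)) := by
        intro i
        rw [← msk_u φ s y i]
        exact hmem _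
      have hv : ∀ i, mv L i ∈ Algebra.adjoin k (Set.range fun j => (msk φ s y j : MF a L)) := by
        intro i
        rw [← msk_v φ s y i]
        exact hmem _
      have hw : ∀ i, mcst a (aeval s (φ i)) ∈
          Algebra.adjoin k (Set.range fun j => (msk φ s y j : MF a L)) := by
        intro i
        have h4 : mcst a (aeval s (φ i)) =
            (msk φ s y (Sum.inl (2, i)) : MF a L) - mu L i - mv L i := by
          rw [msk_w]
          ring
        rw [h4]
        exact sub_mem (sub_mem (hmem _) (hu i)) (hv i)
      have hs2 : avan T ≤ aloc k (fun i => mcst a (s i)) := by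
        intro f hf
        rw [mem_aloc, MskTd_aeval, mem_aloc.1 (hs hf), mcst_eq, map_zero]
      rintro (((i | j) | i) | i)
      · change IsAlgebraic _ (mcst a (s i))
        refine isAlgebraic_adjoin_trans ?_ (hφ.isAlgebraic (fun i => mcst a (s i)) hs2 i)
        rintro _ ⟨i', rfl⟩
        refine MskTd_alg ?_
        change aeval (fun i => mcst a (s i)) (φ i') ∈ _
        rw [MskTd_aeval]
        exact hw i'
      · change IsAlgebraic _ (mcst a (y j : L))
        rw [← msk_y φ s y j]
        exact MskTd_alg (hmem _)
      · exact MskTd_alg (hv i)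
      · exact MskTd_alg (hu i)
  rw [h3, h2, h1]
  ring

end Pool.Agent.Lib.MP_a325a5_ag.UM
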