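import Pool.Agent.Lib.MP_a325a5_ag.UM.BCA

/-! Base change of irreducible closed sets: the `K`-points of `T`, and the set of all points of
`𝔸^α × 𝔾_m^β` over `K` at which all polynomials vanishing on `W` vanish.

The main point (`BC_avan_le`): if the polynomials over `k` vanishing on `C` vanish at the point `q`
over `L ⊇ K`, then so do the polynomials over `K` vanishing on `C`; expand the coefficients in a
basis of `K` over `k`. -/

set_option autoImplicit false

namespace Pool.Agent.Lib.MP_a325a5_ag.UM

open MvPolynomial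

variable {k K : Type} [Field k] [Field K] [Algebra k K]

private lemma BC_eval_map {ι : Type} (f : MvPolynomial ι k) (x : ι → K) :
    eval x (map (algebraMap k K) f) = aeval x f := by
  rw [eval_map]
  rfl

private lemma BC_aeval_alg {ι : Type} (f : MvPolynomial ι k) (z : ι → k) :
    aeval (fun i => algebraMap k K (z i)) f = algebraMap k K (eval z f) := by
  have h2 := MvPolynomial.comp_aeval_apply z (Algebra.ofId k K) f
  exact h2.symm

private lemma BC_map_mem {ι : Type} (C : Set (ι → k)) (f : MvPolynomial ι k) (hf : f ∈ avan C) :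
    map (algebraMap k K) f ∈ avan ((fun x : ι → k => fun i => algebraMap k K (x i)) '' C) := by
  rw [mem_avan]
  rintro _ ⟨z, hz, rfl⟩
  rw [BC_eval_map, BC_aeval_alg, hf z hz, map_zero]

private lemma BC_avan_le {ι : Type} (C : Set (ι → k)) {L : Type} [Field L] [Algebra K L]
    [Algebra k L] [IsScalarTower k K L] (q : ι → L) (h : avan C ≤ aloc k q) :
    avan ((fun x : ι → k => fun i => algebraMap k K (x i)) '' C) ≤ aloc K q := by
  classical
  intro F hF
  let b := Module.Basis.ofVectorSpace k K
  let S : Finset (Module.Basis.ofVectorSpaceIndex k K) :=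
    F.support.biUnion fun m => (b.repr (coeff m F)).support
  have hexp : ∀ m ∈ F.support, coeff m F = ∑ j ∈ S, b.repr (coeff m F) j • b j := by
    intro m hm
    have h1 := b.linearCombination_repr (coeff m F)
    rw [Finsupp.linearCombination_apply] at h1
    rw [← Finsupp.sum_of_support_subset (b.repr (coeff m F))
      (Finset.subset_biUnion_of_mem (fun m => (b.repr (coeff m F)).support) hm)
      (fun j a => a • b j) (fun i _ => zero_smul k (b i))]
    exact h1.symm
  let f : Module.Basis.ofVectorSpaceIndex k K → MvPolynomial ι k := fun j =>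
    ∑ m ∈ F.support, monomial m (b.repr (coeff m F) j)
  have hf : ∀ j, f j ∈ avan C := by
    intro j z hz
    have h1 : eval (fun i => algebraMap k K (z i)) F = 0 := hF _ ⟨z, hz, rfl⟩
    have h2 : eval z (f j) = b.coord j (eval (fun i => algebraMap k K (z i)) F) := by
      rw [map_sum, eval_eq, map_sum]
      refine Finset.sum_congr rfl fun m _ => ?_
      rw [eval_monomial]
      have h : ∏ i ∈ m.support, algebraMap k K (z i) ^ m i =
          algebraMap k K (∏ i ∈ m.support, z i ^ m i) := by
        rw [map_prod]
        exact Finset.prod_congr rfl fun i _ => (map_pow _ _ _).symm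
      rw [h, mul_comm (coeff m F), ← Algebra.smul_def, map_smul, smul_eq_mul, mul_comm]
      rfl
    rw [h2, h1, map_zero]
  have hF' : aeval q F = ∑ j ∈ S, algebraMap K L (b j) * aeval q (f j) := by
    have h1 : ∀ j, algebraMap K L (b j) * aeval q (f j) =
        ∑ m ∈ F.support, algebraMap K L (b.repr (coeff m F) j • b j) *
          m.prod fun i e => q i ^ e := by
      intro j
      rw [map_sum, Finset.mul_sum]
      refine Finset.sum_congr rfl fun m _ => ?_
      rw [aeval_monomial, Algebra.smul_def, map_mul, ← IsScalarTower.algebraMap_apply]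
      ring
    rw [Finset.sum_congr rfl fun j _ => h1 j, Finset.sum_comm]
    have h2 : aeval q F = ∑ m ∈ F.support, algebraMap K L (coeff m F) *
        m.prod fun i e => q i ^ e := by
      conv_lhs => rw [F.as_sum]
      rw [map_sum]
      exact Finset.sum_congr rfl fun m _ => aeval_monomial q m (coeff m F)
    rw [h2]
    refine Finset.sum_congr rfl fun m hm => ?_
    rw [← Finset.sum_mul, ← map_sum, ← hexp m hm]
  rw [mem_aloc, hF']
  exact Finset.sum_eq_zero fun j _ => by rw [mem_aloc.mp (h (hf j)), mul_zero]

theorem avan_bc {α : Type} (T : Set (α → k)) (hT : AIrr T) :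
    avan (bc K T) = avan ((fun x : α → k => fun i => algebraMap k K (x i)) '' T) := by
  apply le_antisymm
  · apply avan_anti
    rintro _ ⟨z, hz, rfl⟩ f hf
    rw [BC_aeval_alg, hf z hz, map_zero]
  · intro F hF x hx
    exact mem_aloc_self.mp (BC_avan_le T x (mem_bc.mp hx) hF)

theorem bc_airr {α : Type} (T : Set (α → k)) (hT : AIrr T) : AIrr (bc K T) := by
  constructor
  · rw [avan_bc T hT]
    exact base_prime T hT.1
  · intro x hx f hf
    rw [← BC_eval_map]
    apply hx
    rw [avan_bc T hT]
    exact BC_map_mem T f hf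

/-- A point of the base change is a point of `T`. -/
theorem avan_bc_le_iff {α : Type} (T : Set (α → k)) (hT : AIrr T) {L : Type} [Field L]
    [Algebra K L] [Algebra k L] [IsScalarTower k K L] (q : α → L) :
    avan (bc K T) ≤ aloc K q ↔ avan T ≤ aloc k q := by
  rw [avan_bc T hT]
  constructor
  · intro h f hf
    have h1 := mem_aloc.mp (h (BC_map_mem T f hf))
    rw [aeval_map_algebraMap] at h1
    exact mem_aloc.mpr h1
  · exact BC_avan_le T q

theorem base_change {α β : Type} [Fintype α] [Fintype β] (W : Set (Pt k α β))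
    (hW : IrrClosed W) :
    ∃ X : Set (Pt K α β), IrrClosed X ∧ (∀ z ∈ W, cstP k K z ∈ X) ∧
      (∀ B : Set (Pt k α β), B ⊆ W → vanIdeal B ≤ vanIdeal W → DenseIn (cstP k K '' B) X) ∧
      (∀ x ∈ X, vanIdeal W ≤ aloc k (co x)) ∧
      ∀ (L : Type) [Field L] [Algebra K L] [Algebra k L] [IsScalarTower k K L] (γ : Pt L α β),
        aloc K (co γ) = vanIdeal X → aloc k (co γ) = vanIdeal W ∧ atd K (co γ) = atd k (co γ) := by
  have himg : ∀ B : Set (Pt k α β), vanIdeal (cstP k K '' B) =
      avan ((fun x : α ⊕ β → k => fun i => algebraMap k K (x i)) '' (co '' B)) := by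
    intro B
    rw [vanIdeal_eq_avan, Set.image_image, Set.image_image]
    simp only [co_cstP]
  have hprime : (avan ((fun x : α ⊕ β → k => fun i => algebraMap k K (x i)) ''
      (co '' W))).IsPrime := by
    apply base_prime
    rw [← vanIdeal_eq_avan]
    exact hW.1
  let X : Set (Pt K α β) := {x | ∀ F ∈ vanIdeal (cstP k K '' W), eval (co x) F = 0}
  have hWX : ∀ z ∈ W, cstP k K z ∈ X := fun z hz F hF => hF _ ⟨z, hz, rfl⟩
  have hvan : vanIdeal X = vanIdeal (cstP k K '' W) := by
    apply le_antisymm
    · apply vanIdeal_anti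
      rintro _ ⟨z, hz, rfl⟩
      exact hWX z hz
    · intro F hF x hx
      exact hx F hF
  refine ⟨X, ⟨?_, ?_⟩, hWX, ?_, ?_, ?_⟩
  · rw [hvan, himg]
    exact hprime
  · intro x hx F hF
    exact hx F (hvan ▸ hF)
  · intro B _ hB
    unfold DenseIn
    rw [hvan, himg, himg]
    apply base_dense
    rw [← vanIdeal_eq_avan, ← vanIdeal_eq_avan]
    exact hB
  · intro x hx f hf
    have h1 : map (algebraMap k K) f ∈ vanIdeal (cstP k K '' W) := by
      rw [himg]
      apply BC_map_mem
      rw [← vanIdeal_eq_avan]
      exact hf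
    have h2 := hx _ h1
    rw [BC_eval_map] at h2
    exact mem_aloc.mpr h2
  · intro L _ _ _ _ γ hγ
    rw [hvan, himg] at hγ
    rw [vanIdeal_eq_avan]
    exact base_generic (co '' W) (co γ) hγ

end Pool.Agent.Lib.MP_a325a5_ag.UM
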