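import Pool.Agent.Lib.MP_a325a5_ag.UM.Pts

/-! Existence of Noether normalisations. -/

set_option autoImplicit false

namespace Pool.Agent.Lib.MP_a325a5_ag.UM

open MvPolynomial

theorem exists_noetherNorm {k : Type} [Field k] {α : Type} [Fintype α] {T : Set (α → k)}
    (hT : AIrr T) : ∃ (a : ℕ) (φ : Fin a → MvPolynomial α k), NoetherNorm T φ := by
  have hP : (avan T).IsPrime := hT.1
  obtain ⟨s, g, hinj, hint⟩ := exists_integral_inj_algHom_of_fg k (MvPolynomial α k ⧸ avan T)
  choose φ hφ using fun i : Fin s => Ideal.Quotient.mk_surjective (g (X i))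
  have he : (fun i => Ideal.Quotient.mk (avan T) (φ i)) = fun i => g (X i) := funext hφ
  have hg : (aeval (fun i => g (X i)) : MvPolynomial (Fin s) k →ₐ[k] _) = g := by
    apply MvPolynomial.algHom_ext
    intro i
    rw [aeval_X]
  refine ⟨s, φ, ?_, ?_⟩
  · rw [he, algebraicIndependent_iff_injective_aeval, hg]
    exact hinj
  · intro r
    have hadj : Algebra.adjoin k (Set.range fun i => Ideal.Quotient.mk (avan T) (φ i)) =
        g.range := by
      rw [he, Algebra.adjoin_range_eq_range_aeval, hg]
    obtain ⟨f, hf, hf'⟩ := hint r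
    rw [hadj]
    refine ⟨f.map g.rangeRestrict.toRingHom, hf.map _, ?_⟩
    rw [Polynomial.eval₂_map]
    exact hf'

end Pool.Agent.Lib.MP_a325a5_ag.UM
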