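import Pool.Agent.Lib.MP_a325a5_ag.UM.Hull
import Pool.Agent.Lib.MP_a325a5_ag.UM.Dec

/-! Components of `X ∩ ⟨W⟩`, atypical special subvarieties and defects. -/

set_option autoImplicit false

namespace Pool.Agent.Lib.MP_a325a5_ag.UM

open MvPolynomial

variable {k : Type} [Field k] [IsAlgClosed k] {K : Type} [Field K] [IsAlgClosed K] [CharZero K]
  [Algebra k K] {α β : Type} [Fintype α] [Fintype β] {S : Set (α → k)} {𝒮 : Set (Set (α → k))}

theorem exists_component (hF : Family S 𝒮) (X W : Set (Pt K α β)) (hX : IrrClosed X)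
    (hS : ∀ p ∈ X, p.1 ∈ bc K S) (hW : IrrClosed W) (hWX : W ⊆ X) :
    ∃ Z, IrrClosed Z ∧ W ⊆ Z ∧ Z ⊆ X ∧ hull 𝒮 Z = hull 𝒮 W ∧
      ∀ Z', IrrClosed Z' → Z ⊆ Z' → Z' ⊆ X ∩ hull 𝒮 Z → Z' = Z := by
  obtain ⟨𝒲, hfin, h𝒲, hcov⟩ := exists_decomposition
    {Z : Set (Pt K α β) | IrrClosed Z ∧ Z ⊆ X ∩ hull 𝒮 W} (fun Z hZ => hZ.1)
  have hspec : IsSpecial 𝒮 (hull 𝒮 W) := isSpecial_hull hF W hW (fun p hp => hS p (hWX hp))
  have hsub : ∀ V ∈ 𝒲, V ⊆ X ∩ hull 𝒮 W := by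
    intro V hV
    obtain ⟨-, hd⟩ := h𝒲 V hV
    refine Set.subset_inter ?_ ?_
    · rw [subset_iff hX, ← hd]
      refine vanIdeal_anti (Set.sUnion_subset fun Z hZ => ?_)
      exact hZ.1.2.trans Set.inter_subset_left
    · rw [subset_iff (hull_irr hF _ hspec), ← hd]
      refine vanIdeal_anti (Set.sUnion_subset fun Z hZ => ?_)
      exact hZ.1.2.trans Set.inter_subset_right
  obtain ⟨V₀, hV₀, hWV₀⟩ := hcov W ⟨hW, Set.subset_inter hWX (subset_hull W)⟩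
  obtain ⟨Z, hZmax⟩ := (hfin.subset (Set.sep_subset 𝒲 (fun V => W ⊆ V))).exists_maximal
    ⟨V₀, hV₀, hWV₀⟩
  have hZ𝒲 : Z ∈ 𝒲 := hZmax.prop.1
  have hWZ : W ⊆ Z := hZmax.prop.2
  have hZB := hsub Z hZ𝒲
  have hh : hull 𝒮 Z = hull 𝒮 W := by
    apply Set.Subset.antisymm
    · exact Set.sInter_subset_of_mem ⟨hspec, hZB.trans Set.inter_subset_right⟩
    · exact Set.subset_sInter fun H hH =>
        Set.sInter_subset_of_mem ⟨hH.1, hWZ.trans hH.2⟩
  refine ⟨Z, (h𝒲 Z hZ𝒲).1, hWZ, hZB.trans Set.inter_subset_left, hh, ?_⟩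
  intro Z' hZ' hZZ' hZ'B
  rw [hh] at hZ'B
  obtain ⟨V, hV, hZ'V⟩ := hcov Z' ⟨hZ', hZ'B⟩
  have h1 : V ⊆ Z := hZmax.le_of_ge ⟨hV, (hWZ.trans hZZ').trans hZ'V⟩ (hZZ'.trans hZ'V)
  exact Set.Subset.antisymm (hZ'V.trans h1) hZZ'

/-- The defect of an atypical special subvariety is smaller than the one of `X`. -/
theorem atypical_lt (hF : Family S 𝒮) (X Z : Set (Pt K α β)) (hX : IrrClosed X)
    (hZ : Atypical 𝒮 X Z) {L L' : Type} [Field L] [Algebra K L] [Algebra k L]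
    [IsScalarTower k K L] [Field L'] [Algebra K L'] [Algebra k L'] [IsScalarTower k K L']
    (γX : Pt L α β) (γZ : Pt L' α β) (hγX : aloc K (co γX) = vanIdeal X)
    (hγZ : aloc K (co γZ) = vanIdeal Z) (TX TZ : Set (α → k)) (hTX : Least 𝒮 TX γX.1)
    (hTZ : Least 𝒮 TZ γZ.1) :
    dm TZ + UL.mr γZ.2 + atd K (co γX) < dm TX + UL.mr γX.2 + atd K (co γZ) := by
  have h := hZ.2
  rw [zdim_eq X γX hγX, zdim_eq Z γZ hγZ, zdim_hull hF X hX γX hγX TX hTX,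
    zdim_hull hF Z hZ.1.1 γZ hγZ TZ hTZ] at h
  have h1 : atd K (co γX) + (dm TZ + UL.mr γZ.2) < (dm TX + UL.mr γX.2) + atd K (co γZ) := by
    exact_mod_cast h
  omega

theorem exists_atypical (hF : Family S 𝒮) (X : Set (Pt K α β)) (hX : IrrClosed X)
    (hS : ∀ p ∈ X, p.1 ∈ bc K S) {L L' : Type} [Field L] [Algebra K L] [Algebra k L]
    [IsScalarTower k K L] [Field L'] [Algebra K L'] [Algebra k L'] [IsScalarTower k K L']
    (γX : Pt L α β) (hγX : aloc K (co γX) = vanIdeal X) (p : Pt L' α β)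
    (hp : vanIdeal X ≤ aloc K (co p)) (TX Tp : Set (α → k)) (hTX : Least 𝒮 TX γX.1)
    (hTp : Least 𝒮 Tp p.1)
    (h : dm Tp + UL.mr p.2 + atd K (co γX) < dm TX + UL.mr γX.2 + atd K (co p)) :
    ∃ Z, Atypical 𝒮 X Z ∧ vanIdeal Z ≤ aloc K (co p) := by
  obtain ⟨W, hW, hWp⟩ := exists_irrClosed (K := K) p
  have hWX : W ⊆ X := (subset_iff hX).mpr (by rw [hWp]; exact hp)
  obtain ⟨Z, hZ, hWZ, hZX, hh, hc⟩ := exists_component hF X W hX hS hW hWX
  obtain ⟨L₂, _, _, γZ, hγZ⟩ := exists_generic Z hZ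
  have hle : aloc K (co γZ) ≤ aloc K (co p) := by
    rw [hγZ, ← hWp]
    exact vanIdeal_anti hWZ
  have h2 := atd_mono (co p) (co γZ) hle
  have e1 := zdim_eq X γX hγX
  have e2 := zdim_eq Z γZ hγZ
  have e3 := zdim_hull hF X hX γX hγX TX hTX
  have e4 := zdim_hull hF W hW p hWp.symm Tp hTp
  have hlt : zdim X + zdim (hull 𝒮 Z) < zdim (hull 𝒮 X) + zdim Z := by
    rw [hh, e1, e2, e3, e4]
    have h3 : atd K (co γX) + (dm Tp + UL.mr p.2) < (dm TX + UL.mr γX.2) + atd K (co γZ) := by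
      omega
    exact_mod_cast h3
  refine ⟨Z, ⟨⟨hZ, hZX, hc, ?_⟩, hlt⟩, ?_⟩
  · intro hh2
    have hXZ : X = Z := hc X hX hZX (fun x hx => ⟨hx, by rw [hh2]; exact subset_hull X hx⟩)
    rw [hh2, ← hXZ, add_comm] at hlt
    exact lt_irrefl _ hlt
  · rw [← hγZ]
    exact hle

omit [IsAlgClosed k] [IsAlgClosed K] [CharZero K] [Algebra k K] [Fintype α] [Fintype β] [Field k] in
private theorem Comp_atd_le {ι : Type} [Fintype ι] {L : Type} [Field L] [Algebra K L]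
    (q : ι → L) : atd K q ≤ Fintype.card ι := by
  obtain ⟨J, -, hJ, -⟩ := atd_spec (K := K) q
  rw [← hJ]
  exact Finset.card_le_univ J

omit [IsAlgClosed k] in
theorem exists_maxAtypical (X Z : Set (Pt K α β)) (hZ : Atypical 𝒮 X Z) :
    ∃ W ∈ MaxAtypical 𝒮 X, Z ⊆ W := by
  have key : ∀ n : ℕ, ∀ Z : Set (Pt K α β), Atypical 𝒮 X Z →
      (∀ (L : Type) [Field L] [Algebra K L] (γ : Pt L α β), aloc K (co γ) = vanIdeal Z →
        Fintype.card (α ⊕ β) ≤ atd K (co γ) + n) → ∃ W ∈ MaxAtypical 𝒮 X, Z ⊆ W := by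
    intro n
    induction n with
    | zero =>
      intro Z hZ hn
      refine ⟨Z, ⟨hZ, ?_⟩, subset_rfl⟩
      intro W hW hZW
      obtain ⟨L, _, _, γ, hγ⟩ := exists_generic Z hZ.1.1
      obtain ⟨L', _, _, γ', hγ'⟩ := exists_generic W hW.1.1
      have h1 := hn L γ hγ
      have h2 := Comp_atd_le (K := K) (co γ')
      have hle : aloc K (co γ') ≤ aloc K (co γ) := by
        rw [hγ, hγ']
        exact vanIdeal_anti hZW
      have h4 := aloc_eq_of_atd_le (co γ) (co γ') hle (by omega)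
      exact IrrClosed.ext hW.1.1 hZ.1.1 (by rw [← hγ', ← hγ, h4])
    | succ n ih =>
      intro Z hZ hn
      by_cases hmax : Z ∈ MaxAtypical 𝒮 X
      · exact ⟨Z, hmax, subset_rfl⟩
      · have : ∃ W, Atypical 𝒮 X W ∧ Z ⊆ W ∧ W ≠ Z := by
          by_contra hcon
          push Not at hcon
          exact hmax ⟨hZ, fun W hW hZW => hcon W hW hZW⟩
        obtain ⟨W, hW, hZW, hne⟩ := this
        obtain ⟨L, _, _, γ, hγ⟩ := exists_generic Z hZ.1.1
        obtain ⟨V, hV, hWV⟩ := ih W hW (by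
          intro L' _ _ γ' hγ'
          have hle : aloc K (co γ') ≤ aloc K (co γ) := by
            rw [hγ, hγ']
            exact vanIdeal_anti hZW
          have h1 := hn L γ hγ
          by_contra hcon
          have h4 := aloc_eq_of_atd_le (co γ) (co γ') hle (by omega)
          exact hne (IrrClosed.ext hW.1.1 hZ.1.1 (by rw [← hγ', ← hγ, h4])))
        exact ⟨V, hV, hZW.trans hWV⟩
  exact key (Fintype.card (α ⊕ β)) Z hZ (fun L _ _ γ _ => Nat.le_add_left _ _)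

end Pool.Agent.Lib.MP_a325a5_ag.UM
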