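import Pool.Agent.Lib.MP_a325a5_ag.UL.Defs

/-! Zilber-Pink for the products of a variety `S` with tori: the definitions used in the statement of
the universality theorem.

`S` is an irreducible closed subset of the affine space `𝔸^α` over the algebraically closed field
`k`, with a family `𝒮` of irreducible closed subsets, called special. The special subsets of
`S × 𝔾_m^β`, over a field `K` containing `k`, are the products of a special subset of `S` and a
torsion coset. -/

set_option autoImplicit false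

namespace Pool.Agent.Lib.MP_a325a5_ag.UM

open MvPolynomial

/-! ### Affine space -/

section affine

variable {k : Type} [Field k] {α : Type}

/-- The ideal of all polynomials vanishing on the subset `T` of the affine space `k^α`. -/
def avan (T : Set (α → k)) : Ideal (MvPolynomial α k) where
  carrier := {f | ∀ x ∈ T, eval x f = 0}
  add_mem' := by
    intro a b ha hb x hx
    rw [map_add, ha x hx, hb x hx, add_zero]
  zero_mem' := by
    intro x _
    exact map_zero _
  smul_mem' := by
    intro c f hf x hx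
    rw [smul_eq_mul, map_mul, hf x hx, mul_zero]

/-- `T` is an irreducible Zariski closed subset of the affine space `k^α`. -/
def AIrr (T : Set (α → k)) : Prop :=
  (avan T).IsPrime ∧ ∀ x : α → k, (∀ f ∈ avan T, eval x f = 0) → x ∈ T

/-- `𝒮` is a family of irreducible closed subsets of `S` which contains `S` and such that the
irreducible components of the intersection of two members of `𝒮` belong to `𝒮`: every irreducible
closed subset of the intersection is contained in a member of `𝒮` which is contained in the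
intersection. -/
structure Family (S : Set (α → k)) (𝒮 : Set (Set (α → k))) : Prop where
  irr : ∀ T ∈ 𝒮, AIrr T
  sub : ∀ T ∈ 𝒮, T ⊆ S
  top : S ∈ 𝒮
  inter : ∀ T₁ ∈ 𝒮, ∀ T₂ ∈ 𝒮, ∀ Z, AIrr Z → Z ⊆ T₁ ∩ T₂ → ∃ T₃ ∈ 𝒮, Z ⊆ T₃ ∧ T₃ ⊆ T₁ ∩ T₂

/-- The set of the points of `T` with coordinates in the extension field `K`. -/
def bc (K : Type) [Field K] [Algebra k K] (T : Set (α → k)) : Set (α → K) :=
  {x | ∀ f ∈ avan T, aeval x f = 0}

/-- `φ 0, ..., φ (a - 1)` define a Noether normalisation of `T`: their classes in the coordinate ring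
of `T` are algebraically independent, and the coordinate ring is integral over them. -/
def NoetherNorm (T : Set (α → k)) {a : ℕ} (φ : Fin a → MvPolynomial α k) : Prop :=
  AlgebraicIndependent k (fun i => Ideal.Quotient.mk (avan T) (φ i)) ∧
    ∀ r : MvPolynomial α k ⧸ avan T,
      IsIntegral (Algebra.adjoin k (Set.range fun i => Ideal.Quotient.mk (avan T) (φ i))) r

end affine

/-! ### Products of affine space and tori -/

section products

/-- The points of `𝔸^α × 𝔾_m^β`. -/
abbrev Pt (K : Type) [Field K] (α β : Type) : Type := (α → K) × (β → Kˣ)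

variable {K : Type} [Field K] {α β : Type}

/-- The coordinates of a point. -/
def co (p : Pt K α β) : α ⊕ β → K := Sum.elim p.1 fun b => (p.2 b : K)

/-- The ideal of all polynomials vanishing on the subset `Z` of `𝔸^α × 𝔾_m^β`. -/
def vanIdeal (Z : Set (Pt K α β)) : Ideal (MvPolynomial (α ⊕ β) K) where
  carrier := {f | ∀ z ∈ Z, eval (co z) f = 0}
  add_mem' := by
    intro a b ha hb z hz
    rw [map_add, ha z hz, hb z hz, add_zero]
  zero_mem' := by
    intro z _
    exact map_zero _
  smul_mem' := by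
    intro c f hf z hz
    rw [smul_eq_mul, map_mul, hf z hz, mul_zero]

/-- `Z` is an irreducible Zariski closed subset of `𝔸^α × 𝔾_m^β`. -/
def IrrClosed (Z : Set (Pt K α β)) : Prop :=
  (vanIdeal Z).IsPrime ∧ ∀ x : Pt K α β, (∀ f ∈ vanIdeal Z, eval (co x) f = 0) → x ∈ Z

/-- `B` is Zariski dense in `X`. -/
def DenseIn (B X : Set (Pt K α β)) : Prop := vanIdeal B ≤ vanIdeal X

/-- The dimension of `Z`: the Krull dimension of its coordinate ring. -/
noncomputable def zdim (Z : Set (Pt K α β)) : WithBot ℕ∞ :=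
  ringKrullDim (MvPolynomial (α ⊕ β) K ⧸ vanIdeal Z)

variable {k : Type} [Field k] [Algebra k K] [Fintype β] (𝒮 : Set (Set (α → k)))

/-- The special subvarieties of `S × 𝔾_m^β` over `K`: the products of (the set of `K`-points of) a
member of `𝒮` and a torsion coset, that is an irreducible closed subset of the torus defined by
equations `x ^ a = ζ` with roots of unity `ζ`. -/
def IsSpecial (H : Set (Pt K α β)) : Prop :=
  ∃ T ∈ 𝒮, ∃ C : Set (β → Kˣ), UL.IsSpecial C ∧ H = {p | p.1 ∈ bc K T ∧ p.2 ∈ C}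

/-- The smallest special subvariety containing `Z`. -/
def hull (Z : Set (Pt K α β)) : Set (Pt K α β) := ⋂₀ {H | IsSpecial 𝒮 H ∧ Z ⊆ H}

/-- `Z` is a special subvariety of `X`: it is an irreducible component of `X ∩ ⟨Z⟩`, and
`⟨Z⟩ ≠ ⟨X⟩`. -/
def SpecialIn (X Z : Set (Pt K α β)) : Prop :=
  IrrClosed Z ∧ Z ⊆ X ∧ (∀ W, IrrClosed W → Z ⊆ W → W ⊆ X ∩ hull 𝒮 Z → W = Z) ∧
    hull 𝒮 Z ≠ hull 𝒮 X

/-- `Z` is an atypical special subvariety of `X`: the codimension of `Z` in `X` is smaller than the
codimension of `⟨Z⟩` in `⟨X⟩`. -/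
def Atypical (X Z : Set (Pt K α β)) : Prop :=
  SpecialIn 𝒮 X Z ∧ zdim X + zdim (hull 𝒮 Z) < zdim (hull 𝒮 X) + zdim Z

/-- The atypical Hodge locus of `X`. -/
def HLatyp (X : Set (Pt K α β)) : Set (Pt K α β) := ⋃₀ {Z | Atypical 𝒮 X Z}

/-- The maximal atypical special subvarieties of `X`. -/
def MaxAtypical (X : Set (Pt K α β)) : Set (Set (Pt K α β)) :=
  {Z | Atypical 𝒮 X Z ∧ ∀ W, Atypical 𝒮 X W → Z ⊆ W → W = Z}

end products

/-- The product of `V_T = {(s, u, v, w) ∈ T × 𝔾_m^(3 a) : w_i = u_i + v_i + φ_i(s)}` and `ℓ^D`,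
where `ℓ` is the line `x + y = 1` in `𝔾_m²`. -/
def VT {k : Type} [Field k] {α : Type} (T : Set (α → k)) {a : ℕ} (φ : Fin a → MvPolynomial α k)
    (D : Type) : Set (Pt k α ((Fin 3 × Fin a) ⊕ (D ⊕ D))) :=
  {p | p.1 ∈ T ∧
    (∀ i, (p.2 (Sum.inl (2, i)) : k) =
      p.2 (Sum.inl (0, i)) + p.2 (Sum.inl (1, i)) + eval p.1 (φ i)) ∧
    ∀ e, (p.2 (Sum.inr (Sum.inl e)) : k) + p.2 (Sum.inr (Sum.inr e)) = 1}

end Pool.Agent.Lib.MP_a325a5_ag.UM
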