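import Pool.Agent.Lib.MP_a325a5_ag.UM.TDloc

/-! Base change of the vanishing ideal of a set of points with coordinates in the small field.

Every linear functional `lam : K → k` over `k` acts on the coefficients of a polynomial over `K`;
for points with coordinates in `k` this commutes with evaluation, and an element of `K` is zero iff
all functionals vanish at it. -/

set_option autoImplicit false

namespace Pool.Agent.Lib.MP_a325a5_ag.UM

open MvPolynomial

section

variable {k K : Type} [Field k] [Field K] [Algebra k K] {ι : Type}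

/-- Apply a `k`-linear functional to the coefficients. -/
noncomputable def bcaF (lam : K →ₗ[k] k) (F : MvPolynomial ι K) : MvPolynomial ι k :=
  ∑ m ∈ F.support, monomial m (lam (coeff m F))

theorem bcaF_coeff (lam : K →ₗ[k] k) (F : MvPolynomial ι K) (m : ι →₀ ℕ) :
    coeff m (bcaF lam F) = lam (coeff m F) := by
  classical
  rw [bcaF, coeff_sum]
  simp only [coeff_monomial]
  rw [Finset.sum_ite_eq']
  split_ifs with h
  · rfl
  · rw [notMem_support_iff.1 h, map_zero]

theorem bcaF_eval (lam : K →ₗ[k] k) (F : MvPolynomial ι K) (z : ι → k) :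
    eval z (bcaF lam F) = lam (eval (fun i => algebraMap k K (z i)) F) := by
  rw [bcaF, map_sum, eval_eq, map_sum]
  refine Finset.sum_congr rfl fun m _ => ?_
  rw [eval_monomial]
  have h : ∏ i ∈ m.support, algebraMap k K (z i) ^ m i =
      algebraMap k K (∏ i ∈ m.support, z i ^ m i) := by
    rw [map_prod]
    exact Finset.prod_congr rfl fun i _ => (map_pow _ _ _).symm
  rw [h, mul_comm (coeff m F), ← Algebra.smul_def, map_smul, smul_eq_mul, mul_comm]
  rfl

theorem bca_sep {c : K} (h : ∀ lam : K →ₗ[k] k, lam c = 0) : c = 0 :=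
  (Module.forall_dual_apply_eq_zero_iff k c).1 h

theorem bca_eval_iff (F : MvPolynomial ι K) (z : ι → k) :
    eval (fun i => algebraMap k K (z i)) F = 0 ↔ ∀ lam : K →ₗ[k] k, eval z (bcaF lam F) = 0 := by
  constructor
  · intro h lam
    rw [bcaF_eval, h, map_zero]
  · intro h
    refine bca_sep (k := k) fun lam => ?_
    rw [← bcaF_eval]
    exact h lam

theorem bca_eval_map (f : MvPolynomial ι k) (z : ι → k) :
    eval (fun i => algebraMap k K (z i)) (map (algebraMap k K) f) = algebraMap k K (eval z f) := by
  rw [eval_map, eval₂_comp]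
  rfl

/-- The ideal over `K` of a set of points with coordinates in `k`. -/
noncomputable def bcaI (K : Type) [Field K] [Algebra k K] (C : Set (ι → k)) :
    Ideal (MvPolynomial ι K) :=
  avan ((fun x : ι → k => fun i => algebraMap k K (x i)) '' C)

theorem mem_bcaI {C : Set (ι → k)} {F : MvPolynomial ι K} :
    F ∈ bcaI K C ↔ ∀ z ∈ C, eval (fun i => algebraMap k K (z i)) F = 0 := by
  rw [bcaI, mem_avan]
  constructor
  · intro h z hz
    exact h _ ⟨z, hz, rfl⟩
  · rintro h _ ⟨z, hz, rfl⟩
    exact h z hz

/-- A polynomial over `K` vanishes on the points over `k` iff its images under all functionals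
vanish on them. -/
theorem mem_bcaI_iff {C : Set (ι → k)} {F : MvPolynomial ι K} :
    F ∈ bcaI K C ↔ ∀ lam : K →ₗ[k] k, bcaF lam F ∈ avan C := by
  rw [mem_bcaI]
  constructor
  · intro h lam
    rw [mem_avan]
    intro z hz
    exact (bca_eval_iff F z).1 (h z hz) lam
  · intro h z hz
    exact (bca_eval_iff F z).2 fun lam => (mem_avan.1 (h lam)) z hz

theorem map_mem_bcaI {C : Set (ι → k)} {f : MvPolynomial ι k} :
    map (algebraMap k K) f ∈ bcaI K C ↔ f ∈ avan C := by
  rw [mem_bcaI, mem_avan]
  refine forall₂_congr fun z _ => ?_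
  rw [bca_eval_map, map_eq_zero]

/-- `f = ∑ b_j f_j` with `b` linearly independent over `k`, `f_j` over `k`: so `f` vanishes on `C` iff
all `f_j` do. Primality: `{f = 0}` and `{g = 0}` are closed over `k`. -/
theorem base_prime (C : Set (ι → k)) (hC : (avan C).IsPrime) :
    (avan ((fun x : ι → k => fun i => algebraMap k K (x i)) '' C)).IsPrime := by
  change (bcaI K C).IsPrime
  refine ⟨?_, ?_⟩
  · intro h
    apply hC.ne_top
    rw [Ideal.eq_top_iff_one] at h ⊢
    rw [← map_mem_bcaI (K := K), map_one]
    exact h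
  · intro F G hFG
    by_contra hcon
    push Not at hcon
    obtain ⟨hF, hG⟩ := hcon
    rw [mem_bcaI_iff] at hF hG
    push Not at hF hG
    obtain ⟨lam, hlam⟩ := hF
    obtain ⟨mu, hmu⟩ := hG
    have h1 : bcaF lam F * bcaF mu G ∉ avan C := fun h => (hC.mem_or_mem h).elim hlam hmu
    apply h1
    rw [mem_avan]
    intro z hz
    have h2 := mem_bcaI.1 hFG z hz
    rw [map_mul, mul_eq_zero] at h2
    rw [map_mul, mul_eq_zero]
    rcases h2 with h2 | h2
    · left
      exact (bca_eval_iff F z).1 h2 lam
    · right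
      exact (bca_eval_iff G z).1 h2 mu

theorem base_dense (B C : Set (ι → k)) (h : avan B ≤ avan C) :
    avan ((fun x : ι → k => fun i => algebraMap k K (x i)) '' B) ≤
      avan ((fun x : ι → k => fun i => algebraMap k K (x i)) '' C) := by
  change bcaI K B ≤ bcaI K C
  intro F hF
  rw [mem_bcaI_iff] at hF ⊢
  exact fun lam => h (hF lam)

end

theorem bca_rename {k K : Type} [Field k] [Field K] [Algebra k K] {ι κ : Type}
    {e : κ → ι} (he : Function.Injective e) (lam : K →ₗ[k] k) (F : MvPolynomial κ K) :
    bcaF lam (rename e F) = rename e (bcaF lam F) := by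
  classical
  ext m
  rw [bcaF_coeff]
  by_cases h : ∃ u : κ →₀ ℕ, u.mapDomain e = m
  · obtain ⟨u, rfl⟩ := h
    rw [coeff_rename_mapDomain e he, coeff_rename_mapDomain e he, bcaF_coeff]
  · rw [coeff_rename_eq_zero e F m fun u hu => absurd ⟨u, hu⟩ h,
      coeff_rename_eq_zero e (bcaF lam F) m fun u hu => absurd ⟨u, hu⟩ h, map_zero]

theorem bca_indep {k K : Type} [Field k] [Field K] [Algebra k K] {ι : Type}
    {C : Set (ι → k)} {L L' : Type} [Field L] [Algebra k L] [Field L'] [Algebra K L']
    {γ : ι → L} {γ' : ι → L'} (h : aloc k γ = avan C) (h' : aloc K γ' = bcaI K C)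
    (J : Finset ι) :
    AlgebraicIndependent K (fun j : J => γ' j) ↔ AlgebraicIndependent k (fun j : J => γ j) := by
  have hK : ∀ F : MvPolynomial J K, aeval (fun j : J => γ' j) F = 0 ↔
      rename (fun j : J => (j : ι)) F ∈ bcaI K C := by
    intro F
    rw [← h', mem_aloc, aeval_rename]
    rfl
  have hk : ∀ f : MvPolynomial J k, aeval (fun j : J => γ j) f = 0 ↔
      rename (fun j : J => (j : ι)) f ∈ avan C := by
    intro f
    rw [← h, mem_aloc, aeval_rename]
    rfl
  rw [algebraicIndependent_iff, algebraicIndependent_iff]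
  constructor
  · intro H f hf
    rw [hk, ← map_mem_bcaI (K := K), map_rename, ← hK] at hf
    have h1 := H _ hf
    exact (map_injective (algebraMap k K) (algebraMap k K).injective)
      (by rw [h1, map_zero])
  · intro H F hF
    rw [hK, mem_bcaI_iff] at hF
    have h1 : ∀ lam : K →ₗ[k] k, bcaF lam F = 0 := by
      intro lam
      apply H
      rw [hk, ← bca_rename Subtype.val_injective]
      exact hF lam
    ext m
    rw [coeff_zero]
    refine bca_sep (k := k) fun lam => ?_
    rw [← bcaF_coeff, h1 lam, coeff_zero]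

theorem base_generic {k K : Type} [Field k] [Field K] [Algebra k K] {ι : Type} [Fintype ι]
    (C : Set (ι → k)) {L : Type} [Field L] [Algebra K L]
    [Algebra k L] [IsScalarTower k K L] (γ : ι → L)
    (h : aloc K γ = avan ((fun x : ι → k => fun i => algebraMap k K (x i)) '' C)) :
    aloc k γ = avan C ∧ atd K γ = atd k γ := by
  have h1 : aloc K γ = bcaI K C := h
  have h2 : aloc k γ = avan C := by
    ext f
    rw [← map_mem_bcaI (K := K), ← h1, mem_aloc, mem_aloc, aeval_map_algebraMap]
  refine ⟨h2, ?_⟩
  unfold atd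
  congr 1
  ext J
  simp only [Finset.mem_filter, Finset.mem_univ, true_and]
  exact bca_indep h2 h1 J

end Pool.Agent.Lib.MP_a325a5_ag.UM
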