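import Pool.Agent.Lib.MP_a325a5_ag.UM.Msk

/-! Elimination of the masks.

`g(s, msk φ s y)` is a polynomial in the masks `u`, `v` with coefficients in `K[s, t]`; it is nonzero
iff one of these coefficients is nonzero at `(s, t)`. -/

set_option autoImplicit false

namespace Pool.Agent.Lib.MP_a325a5_ag.UM

open MvPolynomial UL

section

variable {k K : Type} [Field k] [Field K] [Algebra k K] {α β : Type} {a e : ℕ}

/-- the ring of the universal values -/
private abbrev MR (a : ℕ) (K α β : Type) [Field K] : Type :=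
  MvPolynomial (Fin a) (MvPolynomial (Fin a) (MvPolynomial (α ⊕ β) K))

/-- the universal values of the coordinates -/
private noncomputable def MskCoeffs_val (φ : Fin a → MvPolynomial α k) (c : Fin e → Kˣ)
    (I : Finset (β ⊕ Fin e)) : α ⊕ ((Fin 3 × Fin a) ⊕ I) → MR a K α β :=
  Sum.elim (fun i => C (C (X (Sum.inl i))))
    (Sum.elim (fun ji => ![fun i => X i, fun i => C (X i),
      fun i => X i + C (X i) + C (C (rename Sum.inl (map (algebraMap k K) (φ i))))] ji.1 ji.2)
      (fun j => C (C (Sum.elim (fun b => X (Sum.inr b)) (fun j => C ((c j : Kˣ) : K))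
        (j : β ⊕ Fin e)))))

/-- the evaluation -/
private noncomputable def MskCoeffs_ev {L : Type} [Field L] [Algebra K L] (p : Pt L α β) :
    MR a K α β →+* MF a L :=
  (algebraMap (MvPolynomial (Fin a) (RatFun (Fin a) L)) (MF a L)).comp
    (MvPolynomial.map ((algebraMap (MvPolynomial (Fin a) L) (RatFun (Fin a) L)).comp
      (MvPolynomial.map ((aeval (co p) : MvPolynomial (α ⊕ β) K →ₐ[K] L) :
        MvPolynomial (α ⊕ β) K →+* L))))

private theorem MskCoeffs_ev_X {L : Type} [Field L] [Algebra K L] (p : Pt L α β) (i : Fin a) :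
    MskCoeffs_ev (K := K) p (X i) = mu L i := by
  unfold MskCoeffs_ev mu rvar
  rw [RingHom.comp_apply, MvPolynomial.map_X]

private theorem MskCoeffs_ev_CX {L : Type} [Field L] [Algebra K L] (p : Pt L α β) (i : Fin a) :
    MskCoeffs_ev (K := K) p (C (X i)) = mv L i := by
  unfold MskCoeffs_ev mv rcst rvar
  rw [RingHom.comp_apply, MvPolynomial.map_C, RingHom.comp_apply, MvPolynomial.map_X]

private theorem MskCoeffs_ev_CC {L : Type} [Field L] [Algebra K L] (p : Pt L α β)
    (h : MvPolynomial (α ⊕ β) K) :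
    MskCoeffs_ev (a := a) (K := K) p (C (C h)) = mcst a (aeval (co p) h) := by
  unfold MskCoeffs_ev mcst rcst
  rw [RingHom.comp_apply, MvPolynomial.map_C, RingHom.comp_apply, MvPolynomial.map_C]
  rfl

private theorem MskCoeffs_ev_ne {L : Type} [Field L] [Algebra K L] (p : Pt L α β)
    (H : MR a K α β) :
    MskCoeffs_ev (K := K) p H ≠ 0 ↔ ∃ m n, aeval (co p) (coeff n (coeff m H)) ≠ 0 := by
  unfold MskCoeffs_ev
  rw [RingHom.comp_apply]
  have h5 : Function.Injective (algebraMap (MvPolynomial (Fin a) (RatFun (Fin a) L)) (MF a L)) :=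
    IsFractionRing.injective _ _
  have h6 : Function.Injective (algebraMap (MvPolynomial (Fin a) L) (RatFun (Fin a) L)) :=
    IsFractionRing.injective _ _
  rw [Ne, map_eq_zero_iff _ h5, ← Ne, MvPolynomial.ne_zero_iff]
  have key : ∀ m, coeff m ((MvPolynomial.map
      ((algebraMap (MvPolynomial (Fin a) L) (RatFun (Fin a) L)).comp
      (MvPolynomial.map ((aeval (co p) : MvPolynomial (α ⊕ β) K →ₐ[K] L) :
        MvPolynomial (α ⊕ β) K →+* L)))) H) ≠ 0 ↔
      ∃ n, aeval (co p) (coeff n (coeff m H)) ≠ 0 := by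
    intro m
    rw [MvPolynomial.coeff_map, RingHom.comp_apply, Ne, map_eq_zero_iff _ h6, ← Ne,
      MvPolynomial.ne_zero_iff]
    refine exists_congr fun n => ?_
    rw [MvPolynomial.coeff_map]
    rfl
  exact exists_congr key

end

theorem exists_coeffs_msk {k K : Type} [Field k] [Field K] [Algebra k K] {α β : Type} {a e : ℕ}
    (φ : Fin a → MvPolynomial α k) (c : Fin e → Kˣ) (I : Finset (β ⊕ Fin e))
    (g : MvPolynomial (α ⊕ ((Fin 3 × Fin a) ⊕ I)) k) :
    ∃ 𝒯 : Set (MvPolynomial (α ⊕ β) K), ∀ (L : Type) [Field L] [Algebra K L] [Algebra k L]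
      [IsScalarTower k K L] (p : Pt L α β),
      aeval (Sum.elim (fun i => mcst a (p.1 i)) (fun j => (msk φ p.1
        (fun i : I => Sum.elim p.2 (fun j => cst K L (c j)) (i : β ⊕ Fin e)) j : MF a L))) g ≠ 0 ↔
        ∃ h ∈ 𝒯, aeval (co p) h ≠ 0 := by
  classical
  let H : MR a K α β := aeval (MskCoeffs_val φ c I) g
  refine ⟨{h | ∃ m n, h = coeff n (coeff m H)}, fun L _ _ _ _ p => ?_⟩
  have h1 : aeval (Sum.elim (fun i => mcst a (p.1 i)) (fun j => (msk φ p.1
        (fun i : I => Sum.elim p.2 (fun j => cst K L (c j)) (i : β ⊕ Fin e)) j : MF a L))) g =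
      MskCoeffs_ev (K := K) p H := by
    have h2 : MskCoeffs_ev (K := K) p H =
        eval₂Hom ((MskCoeffs_ev (K := K) p).comp (algebraMap k (MR a K α β)))
          (fun j => MskCoeffs_ev (K := K) p (MskCoeffs_val φ c I j)) g := by
      show MskCoeffs_ev (K := K) p (aeval (MskCoeffs_val φ c I) g) = _
      rw [MvPolynomial.map_aeval]
    have h3 : (MskCoeffs_ev (K := K) p).comp (algebraMap k (MR a K α β)) =
        algebraMap k (MF a L) := by
      ext x
      rw [RingHom.comp_apply]
      have e1 : algebraMap k (MR a K α β) x = C (C (C (algebraMap k K x))) := rfl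
      rw [e1, MskCoeffs_ev_CC, MvPolynomial.algHom_C, ← IsScalarTower.algebraMap_apply]
      rw [IsScalarTower.algebraMap_apply k (RatFun (Fin a) L) (MF a L),
        IsScalarTower.algebraMap_apply k L (RatFun (Fin a) L)]
      rfl
    have h4 : (fun j => MskCoeffs_ev (K := K) p (MskCoeffs_val φ c I j)) =
        Sum.elim (fun i => mcst a (p.1 i)) (fun j => (msk φ p.1
          (fun i : I => Sum.elim p.2 (fun j => cst K L (c j)) (i : β ⊕ Fin e)) j : MF a L)) := by
      funext j
      rcases j with i | ⟨j, i⟩ | i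
      · show MskCoeffs_ev (K := K) p (C (C (X (Sum.inl i)))) = mcst a (p.1 i)
        rw [MskCoeffs_ev_CC, aeval_X]
        rfl
      · rw [Sum.elim_inr]
        have hj : j = 0 ∨ j = 1 ∨ j = 2 := by
          fin_cases j <;> simp
        rcases hj with rfl | rfl | rfl
        · rw [msk_u]
          exact MskCoeffs_ev_X p i
        · rw [msk_v]
          exact MskCoeffs_ev_CX p i
        · rw [msk_w]
          show MskCoeffs_ev (K := K) p (X i + C (X i) +
            C (C (rename Sum.inl (map (algebraMap k K) (φ i))))) = _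
          rw [map_add, map_add, MskCoeffs_ev_X, MskCoeffs_ev_CX, MskCoeffs_ev_CC, aeval_rename,
            aeval_map_algebraMap]
          rfl
      · rw [Sum.elim_inr, msk_y]
        show MskCoeffs_ev (K := K) p (C (C (Sum.elim (fun b => X (Sum.inr b))
          (fun j => C ((c j : Kˣ) : K)) (i : β ⊕ Fin e)))) = _
        rw [MskCoeffs_ev_CC]
        congr 1
        rcases (i : β ⊕ Fin e) with b | j
        · rw [Sum.elim_inl, Sum.elim_inl, aeval_X]
          rfl
        · rw [Sum.elim_inr, Sum.elim_inr, MvPolynomial.algHom_C]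
          rfl
    rw [h2, h3, h4]
    rfl
  rw [h1, MskCoeffs_ev_ne]
  constructor
  · rintro ⟨m, n, h⟩
    exact ⟨_, ⟨m, n, rfl⟩, h⟩
  · rintro ⟨_, ⟨m, n, rfl⟩, h⟩
    exact ⟨m, n, h⟩

end Pool.Agent.Lib.MP_a325a5_ag.UM
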