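import Pool.Agent.Lib.MP_a325a5_ag.UM.Comp
import Pool.Agent.Lib.MP_a325a5_ag.UM.Least
import Pool.Agent.Lib.MP_a325a5_ag.UM.Typ
import Pool.Agent.Lib.MP_a325a5_ag.UM.MskMr
import Pool.Agent.Lib.MP_a325a5_ag.UM.MskTd
import Pool.Agent.Lib.MP_a325a5_ag.UM.CoeffsM
import Pool.Agent.Lib.MP_a325a5_ag.UM.MskCoeffs
import Pool.Agent.Lib.MP_a325a5_ag.UM.CfgLem
import Pool.Agent.Lib.MP_a325a5_ag.UM.IsoM
import Pool.Agent.Lib.MP_a325a5_ag.UM.SeedM
import Pool.Agent.Lib.MP_a325a5_ag.UL.Sel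

/-! Finiteness for all `V_T × ℓ^D` over `k` implies Zilber-Pink for `S × 𝔾_m^β` over `K`.

Paper proof: see section 4 of the text.  `γ` a generic point of `X`, `T` the smallest special set
containing `γ.1`, `y₀ = (γ.2, c)_I` from `exists_seed`, `y = msk φ_T γ.1 y₀`, `S` from
`exists_system`, `Θ = cfgPt`.  By `generic_not_mem` the product `G` of polynomials vanishing on the
maximal atypical subvarieties of `V_T × ℓ^D` can be chosen nonzero at `Θ`.  `exists_coeffs_cfgPt` and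
`exists_coeffs_msk` give a polynomial `g` over `K` with `g(γ) ≠ 0`, such that `g(x) ≠ 0` implies
`G(Θ_x) ≠ 0`.  By density some atypical `Z₀` has `g ∉ vanIdeal Z₀`; take `x` generic in `Z₀`.  The
count of defects shows that `Θ_x` lies on an atypical subvariety: contradiction. -/

set_option autoImplicit false

namespace Pool.Agent.Lib.MP_a325a5_ag.UM

open MvPolynomial UL

/-- the relations as polynomials -/
private theorem BwdM_rel {J : Type} [Fintype J] (S : Sys J) {k : Type} [Field k] (b : S.B) :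
    ∃ P : MvPolynomial J k, ∀ (E : Type) [Field E] [Algebra k E] (y : J → Eˣ),
      aeval (fun i => (y i : E)) P = S.rel y b := by
  refine ⟨∑ l, C (((S.ε b l : ℤˣ) : ℤ) : k) * ∏ i, (X i : MvPolynomial J k) ^ S.α b l i, ?_⟩
  intro E _ _ y
  unfold Sys.rel Sys.term sgnUnit
  rw [map_sum]
  refine Finset.sum_congr rfl fun l _ => ?_
  rw [map_mul, map_prod]
  simp

/-- the affine coordinates as constants of the masked field -/
private theorem BwdM_aeval {k L : Type} [Field k] [Field L] [Algebra k L] {α : Type} (a : ℕ)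
    (s : α → L) (f : MvPolynomial α k) :
    aeval (fun i => mcst a (s i)) f = mcst a (aeval s f) := by
  have h := MvPolynomial.comp_aeval_apply s (IsScalarTower.toAlgHom k L (MF a L)) f
  exact h.symm

private theorem BwdM_aloc {k L M : Type} [Field k] [Field L] [Algebra k L] [Field M] [Algebra L M]
    [Algebra k M] [IsScalarTower k L M] {α : Type} (s : α → L) :
    aloc k (fun i => algebraMap L M (s i)) = aloc k s := by
  ext f
  rw [mem_aloc, mem_aloc]
  have h1 : aeval (fun i => algebraMap L M (s i)) f = algebraMap L M (aeval s f) := by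
    have h2 := MvPolynomial.comp_aeval_apply s (IsScalarTower.toAlgHom k L M) f
    exact h2.symm
  rw [h1, map_eq_zero_iff _ (algebraMap L M).injective]

private theorem BwdM_least {k : Type} [Field k] {α : Type} {𝒮 : Set (Set (α → k))} {L L' : Type}
    [Field L] [Algebra k L] [Field L'] [Algebra k L'] {T : Set (α → k)} {q : α → L} {q' : α → L'}
    (hT : Least 𝒮 T q) (h : aloc k q' = aloc k q) : Least 𝒮 T q' := by
  unfold Least at hT ⊢
  rw [h]
  exact hT

private theorem BwdM_mask_w {k L : Type} [Field k] [Field L] [Algebra k L] {α I : Type} {a : ℕ}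
    (φ : Fin a → MvPolynomial α k) (s : α → L) (y : I → Lˣ) (i : Fin a) :
    (msk φ s y (Sum.inl (2, i)) : MF a L) = msk φ s y (Sum.inl (0, i)) +
      msk φ s y (Sum.inl (1, i)) + aeval (fun i => mcst a (s i)) (φ i) := by
  rw [msk_w, msk_u, msk_v, BwdM_aeval]

theorem backward {k K : Type} [Field k] [IsAlgClosed k] [CharZero k] [Algebra.IsAlgebraic ℚ k]
    [Field K] [IsAlgClosed K] [CharZero K] [Algebra k K] {α : Type} [Fintype α]
    {S₀ : Set (α → k)} {𝒮 : Set (Set (α → k))} (hF : Family S₀ 𝒮)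
    (a : Set (α → k) → ℕ) (φ : ∀ T, Fin (a T) → MvPolynomial α k)
    (hφ : ∀ T ∈ 𝒮, NoetherNorm T (φ T))
    (hfin : ∀ T ∈ 𝒮, ∀ (D : Type) [Fintype D], (MaxAtypical 𝒮 (VT T (φ T) D)).Finite)
    (β : Type) [Fintype β] (X : Set (Pt K α β)) (hX : IrrClosed X)
    (hXS : ∀ x ∈ X, x.1 ∈ bc K S₀) : ¬ DenseIn (HLatyp 𝒮 X) X := by
  classical
  intro hd
  obtain ⟨F, iF, iA, γ, hγ⟩ := exists_generic X hX
  let iAk : Algebra k F := ((algebraMap K F).comp (algebraMap k K)).toAlgebra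
  have iT : IsScalarTower k K F := IsScalarTower.of_algebraMap_eq' rfl
  have hS0 : avan S₀ ≤ aloc k γ.1 := by
    intro f hf
    have h1 : rename Sum.inl (map (algebraMap k K) f) ∈ vanIdeal X := by
      intro x hx
      have h2 := hXS x hx f hf
      rw [eval_rename, eval_map, ← aeval_def]
      exact h2
    rw [← hγ, mem_aloc, aeval_rename, aeval_map_algebraMap] at h1
    exact mem_aloc.mpr h1
  obtain ⟨T, hT⟩ := exists_least hF γ.1 hS0
  have hTS : T ∈ 𝒮 := hT.1
  have hTi : AIrr T := hF.irr T hTS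
  have hN := hφ T hTS
  obtain ⟨e, c, I, hmr, hseed⟩ := exists_seed (k := k) (K := K) γ
  set y0 : I → Fˣ := fun i => Sum.elim γ.2 (fun j => cst K F (c j)) (i : β ⊕ Fin e) with hy0
  set y := msk (φ T) γ.1 y0 with hy
  obtain ⟨S, hrel, hdist, hcard, hiso⟩ := UL.exists_system (k := k) y
  have hcardJ : Fintype.card ((Fin 3 × Fin (a T)) ⊕ I) = 3 * a T + I.card := by
    rw [Fintype.card_sum, Fintype.card_prod, Fintype.card_fin, Fintype.card_fin, Fintype.card_coe]
  have hind : mr y = Fintype.card ((Fin 3 × Fin (a T)) ⊕ I) := by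
    rw [hcardJ, hy, mr_msk, hmr]
  set s : α → MF (a T) F := fun i => mcst (a T) (γ.1 i) with hs
  have hls : Least 𝒮 T s := BwdM_least hT (BwdM_aloc (M := MF (a T) F) γ.1)
  have hnot := generic_not_mem S hF hN s hls y hrel (BwdM_mask_w (φ T) γ.1 y0) hind hdist hcard hiso
  have hfinD := hfin T hTS S.D
  have hch : ∀ Z ∈ MaxAtypical 𝒮 (VT T (φ T) S.D), ∃ f ∈ vanIdeal Z,
      f ∉ aloc k (co (cfgPt S s y hrel)) := by
    intro Z hZ
    have := hnot Z hZ.1
    rw [SetLike.not_le_iff_exists] at this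
    exact this
  choose! f hfZ hfn using hch
  set G : MvPolynomial (α ⊕ ((Fin 3 × Fin (a T)) ⊕ (S.D ⊕ S.D))) k :=
    ∏ Z ∈ hfinD.toFinset, f Z with hG
  have hGn : G ∉ aloc k (co (cfgPt S s y hrel)) := by
    rw [hG, Ideal.IsPrime.prod_mem_iff]
    rintro ⟨Z, hZ, hZf⟩
    exact hfn Z (hfinD.mem_toFinset.mp hZ) hZf
  obtain ⟨𝒯, h𝒯⟩ := exists_coeffs_cfgPt S G
  obtain ⟨h, hh𝒯, hh⟩ := (h𝒯 _ s y hrel).mp hGn
  obtain ⟨𝒰, h𝒰⟩ := exists_coeffs_msk (K := K) (φ T) c I h
  obtain ⟨g, hg𝒰, hg⟩ := (h𝒰 F γ).mp hh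
  have hgX : g ∉ vanIdeal X := by
    rw [← hγ, mem_aloc]
    exact hg
  have hex : ∃ Z₀, Atypical 𝒮 X Z₀ ∧ g ∉ vanIdeal Z₀ := by
    by_contra hcon
    push Not at hcon
    apply hgX
    apply hd
    rintro z ⟨Z, hZ, hz⟩
    exact hcon Z hZ z hz
  obtain ⟨Z₀, hZ₀, hgZ₀⟩ := hex
  obtain ⟨L, iL, iKL, x, hx⟩ := exists_generic Z₀ hZ₀.1.1
  let iAL : Algebra k L := ((algebraMap K L).comp (algebraMap k K)).toAlgebra
  have iTL : IsScalarTower k K L := IsScalarTower.of_algebraMap_eq' rfl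
  have hspec : aloc K (co γ) ≤ aloc K (co x) := by
    rw [hγ, hx]
    exact vanIdeal_anti hZ₀.1.2.1
  have hspec1 : aloc k γ.1 ≤ aloc k x.1 :=
    aloc_restrict_le k x.1 γ.1 (aloc_fst_le x γ hspec)
  have hTx : avan T ≤ aloc k x.1 := hT.2.1.trans hspec1
  obtain ⟨Tx, hTx'⟩ := exists_least hF x.1 (hS0.trans hspec1)
  have hlt := atypical_lt hF X Z₀ hX hZ₀ γ x hγ hx T Tx hT hTx'
  have hsx := hseed L x hspec
  set y0x : I → Lˣ := fun i => Sum.elim x.2 (fun j => cst K L (c j)) (i : β ⊕ Fin e) with hy0x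
  set yx := msk (φ T) x.1 y0x with hyx
  -- the relations at `yx`
  have hrelx : ∀ b, S.rel yx b = 0 := by
    intro b
    obtain ⟨P, hP⟩ := BwdM_rel S (k := k) b
    obtain ⟨𝒱, h𝒱⟩ := exists_coeffs_msk (K := K) (φ T) c I (rename Sum.inr P)
    by_contra hne
    have h1 : aeval (Sum.elim (fun i => mcst (a T) (x.1 i)) (fun j => (yx j : MF (a T) L)))
        (rename Sum.inr P) ≠ 0 := by
      rw [aeval_rename]
      have h2 := hP (MF (a T) L) yx
      intro h3
      apply hne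
      rw [← h2]
      exact h3
    obtain ⟨g', hg'𝒱, hg'⟩ := (h𝒱 L x).mp h1
    have h4 : aeval (co γ) g' ≠ 0 := by
      intro h5
      apply hg'
      exact mem_aloc.mp (hspec (mem_aloc.mpr h5))
    have h5 := (h𝒱 F γ).mpr ⟨g', hg'𝒱, h4⟩
    apply h5
    rw [aeval_rename]
    have h6 := hP (MF (a T) F) y
    rw [hrel b] at h6
    exact h6
  set sx : α → MF (a T) L := fun i => mcst (a T) (x.1 i) with hsx'
  have hgx : aeval (co x) g ≠ 0 := by
    intro h0
    apply hgZ₀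
    rw [← hx]
    exact mem_aloc.mpr h0
  have hGx : G ∉ aloc k (co (cfgPt S sx yx hrelx)) :=
    (h𝒯 _ sx yx hrelx).mpr ⟨h, hh𝒯, (h𝒰 L x).mpr ⟨g, hg𝒰, hgx⟩⟩
  have hTsx : avan T ≤ aloc k sx := hTx.trans (BwdM_aloc (M := MF (a T) L) x.1).ge
  have hwx := BwdM_mask_w (φ T) x.1 y0x
  have hΘV := cfgPt_mem S hTi hN sx hTsx yx hrelx hwx
  obtain ⟨LV, _, _, γV, hγV, hγV1, htdV, hmrV⟩ := VT_generic hTi (φ T) hN S.D
  have hVirr := VT_irrClosed hTi (φ T) hN S.D
  have hLV : Least 𝒮 T γV.1 :=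
    ⟨hTS, hγV1.ge, fun T' hT' h' => (asubset_iff (hF.irr T' hT')).mpr (h'.trans hγV1.le)⟩
  have hLx : Least 𝒮 Tx (cfgPt S sx yx hrelx).1 := by
    refine BwdM_least hTx' ?_
    have h1 : aloc k (fun i => algebraMap (MF (a T) L) (RatFun
      (((Fin 3 × Fin (a T)) ⊕ I) ⊕ S.B) (MF (a T) L)) (sx i)) = aloc k sx := BwdM_aloc sx
    have h2 : aloc k sx = aloc k x.1 := BwdM_aloc (M := MF (a T) L) x.1
    exact h1.trans h2
  obtain ⟨Z, hZ, hZl⟩ := exists_atypical hF (VT T (φ T) S.D) hVirr (by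
      intro p hp
      rw [mem_bc]
      intro f' hf'
      exact mem_aloc_self.mpr (hf' p.1 (hF.sub T hTS hp.1)))
    γV hγV (cfgPt S sx yx hrelx) hΘV T Tx hLV hLx (by
      have h1 := (genConfig S yx hrelx).mr_pt_le
      rw [mr_genConfig_y] at h1
      have h2 := td_genConfig (k := k) S yx hrelx
      have h3 := Sys.card_D S
      have h4 : mr yx = 3 * a T + mr y0x := mr_msk (φ T) x.1 y0x
      have h5 : td k yx = 2 * a T + atd k (Sum.elim x.1 (fun j => (y0x j : L))) :=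
        td_msk T (φ T) hN x.1 hTx y0x
      have h6 : td k y = 2 * a T + atd k (Sum.elim γ.1 (fun j => (y0 j : F))) :=
        td_msk T (φ T) hN γ.1 hT.2.1 y0
      have h7 : dm T = a T := dm_of_noetherNorm hTi hN
      have hsx1 : mr y0x + atd k (Sum.elim γ.1 (fun j => (y0 j : F))) + mr γ.2 + atd K (co x) ≤
          I.card + atd k (Sum.elim x.1 (fun j => (y0x j : L))) + mr x.2 + atd K (co γ) := hsx
      have h8 := mr_cfgPt S sx yx hrelx
      have h9 := atd_cfgPt S hN sx hTsx yx hrelx hwx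
      omega)
  obtain ⟨W, hW, hZW⟩ := exists_maxAtypical _ Z hZ
  apply hGx
  rw [hG, Ideal.IsPrime.prod_mem_iff]
  exact ⟨W, hfinD.mem_toFinset.mpr hW, hZl (vanIdeal_anti hZW (hfZ W hW))⟩

end Pool.Agent.Lib.MP_a325a5_ag.UM
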