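import Pool.Agent.Lib.MP_a325a5_ag.UM.Dec
import Pool.Agent.Lib.MP_a325a5_ag.UM.LocSet
import Pool.Agent.Lib.MP_a325a5_ag.UM.Least
import Pool.Agent.Lib.MP_a325a5_ag.UM.BC
import Pool.Agent.Lib.MP_a325a5_ag.UM.Comp
import Pool.Agent.Lib.MP_a325a5_ag.UM.VGen

/-! Zilber-Pink for all subvarieties of `S × 𝔾_m^β` over `K` implies the finiteness for the varieties
`V = V_T × ℓ^D` over a subfield `k`.

Paper proof.  Suppose that there are infinitely many maximal atypical subvarieties of `V`.  By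
`exists_decomposition` there is an irreducible closed `W ⊆ V` which contains infinitely many of
them, and their union `B` is dense in `W`.  If the defect of `W` is smaller than the one of `V` then
`W` is contained in an atypical, so in a maximal atypical `M`, and all those in `W` are equal to `M`.
Otherwise let `X` be the base change of `W`.  For `Z ⊆ W` maximal atypical let `p` be a generic point
over `K` of the base change of `Z`.  The defect of `p` is smaller than the one of `X`, so by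
`exists_atypical` the base change of `Z` is contained in an atypical subvariety of `X`.  So
`HLatyp X` contains `B` and is dense in `X`. -/

set_option autoImplicit false

namespace Pool.Agent.Lib.MP_a325a5_ag.UM

open MvPolynomial UL

theorem forward {k K : Type} [Field k] [IsAlgClosed k] [CharZero k] [Field K] [IsAlgClosed K]
    [CharZero K] [Algebra k K] {α : Type} [Fintype α] {S₀ : Set (α → k)}
    {𝒮 : Set (Set (α → k))} (hF : Family S₀ 𝒮)
    (hZP : ∀ (β : Type) [Fintype β] (X : Set (Pt K α β)), IrrClosed X →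
      (∀ x ∈ X, x.1 ∈ bc K S₀) → ¬ DenseIn (HLatyp 𝒮 X) X)
    (T : Set (α → k)) (hT : T ∈ 𝒮) {a : ℕ} (φ : Fin a → MvPolynomial α k)
    (hφ : NoetherNorm T φ) (D : Type) [Fintype D] : (MaxAtypical 𝒮 (VT T φ D)).Finite := by
  classical
  have hTirr := hF.irr T hT
  have hV : IrrClosed (VT T φ D) := VT_irrClosed hTirr φ hφ D
  have hVS : ∀ p ∈ VT T φ D, p.1 ∈ bc k S₀ := by
    intro p hp
    rw [bc_self (hF.irr S₀ hF.top)]
    exact hF.sub T hT hp.1
  obtain ⟨LV, _, _, γV, hγV, hγV1, -, -⟩ := VT_generic hTirr φ hφ D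
  -- points over `k` lie over `S₀`
  have hloc : ∀ (L : Type) [Field L] [Algebra k L]
      (p : Pt L α ((Fin 3 × Fin a) ⊕ (D ⊕ D))), vanIdeal (VT T φ D) ≤ aloc k (co p) →
      avan S₀ ≤ aloc k p.1 := by
    intro L _ _ p hp
    have h1 := ((VT_le_aloc hTirr φ hφ D p).1 hp).1
    exact (avan_anti (hF.sub T hT)).trans h1
  obtain ⟨𝒲, hfin, hW, hcov⟩ := exists_decomposition (MaxAtypical 𝒮 (VT T φ D))
    fun Z hZ => hZ.1.1.1
  -- it is enough that every piece contains finitely many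
  suffices h : ∀ W ∈ 𝒲, {Z | Z ∈ MaxAtypical 𝒮 (VT T φ D) ∧ Z ⊆ W}.Finite by
    refine (hfin.biUnion h).subset fun Z hZ => ?_
    obtain ⟨W, hWm, hZW⟩ := hcov Z hZ
    exact Set.mem_biUnion hWm ⟨hZ, hZW⟩
  intro W hWm
  obtain ⟨hWirr, hWd⟩ := hW W hWm
  set B : Set (Pt k α ((Fin 3 × Fin a) ⊕ (D ⊕ D))) :=
    ⋃₀ {Z | Z ∈ MaxAtypical 𝒮 (VT T φ D) ∧ Z ⊆ W} with hB
  have hBW : B ⊆ W := Set.sUnion_subset fun Z hZ => hZ.2
  have hWV : W ⊆ VT T φ D := by
    rw [subset_iff hV, ← hWd]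
    exact vanIdeal_anti (Set.sUnion_subset fun Z hZ => hZ.1.1.1.2.1)
  -- the base change of `W`
  obtain ⟨X, hX, hXW, hXd, hXk, hXg⟩ := base_change (K := K) W hWirr
  obtain ⟨LX, _, _, γX, hγX⟩ := exists_generic X hX
  let _ : Algebra k LX := ((algebraMap K LX).comp (algebraMap k K)).toAlgebra
  have _ : IsScalarTower k K LX := IsScalarTower.of_algebraMap_eq fun _ => rfl
  obtain ⟨hγk, hγt⟩ := hXg LX γX hγX
  have hγXV : vanIdeal (VT T φ D) ≤ aloc k (co γX) := by
    rw [hγk]
    exact vanIdeal_anti hWV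
  obtain ⟨TV, hTV⟩ := exists_least hF γV.1 (hloc LV γV hγV.ge)
  obtain ⟨TX, hTX⟩ := exists_least hF γX.1 (hloc LX γX hγXV)
  by_cases hlt : dm TX + mr γX.2 + atd k (co γV) < dm TV + mr γV.2 + atd k (co γX)
  · -- `W` is contained in a maximal atypical subvariety
    obtain ⟨Z, hZ, hZle⟩ := exists_atypical hF (VT T φ D) hV hVS γV hγV γX hγXV TV TX hTV hTX hlt
    obtain ⟨M, hM, hZM⟩ := exists_maxAtypical (VT T φ D) Z hZ
    have hWZ : W ⊆ Z := by
      rw [subset_iff hZ.1.1, ← hγk]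
      exact hZle
    refine (Set.finite_singleton M).subset fun Z' hZ' => ?_
    exact (hZ'.1.2 M hM.1 ((hZ'.2.trans hWZ).trans hZM)).symm
  · -- `HLatyp X` is dense in `X`
    exfalso
    push Not at hlt
    have hXS : ∀ x ∈ X, x.1 ∈ bc K S₀ := by
      intro x hx
      rw [mem_bc]
      refine hloc K x (le_trans (vanIdeal_anti hWV) (hXk x hx))
    apply hZP _ X hX hXS
    refine le_trans (vanIdeal_anti ?_) (hXd B hBW hWd.le)
    rintro _ ⟨z, hzB, rfl⟩
    obtain ⟨Z, ⟨hZmax, hZW⟩, hzZ⟩ := hzB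
    have hZat := hZmax.1
    have hZirr := hZat.1.1
    -- a generic point of the base change of `Z`
    obtain ⟨Y, hY, hYZ, hYd, -, hYg⟩ := base_change (K := K) Z hZirr
    obtain ⟨L, _, _, p, hp⟩ := exists_generic Y hY
    let _ : Algebra k L := ((algebraMap K L).comp (algebraMap k K)).toAlgebra
    have _ : IsScalarTower k K L := IsScalarTower.of_algebraMap_eq fun _ => rfl
    obtain ⟨hpk, hpt⟩ := hYg L p hp
    have hpX : vanIdeal X ≤ aloc K (co p) := by
      rw [hp]
      refine le_trans ?_ (hYd Z subset_rfl le_rfl)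
      refine vanIdeal_anti ?_
      rintro _ ⟨y, hy, rfl⟩
      exact hXW y (hZW hy)
    have hpV : vanIdeal (VT T φ D) ≤ aloc k (co p) := by
      rw [hpk]
      exact vanIdeal_anti (hZW.trans hWV)
    obtain ⟨Tp, hTp⟩ := exists_least hF p.1 (hloc L p hpV)
    have h1 := atypical_lt hF (VT T φ D) Z hV hZat γV p hγV hpk TV Tp hTV hTp
    obtain ⟨Z', hZ', hZ'le⟩ := exists_atypical hF X hX hXS γX hγX p hpX TX Tp hTX hTp
      (by rw [hγt, hpt]; omega)
    refine ⟨Z', hZ', ?_⟩
    rw [mem_iff_le_aloc hZ'.1.1]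
    refine le_trans hZ'le ?_
    rw [hp]
    exact (mem_iff_le_aloc hY _).1 (hYZ z hzZ)

end Pool.Agent.Lib.MP_a325a5_ag.UM
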