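import Pool.Agent.Lib.MP_a325a5_ag.UM.Least
import Pool.Agent.Lib.MP_a325a5_ag.UM.BC
import Pool.Agent.Lib.MP_a325a5_ag.UM.Prod
import Pool.Agent.Lib.MP_a325a5_ag.UL.HullEq
import Pool.Agent.Lib.MP_a325a5_ag.UL.KD

/-! The smallest special subvariety containing an irreducible closed set: the product of the smallest
special subset of `S` containing the first part of the generic point and of the smallest torsion coset
containing the second part. -/

set_option autoImplicit false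

namespace Pool.Agent.Lib.MP_a325a5_ag.UM

open MvPolynomial

/-- Affine equations that hold on `Z` hold at a generic point. -/
private theorem Hull_fst {k K : Type} [Field k] [Field K] [Algebra k K] {α β : Type} {L : Type}
    [Field L] [Algebra K L] [Algebra k L] [IsScalarTower k K L] (Z : Set (Pt K α β))
    (γ : Pt L α β) (h : aloc K (co γ) = vanIdeal Z) (T : Set (α → k))
    (hZ : ∀ z ∈ Z, z.1 ∈ bc K T) : avan T ≤ aloc k γ.1 := by
  intro f hf
  have h1 : rename Sum.inl (map (algebraMap k K) f) ∈ vanIdeal Z := by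
    intro z hz
    rw [eval_rename, eval_map]
    have h2 := hZ z hz f hf
    rw [aeval_def] at h2
    exact h2
  rw [← h, mem_aloc, aeval_rename, aeval_map_algebraMap] at h1
  exact mem_aloc.mpr h1

/-- Torus equations that hold on `Z` hold at a generic point. -/
private theorem Hull_snd {K : Type} [Field K] {α β : Type} {L : Type}
    [Field L] [Algebra K L] (Z : Set (Pt K α β))
    (γ : Pt L α β) (h : aloc K (co γ) = vanIdeal Z) (C : Set (β → Kˣ))
    (hZ : ∀ z ∈ Z, z.2 ∈ C) : UL.vanIdeal C ≤ UL.locus K γ.2 := by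
  intro f hf
  have h1 : rename Sum.inr f ∈ vanIdeal Z := by
    intro z hz
    rw [eval_rename]
    exact hf z.2 (hZ z hz)
  rw [← h, mem_aloc, aeval_rename] at h1
  exact UL.mem_locus.mpr h1

variable {k : Type} [Field k] [IsAlgClosed k] {K : Type} [Field K] [IsAlgClosed K] [CharZero K]
  [Algebra k K] {α β : Type} [Fintype α] [Fintype β] {S : Set (α → k)} {𝒮 : Set (Set (α → k))}

omit [IsAlgClosed k] [IsAlgClosed K] [CharZero K] [Fintype α] in
theorem subset_hull (Z : Set (Pt K α β)) : Z ⊆ hull 𝒮 Z :=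
  Set.subset_sInter fun _ hH => hH.2

omit [IsAlgClosed k] [Fintype α] in
private theorem Hull_main (Z : Set (Pt K α β)) (hZ : IrrClosed Z) {L : Type}
    [Field L] [Algebra K L] [Algebra k L] [IsScalarTower k K L] (γ : Pt L α β)
    (h : aloc K (co γ) = vanIdeal Z) (T : Set (α → k)) (hT : Least 𝒮 T γ.1)
    (C : Set (β → Kˣ)) (hC : UL.IrrClosed C) (hCγ : UL.vanIdeal C = UL.locus K γ.2) :
    IsSpecial 𝒮 {p : Pt K α β | p.1 ∈ bc K T ∧ p.2 ∈ UL.hull C} ∧
      hull 𝒮 Z = {p : Pt K α β | p.1 ∈ bc K T ∧ p.2 ∈ UL.hull C} := by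
  have hsp : IsSpecial 𝒮 {p : Pt K α β | p.1 ∈ bc K T ∧ p.2 ∈ UL.hull C} :=
    ⟨T, hT.1, UL.hull C, UL.isSpecial_hull C hC, rfl⟩
  refine ⟨hsp, Set.Subset.antisymm ?_ ?_⟩
  · apply Set.sInter_subset_of_mem
    refine ⟨hsp, ?_⟩
    intro z hz
    have h1 : aloc K (co γ) ≤ aloc K (co z) := by
      rw [h]
      exact (mem_iff_le_aloc hZ z).mp hz
    constructor
    · rw [mem_bc]
      exact hT.2.1.trans (aloc_restrict_le k z.1 γ.1 (aloc_fst_le z γ h1))
    · apply UL.subset_hull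
      rw [UL.mem_iff_le_locus hC, hCγ]
      exact locus_snd_le z γ h1
  · apply Set.subset_sInter
    rintro H ⟨⟨T', hT', C', hC', rfl⟩, hZH⟩ x ⟨hx1, hx2⟩
    have h1 := Hull_fst Z γ h T' (fun z hz => (hZH hz).1)
    have h2 := Hull_snd Z γ h C' (fun z hz => (hZH hz).2)
    have h3 : T ⊆ T' := hT.2.2 T' hT' h1
    have h4 : C ⊆ C' := by
      rw [UL.subset_iff hC'.1, hCγ]
      exact h2
    constructor
    · intro f hf
      exact hx1 f (avan_anti h3 hf)
    · exact hx2 C' ⟨hC', h4⟩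

theorem mem_hull_iff (hF : Family S 𝒮) (Z : Set (Pt K α β)) (hZ : IrrClosed Z) {L : Type}
    [Field L] [Algebra K L] [Algebra k L] [IsScalarTower k K L] (γ : Pt L α β)
    (h : aloc K (co γ) = vanIdeal Z) (T : Set (α → k)) (hT : Least 𝒮 T γ.1) (x : Pt K α β) :
    x ∈ hull 𝒮 Z ↔ x.1 ∈ bc K T ∧ ∀ (a : β → ℤ) (ζ : Kˣ), IsOfFinOrder ζ →
      ∏ i, γ.2 i ^ a i = UL.cst K L ζ → ∏ i, x.2 i ^ a i = ζ := by
  obtain ⟨C, hC, hCγ⟩ := UL.exists_irrClosed (K := K) γ.2
  rw [(Hull_main Z hZ γ h T hT C hC hCγ).2, ← UL.mem_hull_iff C hC γ.2 hCγ.symm x.2]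
  exact Iff.rfl

theorem isSpecial_hull (hF : Family S 𝒮) (Z : Set (Pt K α β)) (hZ : IrrClosed Z)
    (hS : ∀ p ∈ Z, p.1 ∈ bc K S) : IsSpecial 𝒮 (hull 𝒮 Z) := by
  obtain ⟨L, _, _, γ, h⟩ := exists_generic Z hZ
  letI : Algebra k L := ((algebraMap K L).comp (algebraMap k K)).toAlgebra
  haveI : IsScalarTower k K L := IsScalarTower.of_algebraMap_eq' rfl
  obtain ⟨T, hT⟩ := exists_least hF γ.1 (Hull_fst Z γ h S hS)
  obtain ⟨C, hC, hCγ⟩ := UL.exists_irrClosed (K := K) γ.2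
  obtain ⟨h1, h2⟩ := Hull_main Z hZ γ h T hT C hC hCγ
  rw [h2]
  exact h1

theorem zdim_hull (hF : Family S 𝒮) (Z : Set (Pt K α β)) (hZ : IrrClosed Z) {L : Type}
    [Field L] [Algebra K L] [Algebra k L] [IsScalarTower k K L] (γ : Pt L α β)
    (h : aloc K (co γ) = vanIdeal Z) (T : Set (α → k)) (hT : Least 𝒮 T γ.1) :
    zdim (hull 𝒮 Z) = ((dm T + UL.mr γ.2 : ℕ) : WithBot ℕ∞) := by
  obtain ⟨C, hC, hCγ⟩ := UL.exists_irrClosed (K := K) γ.2
  rw [(Hull_main Z hZ γ h T hT C hC hCγ).2]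
  have hTi := hF.irr T hT.1
  have hHC := (UL.isSpecial_hull C hC).1
  obtain ⟨L₁, _, _, q, hq⟩ := exists_ageneric (bc K T) (bc_airr T hTi)
  letI : Algebra k L₁ := ((algebraMap K L₁).comp (algebraMap k K)).toAlgebra
  haveI : IsScalarTower k K L₁ := IsScalarTower.of_algebraMap_eq' rfl
  obtain ⟨L₂, _, _, c, hc⟩ := UL.exists_generic (UL.hull C) hHC
  rw [prod_zdim (bc_airr T hTi) hHC q hq c hc]
  obtain ⟨e1, e2⟩ := base_generic (K := K) T q (by rw [hq, avan_bc T hTi])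
  have e3 := dm_eq T q e1
  have e4 := UL.zdim_eq (UL.hull C) c hc
  have e5 := UL.zdim_hull C hC γ.2 hCγ.symm
  have e6 : UL.td K c = UL.mr γ.2 := by
    rw [e4] at e5
    exact_mod_cast e5
  rw [e2, ← e3, e6]

theorem hull_irr (hF : Family S 𝒮) (H : Set (Pt K α β)) (hH : IsSpecial 𝒮 H) : IrrClosed H := by
  obtain ⟨T, hT, C, hC, rfl⟩ := hH
  exact prod_irr (bc_airr T (hF.irr T hT)) hC.1

end Pool.Agent.Lib.MP_a325a5_ag.UM
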